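import Pool.Agent.Y124.TL.Fi

/-!
# Groups of numbers with a relation over a growing space
-/

set_option autoImplicit false

open Module Finset

namespace Pool.Agent.P8H40.SE

open Pool.Agent.Y124.TD Pool.Agent.Y124.TG

/-- adding a group of numbers with a nontrivial relation -/
lemma gr_group (δ a : ℕ) : ∀ (n c e : ℕ), ∃ c' : ℕ, ∀ (K : IntermediateField ℚ ℂ) (W : Submodule K ℂ), (1 : ℂ) ∈ W → GR c e W →
    ∀ (Y : Fin n → ℂ) (κ : (Fin n → Fin (δ + 1)) → ℂ), (∀ s, κ s ∈ W ^ a) → (∃ s, κ s ≠ 0) →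
      ∑ s, κ s * ∏ i, Y i ^ (s i : ℕ) = 0 →
      0 < n ∧ ∃ W' : Submodule K ℂ, W ≤ W' ∧ (∀ i, Y i ∈ W') ∧ GR c' (e + (n - 1)) W' := by
  intro n
  induction n with
  | zero =>
    intro c e
    refine ⟨0, fun K W h1 hG Y κ hκ hne h0 => ?_⟩
    exfalso
    obtain ⟨s, hs⟩ := hne
    apply hs
    have h2 : ∑ s, κ s * ∏ i, Y i ^ (s i : ℕ) = κ s := by
      rw [Fintype.sum_eq_single s fun s' hs' => absurd (Subsingleton.elim s' s) hs']
      simp
    rw [← h2, h0]
  | succ n ih =>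
    intro c e
    obtain ⟨c₁, hc₁⟩ := ih c e
    refine ⟨max (δ * (1 + (a + δ * n)) ^ (e + n) * c) c₁, fun K W h1 hG Y κ hκ hne h0 => ⟨Nat.succ_pos n, ?_⟩⟩
    rw [Nat.add_sub_cancel]
    set Y' : Fin n → ℂ := fun i => Y i.succ with hY'
    set cc : Fin (δ + 1) → ℂ := fun j => ∑ s' : Fin n → Fin (δ + 1), κ (Fin.cons j s') * ∏ i, Y' i ^ (s' i : ℕ) with hcc
    have hsum : ∑ j : Fin (δ + 1), cc j * Y 0 ^ (j : ℕ) = 0 := by
      rw [← h0, ← Equiv.sum_comp (Fin.consEquiv fun _ : Fin (n + 1) => Fin (δ + 1)), Fintype.sum_prod_type]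
      refine Finset.sum_congr rfl fun j _ => ?_
      rw [hcc]
      dsimp only
      rw [Finset.sum_mul]
      refine Finset.sum_congr rfl fun s' _ => ?_
      have e0 : (Fin.consEquiv fun _ : Fin (n + 1) => Fin (δ + 1)) (j, s') = Fin.cons j s' := rfl
      rw [e0, Fin.prod_univ_succ]
      simp only [Fin.cons_zero, Fin.cons_succ]
      ring
    by_cases hcase : ∃ j, cc j ≠ 0
    · obtain ⟨W₁, hW₁, hYW, hG₁⟩ := gr_fam c n e W h1 hG Y'
      have h11 : (1 : ℂ) ∈ W₁ := hW₁ h1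
      have hccm : ∀ j, cc j ∈ W₁ ^ (a + δ * n) := by
        intro j
        refine Submodule.sum_mem _ fun s' _ => pow_mem_add (mem_pow_le hW₁ (hκ _)) ?_
        have h2 := mem_pow_prod (W := W₁) Finset.univ (fun _ : Fin n => δ) (fun i => Y' i ^ (s' i : ℕ)) (by
          intro i _
          refine pow_mem_mono h11 (Nat.lt_succ_iff.1 (s' i).2) ?_
          have := mem_pow_pow (W := W₁) (d := 1) (x := Y' i) (by rw [pow_one]; exact hYW i) (s' i : ℕ)
          rwa [one_mul] at this)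
        rw [Finset.sum_const, Finset.card_univ, Fintype.card_fin, smul_eq_mul, mul_comm] at h2
        exact h2
      -- the largest index
      obtain ⟨J, hJ, hJmax⟩ : ∃ J : Fin (δ + 1), cc J ≠ 0 ∧ ∀ j, J < j → cc j = 0 := by
        obtain ⟨J, hJ, hmax⟩ := (Finset.univ.filter fun j => cc j ≠ 0).exists_max_image id (by
          obtain ⟨j, hj⟩ := hcase
          exact ⟨j, Finset.mem_filter.2 ⟨Finset.mem_univ _, hj⟩⟩)
        refine ⟨J, (Finset.mem_filter.1 hJ).2, fun j hj => ?_⟩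
        by_contra h5
        exact absurd (hmax j (Finset.mem_filter.2 ⟨Finset.mem_univ _, h5⟩)) (not_le.2 hj)
      let cN : ℕ → ℂ := fun j => if h : j < δ + 1 then cc ⟨j, h⟩ else 0
      have hcN : ∀ j : Fin (δ + 1), cN j = cc j := fun j => by
        show (if h : (j : ℕ) < δ + 1 then cc ⟨j, h⟩ else 0) = _
        rw [dif_pos j.2]
      have hcNm : ∀ j, cN j ∈ W₁ ^ (a + δ * n) := fun j => by
        show (if h : j < δ + 1 then cc ⟨j, h⟩ else 0) ∈ _
        split_ifs
        · exact hccm _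
        · exact Submodule.zero_mem _
      have hsumN : ∑ j ∈ range ((J : ℕ) + 1), cN j * Y 0 ^ j = 0 := by
        have h5 : ∑ j ∈ range (δ + 1), cN j * Y 0 ^ j = 0 := by
          rw [← hsum, ← Fin.sum_univ_eq_sum_range (fun j => cN j * Y 0 ^ j) (δ + 1)]
          exact Finset.sum_congr rfl fun j _ => by rw [hcN]
        rw [← h5]
        refine Finset.sum_subset (fun x hx => ?_) fun x hx hx' => ?_
        · rw [Finset.mem_range] at hx ⊢
          have := J.2
          omega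
        · rw [Finset.mem_range] at hx hx'
          have h6 : cN x = 0 := by
            show (if h : x < δ + 1 then cc ⟨x, h⟩ else 0) = 0
            rw [dif_pos hx]
            apply hJmax
            rw [Fin.lt_def]
            show (J : ℕ) < x
            omega
          rw [h6, zero_mul]
      rcases Nat.eq_zero_or_pos (J : ℕ) with hJ0 | hJ0
      · exfalso
        apply hJ
        rw [hJ0] at hsumN
        rw [← hcN J, hJ0]
        simpa using hsumN
      · obtain ⟨m, hm⟩ : ∃ m, (J : ℕ) = m + 1 := ⟨(J : ℕ) - 1, by omega⟩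
        rw [hm, Finset.sum_range_succ] at hsumN
        have hl0 : cN (m + 1) ≠ 0 := by
          rw [← hm, hcN]
          exact hJ
        have hGa := gr_alg (m := m) (d := a + δ * n) h11 hG₁ hl0 (hcNm _) (κ := fun j => -cN j)
          (fun j => Submodule.neg_mem _ (hcNm j)) (w := Y 0) (by
            simp only [neg_mul]
            rw [Finset.sum_neg_distrib]
            linear_combination hsumN)
        refine ⟨W₁ ⊔ Submodule.span K {Y 0}, hW₁.trans le_sup_left, fun i => ?_, hGa.mono ?_⟩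
        · refine Fin.cases ?_ (fun i' => ?_) i
          · exact Submodule.mem_sup_right (Submodule.mem_span_singleton_self _)
          · exact Submodule.mem_sup_left (hYW i')
        · refine le_trans ?_ (le_max_left _ _)
          have h7 : m + 1 ≤ δ := by
            have := J.2
            omega
          exact Nat.mul_le_mul_right _ (Nat.mul_le_mul_right _ h7)
    · push Not at hcase
      obtain ⟨s, hs⟩ := hne
      have hs' : κ (Fin.cons (s 0) (Fin.tail s)) ≠ 0 := by rwa [Fin.cons_self_tail]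
      obtain ⟨hn, W₁, hW₁, hYW, hG₁⟩ := hc₁ K W h1 hG Y' (fun s' => κ (Fin.cons (s 0) s')) (fun s' => hκ _) ⟨Fin.tail s, hs'⟩
        (hcase (s 0))
      have h11 : (1 : ℂ) ∈ W₁ := hW₁ h1
      have h8 := gr_trans h11 hG₁ (Y 0)
      have h9 : e + (n - 1) + 1 = e + n := by omega
      rw [h9] at h8
      refine ⟨W₁ ⊔ Submodule.span K {Y 0}, hW₁.trans le_sup_left, fun i => ?_, h8.mono (le_max_right _ _)⟩
      refine Fin.cases ?_ (fun i' => ?_) i
      · exact Submodule.mem_sup_right (Submodule.mem_span_singleton_self _)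
      · exact Submodule.mem_sup_left (hYW i')

/-- several groups -/
lemma gr_groups (δ a n : ℕ) : ∀ (k c e : ℕ), ∃ c' : ℕ, ∀ (K : IntermediateField ℚ ℂ) (W : Submodule K ℂ), (1 : ℂ) ∈ W → GR c e W →
    ∀ (Y : Fin k → Fin n → ℂ) (κ : Fin k → (Fin n → Fin (δ + 1)) → ℂ), (∀ l s, κ l s ∈ W ^ a) → (∀ l, ∃ s, κ l s ≠ 0) →
      (∀ l, ∑ s, κ l s * ∏ i, Y l i ^ (s i : ℕ) = 0) →
      ∃ W' : Submodule K ℂ, W ≤ W' ∧ (∀ l i, Y l i ∈ W') ∧ GR c' (e + k * (n - 1)) W' := by
  intro k
  induction k with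
  | zero =>
    intro c e
    refine ⟨c, fun K W h1 hG Y κ _ _ _ => ⟨W, le_rfl, fun l => l.elim0, ?_⟩⟩
    rw [zero_mul, add_zero]
    exact hG
  | succ k ih =>
    intro c e
    obtain ⟨c₁, hc₁⟩ := gr_group δ a n c e
    obtain ⟨c₂, hc₂⟩ := ih c₁ (e + (n - 1))
    refine ⟨c₂, fun K W h1 hG Y κ hκ hne h0 => ?_⟩
    obtain ⟨-, W₁, hW₁, hY₁, hG₁⟩ := hc₁ K W h1 hG (Y 0) (κ 0) (hκ 0) (hne 0) (h0 0)
    obtain ⟨W₂, hW₂, hY₂, hG₂⟩ := hc₂ K W₁ (hW₁ h1) hG₁ (fun l => Y l.succ) (fun l => κ l.succ)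
      (fun l s => mem_pow_le hW₁ (hκ _ _)) (fun l => hne _) (fun l => h0 _)
    refine ⟨W₂, hW₁.trans hW₂, fun l i => ?_, ?_⟩
    · refine Fin.cases ?_ (fun l' => ?_) l
      · exact hW₂ (hY₁ i)
      · exact hY₂ l' i
    · have h9 : e + (n - 1) + k * (n - 1) = e + (k + 1) * (n - 1) := by ring
      rwa [h9] at hG₂

end Pool.Agent.P8H40.SE
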