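import Pool.Agent.P8H40.SE.Eng
import Pool.Agent.P8H40.SE.Grp

/-!
# Relations over arbitrary constants: at most `r + 1` clusters in each window
-/

set_option autoImplicit false

open Module

namespace Pool.Agent.P8H40.SE

open Pool.Agent.Y124.TD Pool.Agent.Y124.TG Pool.Agent.Y120.GH Pool.Agent.Y124.TL

/-- the base in windows -/
theorem base_window {r : ℕ} {T : Polynomial ℤ} {A : Fin r → Fin r → Polynomial ℤ} {h : Fin r → PowerSeries ℚ} (hF : GF T A h)
    {V : Type} [Fintype V] (T₀ : V → Fin r) (hT : AlgebraicIndependent (Polynomial ℚ) (fun v => h (T₀ v))) :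
    ∃ R : ℕ, ∀ k N : ℕ, ∃ (c : ℝ) (M₀ : ℕ), 0 < c ∧ ∀ M : ℕ, M₀ ≤ M → ∀ m : Fin k → ℕ,
      (∀ l, M ≤ m l ∧ (m l : ℝ) ≤ M + (M : ℝ) ^ c) → (∀ l l', l ≠ l' → (R : ℤ) ≤ |(m l : ℤ) - m l'|) →
      ∃ t : ℕ, 0 < t ∧ LinearIndependent ℚ (fun s : Fin k × Option V → Fin (N + 1) => ∏ x, XV h T₀ t (m x.1) x.2 ^ (s x : ℕ)) := by
  classical
  obtain ⟨R, hbase⟩ := base hF
  refine ⟨R, fun k N => ?_⟩
  set d := Fintype.card V with hd
  let ev : V ≃ Fin d := Fintype.equivFin V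
  have hT' : AlgebraicIndependent (Polynomial ℚ) (fun i : Fin d => h ((fun i => T₀ (ev.symm i)) i)) :=
    hT.comp ev.symm ev.symm.injective
  obtain ⟨E, hE⟩ := hbase (fun i => T₀ (ev.symm i)) hT' N k
  obtain ⟨c, M₀, hc, hw⟩ := Pool.Agent.Y124.TD.window E R
  refine ⟨c, M₀ + 1, hc, fun M hM m hm hsep => ?_⟩
  have hle : ∀ j, m j ≤ M + ⌊(M : ℝ) ^ c⌋₊ := by
    intro j
    have h1 := (hm j).2
    have h2 : ((m j - M : ℕ) : ℝ) ≤ (M : ℝ) ^ c := by
      rw [Nat.cast_sub (hm j).1]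
      linarith
    have h3 := Nat.le_floor h2
    have := (hm j).1
    omega
  have hMw := hw M (by omega)
  set H := ⌊(M : ℝ) ^ c⌋₊ with hH
  set t := M + (H + R) with ht
  have hTg : ∀ l, t - (t - m l) = m l := fun l => by
    have := hle l
    omega
  have ht0 : 0 < t := by omega
  have hli := hE (H + R) t (hMw.trans (Nat.le_add_right _ _)) (fun l => t - m l) ⟨fun l => by
    have h5 := hle l
    show R ≤ t - m l
    omega, fun l l' hll => by
    have h4 := hsep l l' hll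
    have h5 := hle l
    have h6 := hle l'
    show t - m l + R ≤ t - m l' ∨ t - m l' + R ≤ t - m l
    rcases le_total (m l) (m l') with h7 | h7
    · right
      rw [abs_of_nonpos (by omega)] at h4
      omega
    · left
      rw [abs_of_nonneg (by omega)] at h4
      omega⟩ (fun l => by
    have := (hm l).1
    show t - m l ≤ H + R
    omega)
  refine ⟨t, ht0, ?_⟩
  let f : Fin k × Option V → Fin k × Option (Fin d) := fun x => (x.1, x.2.map ev)
  have hf : Function.Injective f := by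
    rintro ⟨l, o⟩ ⟨l', o'⟩ h1
    have h2 : l = l' := congrArg Prod.fst h1
    have h3 : o.map ev = o'.map ev := congrArg Prod.snd h1
    rw [h2, Option.map_injective ev.injective h3]
  have hXV : ∀ x : Fin k × Option V, XV h T₀ t (m x.1) x.2 = xv h (fun i => T₀ (ev.symm i)) t (t - m (f x).1) (f x).2 := by
    rintro ⟨l, o⟩
    rcases o with _ | v
    · show ((Real.log ((m l : ℝ) / t) : ℝ) : ℂ) = ((Real.log (1 - ((t - m l : ℕ) : ℝ) / t) : ℝ) : ℂ)
      have h2 : (t : ℝ) ≠ 0 := by exact_mod_cast ht0.ne'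
      have h3 : m l ≤ t := by
        have := hle l
        omega
      rw [Nat.cast_sub h3]
      congr 2
      field_simp
      ring
    · show hv h (m l : ℝ) (T₀ v) = hv h ((t - (t - m l) : ℕ) : ℝ) (T₀ (ev.symm (ev v)))
      rw [hTg, Equiv.symm_apply_apply]
  have hE' : Function.Injective (fun s' : Fin k × Option V → Fin (N + 1) => Function.extend f s' (fun _ => (0 : Fin (N + 1)))) := by
    intro s₁ s₂ h12
    funext j
    have h3 := congrFun h12 (f j)
    simpa only [hf.extend_apply] using h3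
  have h5 := hli.comp _ hE'
  convert h5 using 1
  funext s'
  show ∏ j, XV h T₀ t (m j.1) j.2 ^ (s' j : ℕ) = ∏ i, xv h (fun i => T₀ (ev.symm i)) t (t - m i.1) i.2 ^
    ((Function.extend f s' (fun _ => (0 : Fin (N + 1))) i : Fin (N + 1)) : ℕ)
  rw [← Finset.prod_subset (Finset.subset_univ (Finset.univ.image f))]
  · rw [Finset.prod_image fun i _ j _ hij => hf hij]
    refine Finset.prod_congr rfl fun j _ => ?_
    rw [hf.extend_apply, hXV]
  · intro i _ hi
    rw [Function.extend_apply']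
    · simp
    · rintro ⟨j, rfl⟩
      exact hi (Finset.mem_image_of_mem _ (Finset.mem_univ _))

/-- a field containing several fields -/
lemma sup_field {D : ℕ} : ∀ (k : ℕ) (F : Fin k → IntermediateField ℚ ℂ), (∀ l, FiniteDimensional ℚ (F l) ∧ finrank ℚ (F l) ≤ D) →
    ∃ K : IntermediateField ℚ ℂ, (∀ l, F l ≤ K) ∧ FiniteDimensional ℚ K ∧ finrank ℚ K ≤ D ^ k := by
  intro k
  induction k with
  | zero =>
    intro F _
    refine ⟨⊥, fun l => l.elim0, inferInstance, ?_⟩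
    rw [pow_zero, IntermediateField.finrank_bot]
  | succ k ih =>
    intro F hF
    obtain ⟨K, h1, h2, h3⟩ := ih (fun l => F l.succ) fun l => hF _
    have := (hF 0).1
    refine ⟨K ⊔ F 0, fun l => ?_, IntermediateField.finiteDimensional_sup _ _, ?_⟩
    · refine Fin.cases le_sup_right (fun l' => (h1 l').trans le_sup_left) l
    · rw [pow_succ]
      exact (IntermediateField.finrank_sup_le _ _).trans (Nat.mul_le_mul h3 (hF 0).2)

/-- substitution of constants -/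
noncomputable def subst {r : ℕ} {σ : Type} {K : IntermediateField ℚ ℂ} (θ : Fin r → ℂ) (P : MvPolynomial (Fin r ⊕ σ) K) :
    MvPolynomial σ ℂ :=
  MvPolynomial.aeval (Sum.elim (fun i => MvPolynomial.C (θ i)) MvPolynomial.X) P

lemma subst_coeff {r : ℕ} {σ : Type} [Fintype σ] [DecidableEq σ] {K : IntermediateField ℚ ℂ} (θ : Fin r → ℂ)
    (P : MvPolynomial (Fin r ⊕ σ) K) (u : σ →₀ ℕ) :
    (subst θ P).coeff u = ∑ d ∈ P.support, if (∀ x, d (Sum.inr x) = u x) then ((P.coeff d : K) : ℂ) * ∏ i, θ i ^ d (Sum.inl i) else 0 := by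
  classical
  unfold subst
  rw [MvPolynomial.aeval_def, MvPolynomial.eval₂_eq', MvPolynomial.coeff_sum]
  refine Finset.sum_congr rfl fun d _ => ?_
  rw [Fintype.prod_sum_type]
  simp only [Sum.elim_inl, Sum.elim_inr]
  have h1 : (∏ x : σ, (MvPolynomial.X x : MvPolynomial σ ℂ) ^ d (Sum.inr x)) =
      MvPolynomial.monomial (Finsupp.equivFunOnFinite.symm fun x => d (Sum.inr x)) 1 := by
    rw [MvPolynomial.monomial_eq, MvPolynomial.C_1, one_mul, Finsupp.prod_fintype _ _ (fun x => pow_zero _)]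
    rfl
  have h2 : ((algebraMap K (MvPolynomial σ ℂ)) (P.coeff d)) * ((∏ i : Fin r, (MvPolynomial.C (θ i) : MvPolynomial σ ℂ) ^ d (Sum.inl i)) *
      ∏ x : σ, (MvPolynomial.X x : MvPolynomial σ ℂ) ^ d (Sum.inr x)) =
      MvPolynomial.C (((P.coeff d : K) : ℂ) * ∏ i, θ i ^ d (Sum.inl i)) *
        MvPolynomial.monomial (Finsupp.equivFunOnFinite.symm fun x => d (Sum.inr x)) 1 := by
    rw [h1, ← mul_assoc]
    congr 1
    rw [MvPolynomial.C_mul, map_prod]
    simp only [map_pow]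
    rfl
  rw [h2, MvPolynomial.coeff_C_mul, MvPolynomial.coeff_monomial]
  have h3 : (Finsupp.equivFunOnFinite.symm (fun x => d (Sum.inr x)) = u) ↔ ∀ x, d (Sum.inr x) = u x := by
    constructor
    · rintro rfl x
      rfl
    · intro h
      ext x
      exact h x
  by_cases h4 : ∀ x, d (Sum.inr x) = u x
  · rw [if_pos (h3.2 h4), if_pos h4, mul_one]
  · rw [if_neg (fun h => h4 (h3.1 h)), if_neg h4, mul_zero]

lemma subst_eval {r : ℕ} {σ : Type} {K : IntermediateField ℚ ℂ} (θ : Fin r → ℂ) (P : MvPolynomial (Fin r ⊕ σ) K) (y : σ → ℂ) :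
    MvPolynomial.eval y (subst θ P) = MvPolynomial.aeval (Sum.elim θ y) P := by
  unfold subst
  rw [← MvPolynomial.coe_aeval_eq_eval]
  have h1 := MvPolynomial.comp_aeval (R := K) (S₁ := MvPolynomial σ ℂ) (Sum.elim (fun i => MvPolynomial.C (θ i)) MvPolynomial.X)
    ((MvPolynomial.aeval y : MvPolynomial σ ℂ →ₐ[ℂ] ℂ).restrictScalars K)
  have h2 := congrArg (fun φ : MvPolynomial (Fin r ⊕ σ) K →ₐ[K] ℂ => φ P) h1
  refine h2.trans ?_
  congr 1
  congr 1
  funext x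
  rcases x with i | x
  · show MvPolynomial.aeval y (MvPolynomial.C (θ i)) = θ i
    rw [MvPolynomial.aeval_C]
    rfl
  · show MvPolynomial.aeval y (MvPolynomial.X x) = y x
    rw [MvPolynomial.aeval_X]

lemma subst_mem {r δ : ℕ} {σ : Type} [Fintype σ] {K K' : IntermediateField ℚ ℂ} (hK : K ≤ K') (θ : Fin r → ℂ)
    (P : MvPolynomial (Fin r ⊕ σ) K) (hP : ∀ x, P.degreeOf x ≤ δ) {W : Submodule K' ℂ} (h1 : (1 : ℂ) ∈ W) (hθ : ∀ i, θ i ∈ W)
    (u : σ →₀ ℕ) : (subst θ P).coeff u ∈ W ^ (δ * r) := by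
  classical
  rw [subst_coeff]
  refine Submodule.sum_mem _ fun d hd => ?_
  split_ifs
  · have h2 := mem_pow_prod (W := W) Finset.univ (fun _ : Fin r => δ) (fun i => θ i ^ (d (Sum.inl i))) (by
      intro i _
      have h3 : d (Sum.inl i) ≤ δ := by
        refine le_trans ?_ (hP (Sum.inl i))
        rw [MvPolynomial.degreeOf_eq_sup]
        exact Finset.le_sup (f := fun m : (Fin r ⊕ σ) →₀ ℕ => m (Sum.inl i)) hd
      refine pow_mem_mono h1 h3 ?_
      have := mem_pow_pow (W := W) (d := 1) (x := θ i) (by rw [pow_one]; exact hθ i) (d (Sum.inl i))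
      rwa [one_mul] at this)
    rw [Finset.sum_const, Finset.card_univ, Fintype.card_fin, smul_eq_mul, mul_comm] at h2
    have h4 : ((P.coeff d : K) : ℂ) * ∏ i, θ i ^ d (Sum.inl i) =
        (IntermediateField.inclusion hK (P.coeff d)) • ∏ i, θ i ^ d (Sum.inl i) := by
      rw [Algebra.smul_def]
      rfl
    rw [h4]
    exact Submodule.smul_mem _ _ h2
  · exact Submodule.zero_mem _

lemma subst_degree {r δ : ℕ} {σ : Type} [Fintype σ] {K : IntermediateField ℚ ℂ} (θ : Fin r → ℂ)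
    (P : MvPolynomial (Fin r ⊕ σ) K) (hP : ∀ x, P.degreeOf x ≤ δ) {u : σ →₀ ℕ} (hu : (subst θ P).coeff u ≠ 0) (x : σ) :
    u x ≤ δ := by
  classical
  rw [subst_coeff] at hu
  obtain ⟨d, hd, hne⟩ := Finset.exists_ne_zero_of_sum_ne_zero hu
  split_ifs at hne with h
  · rw [← h x]
    refine le_trans ?_ (hP (Sum.inr x))
    rw [MvPolynomial.degreeOf_eq_sup]
    exact Finset.le_sup (f := fun m : (Fin r ⊕ σ) →₀ ℕ => m (Sum.inr x)) hd
  · exact absurd rfl hne

/-- the numbers with `log m` -/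
noncomputable def wl {V : Type} (Y : ℕ → V → ℂ) (m : ℕ) (o : Option V) : ℂ := o.elim ((Real.log m : ℝ) : ℂ) (Y m)

/-- **The clash**: `r + 2` points of a window cannot all have nontrivial relations over the same `r` constants. -/
theorem clash {r₀ : ℕ} {T : Polynomial ℤ} {A : Fin r₀ → Fin r₀ → Polynomial ℤ} {h : Fin r₀ → PowerSeries ℚ} (hF : GF T A h)
    {V : Type} [Fintype V] (T₀ : V → Fin r₀) (hT : AlgebraicIndependent (Polynomial ℚ) (fun v => h (T₀ v))) {n : ℕ} (hn : 0 < n)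
    (Y : ℕ → V → ℂ) (m₀ : ℕ) (hY : ∀ m : ℕ, m₀ ≤ m → ∀ v, ∃ ρ : ℂ, (∃ q : ℚ, ρ ^ n = q) ∧ hv h (m : ℝ) (T₀ v) = ρ * Y m v) :
    ∃ R : ℕ, ∀ r δ D : ℕ, ∃ (c : ℝ) (M₀ : ℕ), 0 < c ∧ ∀ M : ℕ, M₀ ≤ M → ∀ θ : Fin r → ℂ, ∀ m : Fin (r + 2) → ℕ,
      (∀ l, M ≤ m l ∧ (m l : ℝ) ≤ M + (M : ℝ) ^ c) → (∀ l l', l ≠ l' → (R : ℤ) ≤ |(m l : ℤ) - m l'|) →
      ∀ F : Fin (r + 2) → IntermediateField ℚ ℂ, (∀ l, FiniteDimensional ℚ (F l) ∧ finrank ℚ (F l) ≤ D) →
      ∀ P : ∀ l, MvPolynomial (Fin r ⊕ Option V) (F l), (∀ l x, (P l).degreeOf x ≤ δ) →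
        (∀ l, MvPolynomial.aeval (Sum.elim θ (wl Y (m l))) (P l) = 0) → ∃ l, subst θ (P l) = 0 := by
  classical
  obtain ⟨R, hR⟩ := base_window hF T₀ hT
  refine ⟨R, fun r δ D => ?_⟩
  set k := r + 2 with hk
  set d := Fintype.card V with hd
  set D' := D ^ k * n ^ (k * d) with hD'
  obtain ⟨c', hc'⟩ := gr_groups δ (δ * r) (d + 1) k D' (0 + r)
  obtain ⟨N, hN⟩ := gr_li' c' (0 + r + k * (d + 1 - 1) + 1) (k * (d + 1)) 1 (by
    rw [hk, Nat.add_sub_cancel]
    nlinarith)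
  obtain ⟨c, M₁, hc, hbase⟩ := hR k N
  refine ⟨c, M₁ + m₀ + 1, hc, fun M hM θ m hm hsep F hFd P hP h0 => ?_⟩
  by_contra hcon
  push Not at hcon
  obtain ⟨t, ht, hLI⟩ := hbase M (by omega) m hm hsep
  have hmpos : ∀ l, 0 < m l := fun l => by
    have := (hm l).1
    omega
  -- the field
  choose ρ hρq hρ using fun x : Fin k × V => hY (m x.1) (by have := (hm x.1).1; omega) x.2
  obtain ⟨K₁, hFK, hfin₁, hrk₁⟩ := sup_field k F hFd
  obtain ⟨K, hK₁K, hfin, hrk, hρK⟩ := ext_field hn K₁ (Finset.univ.image ρ) (by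
    intro x hx
    obtain ⟨y, -, rfl⟩ := Finset.mem_image.1 hx
    exact hρq y)
  have hcard : (Finset.univ.image ρ).card ≤ k * d := by
    refine Finset.card_image_le.trans ?_
    rw [Finset.card_univ, Fintype.card_prod, Fintype.card_fin]
  have hrk' : finrank ℚ K ≤ D' := hrk.trans (Nat.mul_le_mul hrk₁ (Nat.pow_le_pow_right hn hcard))
  have h10 : (1 : ℂ) ∈ (1 : Submodule K ℂ) := Submodule.one_le.1 le_rfl
  obtain ⟨W₀, hW₀, hθW, hG₀⟩ := gr_fam D' r 0 (1 : Submodule K ℂ) h10 (gr_one hrk') θ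
  have h1W : (1 : ℂ) ∈ W₀ := hW₀ h10
  -- the relations
  let e : Fin (d + 1) ≃ Option V := (Fintype.equivFinOfCardEq (by rw [Fintype.card_option])).symm
  let us : (Fin (d + 1) → Fin (δ + 1)) → (Option V →₀ ℕ) := fun s => Finsupp.equivFunOnFinite.symm fun x => (s (e.symm x) : ℕ)
  have hus : Function.Injective us := by
    intro s s' hss
    funext i
    have h5 := DFunLike.congr_fun hss (e i)
    have h6 : (s (e.symm (e i)) : ℕ) = (s' (e.symm (e i)) : ℕ) := h5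
    rw [Equiv.symm_apply_apply] at h6
    exact Fin.ext h6
  have hsurj : ∀ l (u : Option V →₀ ℕ), (subst θ (P l)).coeff u ≠ 0 → ∃ s, us s = u := by
    intro l u hu
    refine ⟨fun i => ⟨u (e i), Nat.lt_succ_of_le (subst_degree θ (P l) (hP l) hu _)⟩, ?_⟩
    ext x
    show (u (e (e.symm x)) : ℕ) = u x
    rw [Equiv.apply_symm_apply]
  obtain ⟨W₁, hW₁, hYW, hG₁⟩ := hc' K W₀ h1W hG₀ (fun l i => wl Y (m l) (e i)) (fun l s => (subst θ (P l)).coeff (us s))
    (fun l s => subst_mem ((hFK l).trans hK₁K) θ (P l) (hP l) h1W hθW _) (fun l => by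
      obtain ⟨u, hu⟩ := MvPolynomial.ne_zero_iff.1 (hcon l)
      obtain ⟨s, rfl⟩ := hsurj l u hu
      exact ⟨s, hu⟩) (fun l => by
      have h5 := h0 l
      rw [← subst_eval, MvPolynomial.eval_eq'] at h5
      rw [← h5, eq_comm]
      have hsub : (subst θ (P l)).support ⊆ Finset.univ.image us := by
        intro u hu
        obtain ⟨s, hs⟩ := hsurj l u (MvPolynomial.mem_support_iff.1 hu)
        exact Finset.mem_image.2 ⟨s, Finset.mem_univ _, hs⟩
      rw [Finset.sum_subset hsub, Finset.sum_image fun s _ s' _ hss => hus hss]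
      · refine Finset.sum_congr rfl fun s _ => ?_
        congr 1
        rw [← Equiv.prod_comp e]
        refine Finset.prod_congr rfl fun i _ => ?_
        show wl Y (m l) (e i) ^ (s (e.symm (e i)) : ℕ) = _
        rw [Equiv.symm_apply_apply]
      · intro u _ hu
        rw [MvPolynomial.notMem_support_iff.1 hu, zero_mul])
  have h11 : (1 : ℂ) ∈ W₁ := hW₁ h1W
  have hG₂ := gr_trans h11 hG₁ ((Real.log t : ℝ) : ℂ)
  set W₂ := W₁ ⊔ Submodule.span K {((Real.log t : ℝ) : ℂ)} with hW₂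
  have h12 : (1 : ℂ) ∈ W₂ := Submodule.mem_sup_left h11
  refine hN K W₂ h12 hG₂ (Fin k × Option V) (by rw [Fintype.card_prod, Fintype.card_option, Fintype.card_fin]) _ 1 one_ne_zero
    (by rw [pow_one]; exact h12) (fun x => ?_) hLI
  rw [one_mul, pow_one]
  obtain ⟨l, o⟩ := x
  have hwl : ∀ o, wl Y (m l) o ∈ W₂ := fun o => by
    have h5 := hYW l (e.symm o)
    simp only [Equiv.apply_symm_apply] at h5
    exact Submodule.mem_sup_left h5
  rcases o with _ | v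
  · show ((Real.log (m l / t) : ℝ) : ℂ) ∈ W₂
    have e1 : (0 : ℝ) < m l := by exact_mod_cast hmpos l
    have e2 : (0 : ℝ) < t := by exact_mod_cast ht
    rw [Real.log_div e1.ne' e2.ne', Complex.ofReal_sub]
    exact Submodule.sub_mem _ (hwl none) (Submodule.mem_sup_right (Submodule.mem_span_singleton_self _))
  · show hv h (m l : ℝ) (T₀ v) ∈ W₂
    rw [hρ (l, v)]
    have h6 : ρ (l, v) * Y (m l) v = ((⟨ρ (l, v), hρK _ (Finset.mem_image_of_mem _ (Finset.mem_univ _))⟩ : K) : K) • Y (m l) v := by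
      rw [Algebra.smul_def]
      rfl
    rw [h6]
    exact Submodule.smul_mem _ _ (hwl (some v))

/-- **At most `r + 1` clusters** -/
theorem clusters {r₀ : ℕ} {T : Polynomial ℤ} {A : Fin r₀ → Fin r₀ → Polynomial ℤ} {h : Fin r₀ → PowerSeries ℚ} (hF : GF T A h)
    {V : Type} [Fintype V] (T₀ : V → Fin r₀) (hT : AlgebraicIndependent (Polynomial ℚ) (fun v => h (T₀ v))) {n : ℕ} (hn : 0 < n)
    (Y : ℕ → V → ℂ) (m₀ : ℕ) (hY : ∀ m : ℕ, m₀ ≤ m → ∀ v, ∃ ρ : ℂ, (∃ q : ℚ, ρ ^ n = q) ∧ hv h (m : ℝ) (T₀ v) = ρ * Y m v) :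
    ∃ G : ℕ, ∀ r δ D : ℕ, ∃ (c : ℝ) (M₀ : ℕ), 0 < c ∧ ∀ M : ℕ, M₀ ≤ M → ∀ θ : Fin r → ℂ, ∃ S : Finset ℕ, S.card ≤ r + 1 ∧
      ∀ m : ℕ, M ≤ m → (m : ℝ) ≤ M + (M : ℝ) ^ c → (∀ x ∈ S, (G : ℤ) ≤ |(m : ℤ) - x|) →
        ∀ (K : IntermediateField ℚ ℂ) [FiniteDimensional ℚ K], finrank ℚ K ≤ D →
          ∀ P : MvPolynomial (Fin r ⊕ Option V) K, (∀ x, P.degreeOf x ≤ δ) →
            MvPolynomial.aeval (Sum.elim θ (wl Y m)) P = 0 → subst θ P = 0 := by
  classical
  obtain ⟨R, hR⟩ := clash hF T₀ hT hn Y m₀ hY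
  refine ⟨R + 1, fun r δ D => ?_⟩
  obtain ⟨c, M₀, hc, hmain⟩ := hR r δ D
  refine ⟨c, M₀, hc, fun M hM θ => ?_⟩
  -- the exceptional integers
  let Exc : ℕ → Prop := fun m => M ≤ m ∧ (m : ℝ) ≤ M + (M : ℝ) ^ c ∧ ∃ (K : IntermediateField ℚ ℂ) (_ : FiniteDimensional ℚ K),
    finrank ℚ K ≤ D ∧ ∃ P : MvPolynomial (Fin r ⊕ Option V) K, (∀ x, P.degreeOf x ≤ δ) ∧
      MvPolynomial.aeval (Sum.elim θ (wl Y m)) P = 0 ∧ subst θ P ≠ 0
  let Q : ℕ → Prop := fun j => ∃ S : Finset ℕ, S.card = j ∧ (∀ x ∈ S, Exc x) ∧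
    ∀ x ∈ S, ∀ y ∈ S, x ≠ y → ((R + 1 : ℕ) : ℤ) ≤ |(x : ℤ) - y|
  have hQ0 : Q 0 := ⟨∅, rfl, fun x hx => absurd hx (Finset.notMem_empty _), fun x hx => absurd hx (Finset.notMem_empty _)⟩
  have hQk : ¬ Q (r + 2) := by
    rintro ⟨S, hS, hE, hsep⟩
    let g : Fin (r + 2) → ℕ := fun i => S.orderEmbOfFin hS i
    have hgS : ∀ i, g i ∈ S := fun i => S.orderEmbOfFin_mem hS i
    have hginj : Function.Injective g := (S.orderEmbOfFin hS).injective
    choose hg1 hg2 K hKf hKD P hP h0 hne using fun i => hE (g i) (hgS i)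
    obtain ⟨l, hl⟩ := hmain M hM θ g (fun l => ⟨hg1 l, hg2 l⟩) (fun l l' hll => by
      have h5 := hsep (g l) (hgS l) (g l') (hgS l') (hginj.ne hll)
      push_cast at h5
      linarith) K (fun l => ⟨hKf l, hKD l⟩) P hP h0
    exact hne l hl
  obtain ⟨j, hj, hj1, hjr⟩ : ∃ j, Q j ∧ ¬ Q (j + 1) ∧ j ≤ r + 1 := by
    have hex : ∃ j, ¬ Q j := ⟨r + 2, hQk⟩
    have h5 := Nat.find_spec hex
    have h6 : Nat.find hex ≤ r + 2 := Nat.find_min' hex hQk
    have h7 : Nat.find hex ≠ 0 := fun h8 => by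
      rw [h8] at h5
      exact h5 hQ0
    obtain ⟨j, hj⟩ := Nat.exists_eq_succ_of_ne_zero h7
    refine ⟨j, ?_, ?_, by omega⟩
    · by_contra h8
      have h9 := Nat.find_min' hex h8
      omega
    · rw [← Nat.succ_eq_add_one, ← hj]
      exact h5
  obtain ⟨S, hS, hE, hsep⟩ := hj
  refine ⟨S, by omega, fun m hm1 hm2 hmS K _ hK P hP h0 => ?_⟩
  by_contra hne
  apply hj1
  have hmS' : m ∉ S := fun h => by
    have h5 := hmS m h
    rw [sub_self, abs_zero] at h5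
    push_cast at h5
    omega
  refine ⟨insert m S, by rw [Finset.card_insert_of_notMem hmS', hS], fun x hx => ?_, fun x hx y hy hxy => ?_⟩
  · rcases Finset.mem_insert.1 hx with rfl | hx
    · exact ⟨hm1, hm2, K, inferInstance, hK, P, hP, h0, hne⟩
    · exact hE x hx
  · rcases Finset.mem_insert.1 hx with hx' | hx' <;> rcases Finset.mem_insert.1 hy with hy' | hy'
    · exact absurd (hx'.trans hy'.symm) hxy
    · rw [hx']
      exact hmS y hy'
    · rw [hy', abs_sub_comm]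
      exact hmS x hx'
    · exact hsep x hx' y hy' hxy

end Pool.Agent.P8H40.SE
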