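import Pool.Agent.P8H40.SE.CovM

/-!
# Integrals on abelian covers of the line at all tuples of nearby integers: general form
-/

set_option autoImplicit false

open PowerSeries Module

namespace Pool.Agent.P8H40.SE

open Pool.Agent.Y113

/-- the general form: some of the numbers, arbitrary lists `w` -/
theorem cover_gen (hKEY : S_KEY) (hSIM : S_SIM) (hPW : S_PW) (hPRI : S_PRI) (hGFD : S_GFD) (hVAL : S_VAL) {p q s : ℕ}
    (g : Fin p → Polynomial ℤ) (hg : Squarefree (∏ i, (g i).map (Int.castRingHom ℚ))) (hg1 : ∀ i, 0 < (g i).natDegree)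
    (hlc : ∀ i, 0 < (g i).leadingCoeff)
    (a : Fin q → Fin p → ℚ) (ha : ∀ κ i, 0 ≤ a κ i ∧ a κ i < 1) (hinj : Function.Injective a)
    (hA : ∀ κ, ∀ z : ℤ, ∑ i, a κ i * ((g i).natDegree : ℚ) ≠ z) (b : Fin s → ℤ) (hb : Function.Injective b) (hb0 : ∀ i, b i ≠ 0)
    (I : Fin q → ℕ → ℝ → ℂ) (hI : ∀ κ j, j + 2 ≤ Nn g (a κ) → IsPrim g (a κ) j (I κ j)) :
    ∃ G : ℕ, ∀ k r δ D C e : ℕ, ∃ (c : ℝ) (M₀ : ℕ), 0 < c ∧ ∀ M : ℕ, M₀ ≤ M → ∀ m : Fin (k + 1) → ℕ,
      (∀ l, M ≤ m l ∧ (m l : ℝ) ≤ M + (M : ℝ) ^ c) → (∀ l l', l ≠ l' → (G : ℤ) ≤ |(m l : ℤ) - m l'|) →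
      ∀ (K : IntermediateField ℚ ℂ) [FiniteDimensional ℚ K], finrank ℚ K ≤ D →
        ∀ (ι : Type) [Fintype ι], Fintype.card ι = C → ∀ (T : Type) [Fintype T], Fintype.card T = e →
        ∀ φ : T → Idx g a s k, Function.Injective φ → ∀ (θ : Fin r → ℂ) (w : ι → ℂ),
          (∀ x, num g a b I m (φ x) ∈ Submodule.span K (insert 1 (Set.range w ∪ Set.range θ))) →
          ∃ σ : Fin (e - r) → ι, Function.Injective σ ∧
            Pool.Agent.Y124.TD.LIb K δ (fun i => w (σ i)) := by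
  classical
  obtain ⟨h, hh, R, hR⟩ := cover_engine hKEY hSIM hPW hPRI hGFD g hg hg1 a ha hinj hA b hb hb0
  obtain ⟨n, hn, hna⟩ := exists_den a
  refine ⟨R, fun k r δ D C e => ?_⟩
  set v := Fintype.card (VI g a s) with hv
  obtain ⟨c, M₁, hc, hmain⟩ := hR (k + 1) δ (D * n ^ ((k + 1) * v)) (1 + r) 1 C (e + 1)
  -- the values
  have hval : ∀ᶠ t : ℝ in Filter.atTop, ∀ x : (Σ κ : Fin q, Fin (Nn g (a κ) - 1)), I x.1 x.2 t =
      -(((∏ i, ((g i).leadingCoeff : ℝ) ^ (-(a x.1 i : ℝ))) * t ^ (-(ex g (a x.1) x.2 : ℝ)) *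
    ev t (PowerSeries.mk fun m => coeff m (h x.1) / ((m : ℚ) + ex g (a x.1) x.2)) : ℝ) : ℂ) := by
    rw [Filter.eventually_all]
    intro x
    refine hVAL p g (a x.1) x.2 (h x.1) hlc (hh x.1).1 (hh x.1).2.1 (hh x.1).2.2 (fun z hz => ?_) _
      (hI x.1 x.2 (by have := x.2.2; omega))
    unfold ex at hz
    apply hA x.1 (z + ((x.2 : ℕ) + 1))
    push_cast
    linarith
  obtain ⟨t₀, ht₀⟩ := Filter.eventually_atTop.1 hval
  obtain ⟨M₂, hM₂⟩ := exists_nat_ge (|t₀| + ∑ i, |(b i : ℝ)|)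
  refine ⟨c, M₁ + M₂ + 1, hc, fun M hM m hm hsep K _ hK ι _ hι T _ hT φ hφ θ w hw => ?_⟩
  have hmpos : ∀ l, 0 < m l := fun l => by
    have := (hm l).1
    omega
  have hmb : ∀ l, |t₀| + ∑ i, |(b i : ℝ)| < (m l : ℝ) := fun l => by
    have h1 : M₂ + 1 ≤ m l := by
      have := (hm l).1
      omega
    have h2 : ((M₂ + 1 : ℕ) : ℝ) ≤ m l := by exact_mod_cast h1
    push_cast at h2
    linarith
  have hbs : 0 ≤ ∑ i, |(b i : ℝ)| := Finset.sum_nonneg fun i _ => abs_nonneg _
  obtain ⟨t, ht, hmn⟩ := hmain M (by omega) m hm hsep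
  -- the radicals
  let f : Fin (k + 1) × VI g a s → ℂ := fun x => Sum.elim (fun y => ((fct g (a y.1) y.2 (m x.1) : ℝ) : ℂ)) (fun _ => 1) x.2
  have hf0 : ∀ x, f x ≠ 0 := by
    rintro ⟨l, y | i⟩
    · show ((fct g (a y.1) y.2 (m l) : ℝ) : ℂ) ≠ 0
      exact_mod_cast fct_ne g hlc (a y.1) y.2 (hmpos l)
    · exact one_ne_zero
  obtain ⟨K', hKK', hfin, hrk, hfK⟩ := ext_field hn K (Finset.univ.image f) (by
    intro x hx
    obtain ⟨⟨l, y | i⟩, -, rfl⟩ := Finset.mem_image.1 hx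
    · exact fct_rad g hlc (a y.1) (hna y.1) y.2 (hmpos l)
    · exact ⟨1, by simp [f]⟩)
  have hcard : (Finset.univ.image f).card ≤ (k + 1) * v := by
    refine Finset.card_image_le.trans ?_
    rw [Finset.card_univ, Fintype.card_prod, Fintype.card_fin]
  have hrk' : finrank ℚ K' ≤ D * n ^ ((k + 1) * v) :=
    hrk.trans (Nat.mul_le_mul hK (Nat.pow_le_pow_right hn hcard))
  let ψ : Option T → Fin (k + 1) × Option (VI g a s) := fun o => o.elim (0, none) fun x =>
    Sum.elim (fun y => (y.1, some y.2)) (fun l => (l.succ, none)) (φ x)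
  have hψ : Function.Injective ψ := by
    have h1 : Function.Injective (fun x : Idx g a s k => (Sum.elim (fun y => (y.1, some y.2)) (fun l => (l.succ, none)) x :
        Fin (k + 1) × Option (VI g a s))) := by
      rintro (⟨l, v⟩ | l) (⟨l', v'⟩ | l') h
      · simpa using h
      · simp at h
      · simp at h
      · simpa using h
    have h2 : ∀ x : Idx g a s k, (Sum.elim (fun y => (y.1, some y.2)) (fun l => (l.succ, none)) x :
        Fin (k + 1) × Option (VI g a s)) ≠ (0, none) := by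
      rintro (⟨l, v⟩ | l) h
      · simp at h
      · have h3 : l.succ = 0 := congrArg Prod.fst h
        exact Fin.succ_ne_zero _ h3
    rintro (_ | x) (_ | x') h
    · rfl
    · exact absurd h.symm (h2 _)
    · exact absurd h (h2 _)
    · exact congrArg some (hφ (h1 h))
  obtain ⟨σ, hσ, hLI⟩ := hmn K' hrk' ι hι w (Option T) (by rw [Fintype.card_option, hT]) ψ hψ
    (Fin.append (fun _ : Fin 1 => ((Real.log (m 0 / t) : ℝ) : ℂ)) θ) (by
      intro W₂ h1 hw2 hex
      have hθ : ∀ i, θ i ∈ W₂ := fun i => by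
        have := hex (Fin.natAdd 1 i)
        rwa [Fin.append_right] at this
      have hL : ((Real.log (m 0 / t) : ℝ) : ℂ) ∈ W₂ := by
        have := hex (Fin.castAdd r 0)
        rwa [Fin.append_left] at this
      have hnum : ∀ x, num g a b I m (φ x) ∈ W₂ := fun x => mem_of_le_span hKK' (by
        rintro y (rfl | ⟨x, rfl⟩ | ⟨i, rfl⟩)
        · exact h1
        · exact hw2 x
        · exact hθ i) (hw x)
      have hX : ∀ x : Idx g a s k, num g a b I m x ∈ W₂ → XC g a h b t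
          (m (Sum.elim (fun y => (y.1, some y.2)) (fun l => (l.succ, none)) x : Fin (k + 1) × Option (VI g a s)).1)
          (Sum.elim (fun y => (y.1, some y.2)) (fun l => (l.succ, none)) x : Fin (k + 1) × Option (VI g a s)).2 ∈ W₂ := by
        rintro (⟨l, y | i⟩ | l') h2
        · have h3 : num g a b I m (Sum.inl (l, Sum.inl y)) = -(f (l, Sum.inl y) *
              ((ev (m l : ℝ) (vs g a h b (Sum.inl y)) : ℝ) : ℂ)) := by
            show I y.1 y.2 (m l) = _
            have h4 := ht₀ (m l : ℝ) (by have := hmb l; linarith [le_abs_self t₀]) y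
            push_cast at h4 ⊢
            rw [h4]
            show -_ = -((((fct g (a y.1) y.2 (m l) : ℝ) : ℂ)) * ((ev (m l : ℝ) (Gs (h y.1) (ex g (a y.1) y.2)) : ℝ) : ℂ))
            unfold fct Gs
            push_cast
            ring
          exact mem_of_fct (hfK _ (Finset.mem_image_of_mem _ (Finset.mem_univ _))) (hf0 _) h2 h3
        · have h3 : ((ev (m l : ℝ) (vs g a h b (Sum.inr i)) : ℝ) : ℂ) = num g a b I m (Sum.inl (l, Sum.inr i)) := by
            show ((ev (m l : ℝ) (lgs (b i)) : ℝ) : ℂ) = ((Real.log (1 + b i / m l) : ℝ) : ℂ)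
            rw [ev_lgs]
            have h5 : |(b i : ℝ)| ≤ ∑ i, |(b i : ℝ)| := Finset.single_le_sum (f := fun i => |(b i : ℝ)|) (fun _ _ => abs_nonneg _) (Finset.mem_univ i)
            have h6 := hmb l
            linarith [abs_nonneg t₀]
          show ((ev (m l : ℝ) (vs g a h b (Sum.inr i)) : ℝ) : ℂ) ∈ W₂
          rw [h3]
          exact h2
        · show ((Real.log (m l'.succ / t) : ℝ) : ℂ) ∈ W₂
          have h3 : ((Real.log (m l'.succ / t) : ℝ) : ℂ) = ((Real.log (m l'.succ / m 0) : ℝ) : ℂ) + ((Real.log (m 0 / t) : ℝ) : ℂ) := by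
            rw [← Complex.ofReal_add]
            congr 1
            have e1 : (0 : ℝ) < m l'.succ := by exact_mod_cast hmpos _
            have e2 : (0 : ℝ) < m 0 := by exact_mod_cast hmpos _
            have e3 : (0 : ℝ) < t := by exact_mod_cast ht
            rw [Real.log_div e1.ne' e3.ne', Real.log_div e1.ne' e2.ne', Real.log_div e2.ne' e3.ne']
            ring
          rw [h3]
          exact Submodule.add_mem _ h2 hL
      intro o
      rw [pow_one]
      rcases o with _ | x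
      · exact hL
      · exact hX (φ x) (hnum x))
  have hc2 : e + 1 - (1 + r) = e - r := by omega
  rw [← hc2]
  exact ⟨σ, hσ, lib_restrict hKK' hLI⟩

end Pool.Agent.P8H40.SE
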