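import Pool.Agent.P8H40.SE.Clu
import Pool.Agent.P8H40.SE.CovG

/-!
# Relations over arbitrary constants: at most `r + 1` clusters, lists of numbers with denominators
-/

set_option autoImplicit false

open Module

namespace Pool.Agent.P8H40.SE

open Pool.Agent.Y124.TD Pool.Agent.Y124.TG Pool.Agent.Y120.GH Pool.Agent.Y124.TL

/-- powers of spans -/
lemma pow_le_of_span {F K : IntermediateField ℚ ℂ} (hFK : F ≤ K) {S : Set ℂ} {W : Submodule K ℂ} (hS : ∀ x ∈ S, x ∈ W) (e : ℕ) :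
    ∀ {x : ℂ}, x ∈ (Submodule.span F S) ^ e → x ∈ W ^ e := by
  induction e with
  | zero =>
    intro x hx
    rw [pow_zero] at hx ⊢
    obtain ⟨y, rfl⟩ := Submodule.mem_one.1 hx
    exact Submodule.mem_one.2 ⟨⟨y, hFK y.2⟩, rfl⟩
  | succ e ih =>
    intro x hx
    rw [pow_succ] at hx ⊢
    refine Submodule.mul_induction_on hx (fun a ha b hb => Submodule.mul_mem_mul (ih ha) (mem_of_le_span hFK hS hb))
      (fun a b ha hb => Submodule.add_mem _ ha hb)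

/-- **The clash** for general lists of numbers. -/
theorem clash_den {r₀ : ℕ} {T : Polynomial ℤ} {A : Fin r₀ → Fin r₀ → Polynomial ℤ} {h : Fin r₀ → PowerSeries ℚ} (hF : GF T A h)
    {V : Type} [Fintype V] (T₀ : V → Fin r₀) (hT : AlgebraicIndependent (Polynomial ℚ) (fun v => h (T₀ v))) {n : ℕ} (hn : 0 < n)
    (Y : ℕ → V → ℂ) (m₀ : ℕ) (hY : ∀ m : ℕ, m₀ ≤ m → ∀ v, ∃ ρ : ℂ, (∃ q : ℚ, ρ ^ n = q) ∧ hv h (m : ℝ) (T₀ v) = ρ * Y m v)
    (σ : Type) [Fintype σ] (hσ : Fintype.card σ = Fintype.card V + 1) (en : ℕ) :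
    ∃ R : ℕ, ∀ r δ D : ℕ, ∃ (c : ℝ) (M₀ : ℕ), 0 < c ∧ ∀ M : ℕ, M₀ ≤ M → ∀ θ : Fin r → ℂ, ∀ m : Fin (r + 2) → ℕ,
      (∀ l, M ≤ m l ∧ (m l : ℝ) ≤ M + (M : ℝ) ^ c) → (∀ l l', l ≠ l' → (R : ℤ) ≤ |(m l : ℤ) - m l'|) →
      ∀ F : Fin (r + 2) → IntermediateField ℚ ℂ, (∀ l, FiniteDimensional ℚ (F l) ∧ finrank ℚ (F l) ≤ D) →
      ∀ w : Fin (r + 2) → σ → ℂ, (∀ l, ∃ γ : ℂ, γ ≠ 0 ∧ γ ∈ Submodule.span (F l) (insert 1 (Set.range (w l) ∪ Set.range θ)) ^ en ∧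
        ∀ o, γ * wl Y (m l) o ∈ Submodule.span (F l) (insert 1 (Set.range (w l) ∪ Set.range θ)) ^ en) →
      ∀ P : ∀ l, MvPolynomial (Fin r ⊕ σ) (F l), (∀ l x, (P l).degreeOf x ≤ δ) →
        (∀ l, MvPolynomial.aeval (Sum.elim θ (w l)) (P l) = 0) → ∃ l, subst θ (P l) = 0 := by
  classical
  obtain ⟨R, hR⟩ := base_window hF T₀ hT
  refine ⟨R, fun r δ D => ?_⟩
  set k := r + 2 with hk
  set d := Fintype.card V with hd
  set D' := D ^ k * n ^ (k * d) with hD'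
  obtain ⟨c', hc'⟩ := gr_groups δ (δ * r) (d + 1) k D' (0 + r)
  obtain ⟨N, hN⟩ := gr_li' c' (0 + r + k * (d + 1 - 1) + 1) (k * (d + 1)) (k * (en + 1)) (by
    rw [hk, Nat.add_sub_cancel]
    nlinarith)
  obtain ⟨c, M₁, hc, hbase⟩ := hR k N
  refine ⟨c, M₁ + m₀ + 1, hc, fun M hM θ m hm hsep F hFd w hw P hP h0 => ?_⟩
  by_contra hcon
  push Not at hcon
  obtain ⟨t, ht, hLI⟩ := hbase M (by omega) m hm hsep
  have hmpos : ∀ l, 0 < m l := fun l => by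
    have := (hm l).1
    omega
  -- the field
  choose ρ hρq hρ using fun x : Fin k × V => hY (m x.1) (by have := (hm x.1).1; omega) x.2
  obtain ⟨K₁, hFK, hfin₁, hrk₁⟩ := sup_field k F hFd
  obtain ⟨K, hK₁K, hfin, hrk, hρK⟩ := ext_field hn K₁ (Finset.univ.image ρ) (by
    intro x hx
    obtain ⟨y, -, rfl⟩ := Finset.mem_image.1 hx
    exact hρq y)
  have hcard : (Finset.univ.image ρ).card ≤ k * d := by
    refine Finset.card_image_le.trans ?_
    rw [Finset.card_univ, Fintype.card_prod, Fintype.card_fin]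
  have hrk' : finrank ℚ K ≤ D' := hrk.trans (Nat.mul_le_mul hrk₁ (Nat.pow_le_pow_right hn hcard))
  have h10 : (1 : ℂ) ∈ (1 : Submodule K ℂ) := Submodule.one_le.1 le_rfl
  obtain ⟨W₀, hW₀, hθW, hG₀⟩ := gr_fam D' r 0 (1 : Submodule K ℂ) h10 (gr_one hrk') θ
  have h1W : (1 : ℂ) ∈ W₀ := hW₀ h10
  -- the relations
  let e : Fin (d + 1) ≃ σ := (Fintype.equivFinOfCardEq hσ).symm
  let us : (Fin (d + 1) → Fin (δ + 1)) → (σ →₀ ℕ) := fun s => Finsupp.equivFunOnFinite.symm fun x => (s (e.symm x) : ℕ)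
  have hus : Function.Injective us := by
    intro s s' hss
    funext i
    have h5 := DFunLike.congr_fun hss (e i)
    have h6 : (s (e.symm (e i)) : ℕ) = (s' (e.symm (e i)) : ℕ) := h5
    rw [Equiv.symm_apply_apply] at h6
    exact Fin.ext h6
  have hsurj : ∀ l (u : σ →₀ ℕ), (subst θ (P l)).coeff u ≠ 0 → ∃ s, us s = u := by
    intro l u hu
    refine ⟨fun i => ⟨u (e i), Nat.lt_succ_of_le (subst_degree θ (P l) (hP l) hu _)⟩, ?_⟩
    ext x
    show (u (e (e.symm x)) : ℕ) = u x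
    rw [Equiv.apply_symm_apply]
  obtain ⟨W₁, hW₁, hYW, hG₁⟩ := hc' K W₀ h1W hG₀ (fun l i => w l (e i)) (fun l s => (subst θ (P l)).coeff (us s))
    (fun l s => subst_mem ((hFK l).trans hK₁K) θ (P l) (hP l) h1W hθW _) (fun l => by
      obtain ⟨u, hu⟩ := MvPolynomial.ne_zero_iff.1 (hcon l)
      obtain ⟨s, rfl⟩ := hsurj l u hu
      exact ⟨s, hu⟩) (fun l => by
      have h5 := h0 l
      rw [← subst_eval, MvPolynomial.eval_eq'] at h5
      rw [← h5, eq_comm]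
      have hsub : (subst θ (P l)).support ⊆ Finset.univ.image us := by
        intro u hu
        obtain ⟨s, hs⟩ := hsurj l u (MvPolynomial.mem_support_iff.1 hu)
        exact Finset.mem_image.2 ⟨s, Finset.mem_univ _, hs⟩
      rw [Finset.sum_subset hsub, Finset.sum_image fun s _ s' _ hss => hus hss]
      · refine Finset.sum_congr rfl fun s _ => ?_
        congr 1
        rw [← Equiv.prod_comp e]
        refine Finset.prod_congr rfl fun i _ => ?_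
        show w l (e i) ^ (s (e.symm (e i)) : ℕ) = _
        rw [Equiv.symm_apply_apply]
      · intro u _ hu
        rw [MvPolynomial.notMem_support_iff.1 hu, zero_mul])
  have h11 : (1 : ℂ) ∈ W₁ := hW₁ h1W
  have hG₂ := gr_trans h11 hG₁ ((Real.log t : ℝ) : ℂ)
  set W₂ := W₁ ⊔ Submodule.span K {((Real.log t : ℝ) : ℂ)} with hW₂
  have h12 : (1 : ℂ) ∈ W₂ := Submodule.mem_sup_left h11
  choose γ hγ0 hγ1 hγ using hw
  have hgen : ∀ l, ∀ z ∈ insert (1 : ℂ) (Set.range (w l) ∪ Set.range θ), z ∈ W₂ := by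
    intro l z hz
    rcases Set.mem_insert_iff.1 hz with rfl | ⟨x, rfl⟩ | ⟨i, rfl⟩
    · exact h12
    · have h5 := hYW l (e.symm x)
      simp only [Equiv.apply_symm_apply] at h5
      exact Submodule.mem_sup_left h5
    · exact Submodule.mem_sup_left (hW₁ (hθW i))
  have hγW : ∀ l, γ l ∈ W₂ ^ en := fun l => pow_le_of_span ((hFK l).trans hK₁K) (hgen l) en (hγ1 l)
  have hγY : ∀ l o, γ l * wl Y (m l) o ∈ W₂ ^ en := fun l o => pow_le_of_span ((hFK l).trans hK₁K) (hgen l) en (hγ l o)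
  have hγW' : ∀ l, γ l ∈ W₂ ^ (en + 1) := fun l => pow_mem_mono h12 (Nat.le_succ _) (hγW l)
  have hprodW : (∏ l, γ l) ∈ W₂ ^ (k * (en + 1)) := by
    have h5 := mem_pow_prod (W := W₂) Finset.univ (fun _ : Fin k => en + 1) γ fun l _ => hγW' l
    rwa [Finset.sum_const, Finset.card_univ, Fintype.card_fin, smul_eq_mul] at h5
  refine hN K W₂ h12 hG₂ (Fin k × Option V) (by rw [Fintype.card_prod, Fintype.card_option, Fintype.card_fin]) _ (∏ l, γ l)
    (Finset.prod_ne_zero_iff.2 fun l _ => hγ0 l) hprodW (fun x => ?_) hLI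
  obtain ⟨l, o⟩ := x
  -- one factor
  have hone : γ l * XV h T₀ t (m l) o ∈ W₂ ^ (en + 1) := by
    rcases o with _ | v
    · show γ l * ((Real.log (m l / t) : ℝ) : ℂ) ∈ W₂ ^ (en + 1)
      have e1 : (0 : ℝ) < m l := by exact_mod_cast hmpos l
      have e2 : (0 : ℝ) < t := by exact_mod_cast ht
      rw [Real.log_div e1.ne' e2.ne', Complex.ofReal_sub, mul_sub]
      refine Submodule.sub_mem _ (pow_mem_mono h12 (Nat.le_succ _) (hγY l none)) (pow_mem_add (hγW l) ?_)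
      rw [pow_one]
      exact Submodule.mem_sup_right (Submodule.mem_span_singleton_self _)
    · show γ l * hv h (m l : ℝ) (T₀ v) ∈ W₂ ^ (en + 1)
      rw [hρ (l, v)]
      have h6 : γ l * (ρ (l, v) * Y (m l) v) =
          ((⟨ρ (l, v), hρK _ (Finset.mem_image_of_mem _ (Finset.mem_univ _))⟩ : K) : K) • (γ l * Y (m l) v) := by
        rw [Algebra.smul_def]
        show γ l * (ρ (l, v) * Y (m l) v) = ρ (l, v) * (γ l * Y (m l) v)
        ring
      rw [h6]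
      exact Submodule.smul_mem _ _ (pow_mem_mono h12 (Nat.le_succ _) (hγY l (some v)))
  have h7 : (∏ l, γ l) * XV h T₀ t (m l) o = (∏ l' ∈ Finset.univ.erase l, γ l') * (γ l * XV h T₀ t (m l) o) := by
    rw [← Finset.mul_prod_erase Finset.univ γ (Finset.mem_univ l)]
    ring
  show (∏ l, γ l) * XV h T₀ t (m l) o ∈ W₂ ^ (k * (en + 1))
  rw [h7]
  have h8 := mem_pow_prod (W := W₂) (Finset.univ.erase l) (fun _ : Fin k => en + 1) γ fun l _ => hγW' l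
  have h9 := pow_mem_add h8 hone
  rw [Finset.sum_const, Finset.card_erase_of_mem (Finset.mem_univ l), Finset.card_univ, Fintype.card_fin, smul_eq_mul] at h9
  have h10' : (k - 1) * (en + 1) + (en + 1) = k * (en + 1) := by
    obtain ⟨k', hk'⟩ : ∃ k', k = k' + 1 := ⟨k - 1, by omega⟩
    rw [hk', Nat.add_sub_cancel]
    ring
  rwa [h10'] at h9

/-- **At most `r + 1` clusters**, general lists of numbers -/
theorem clusters_den {r₀ : ℕ} {T : Polynomial ℤ} {A : Fin r₀ → Fin r₀ → Polynomial ℤ} {h : Fin r₀ → PowerSeries ℚ} (hF : GF T A h)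
    {V : Type} [Fintype V] (T₀ : V → Fin r₀) (hT : AlgebraicIndependent (Polynomial ℚ) (fun v => h (T₀ v))) {n : ℕ} (hn : 0 < n)
    (Y : ℕ → V → ℂ) (m₀ : ℕ) (hY : ∀ m : ℕ, m₀ ≤ m → ∀ v, ∃ ρ : ℂ, (∃ q : ℚ, ρ ^ n = q) ∧ hv h (m : ℝ) (T₀ v) = ρ * Y m v)
    (σ : Type) [Fintype σ] (hσ : Fintype.card σ = Fintype.card V + 1) (en : ℕ) :
    ∃ G : ℕ, ∀ r δ D : ℕ, ∃ (c : ℝ) (M₀ : ℕ), 0 < c ∧ ∀ M : ℕ, M₀ ≤ M → ∀ θ : Fin r → ℂ, ∃ S : Finset ℕ, S.card ≤ r + 1 ∧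
      ∀ m : ℕ, M ≤ m → (m : ℝ) ≤ M + (M : ℝ) ^ c → (∀ x ∈ S, (G : ℤ) ≤ |(m : ℤ) - x|) →
        ∀ (K : IntermediateField ℚ ℂ) [FiniteDimensional ℚ K], finrank ℚ K ≤ D →
        ∀ w : σ → ℂ, (∃ γ : ℂ, γ ≠ 0 ∧ γ ∈ Submodule.span K (insert 1 (Set.range w ∪ Set.range θ)) ^ en ∧
          ∀ o, γ * wl Y m o ∈ Submodule.span K (insert 1 (Set.range w ∪ Set.range θ)) ^ en) →
          ∀ P : MvPolynomial (Fin r ⊕ σ) K, (∀ x, P.degreeOf x ≤ δ) →
            MvPolynomial.aeval (Sum.elim θ w) P = 0 → subst θ P = 0 := by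
  classical
  obtain ⟨R, hR⟩ := clash_den hF T₀ hT hn Y m₀ hY σ hσ en
  refine ⟨R + 1, fun r δ D => ?_⟩
  obtain ⟨c, M₀, hc, hmain⟩ := hR r δ D
  refine ⟨c, M₀, hc, fun M hM θ => ?_⟩
  -- the exceptional integers
  let Exc : ℕ → Prop := fun m => M ≤ m ∧ (m : ℝ) ≤ M + (M : ℝ) ^ c ∧ ∃ (K : IntermediateField ℚ ℂ) (_ : FiniteDimensional ℚ K)
    (w : σ → ℂ) (_ : ∃ γ : ℂ, γ ≠ 0 ∧ γ ∈ Submodule.span K (insert 1 (Set.range w ∪ Set.range θ)) ^ en ∧
          ∀ o, γ * wl Y m o ∈ Submodule.span K (insert 1 (Set.range w ∪ Set.range θ)) ^ en),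
    finrank ℚ K ≤ D ∧ ∃ P : MvPolynomial (Fin r ⊕ σ) K, (∀ x, P.degreeOf x ≤ δ) ∧
      MvPolynomial.aeval (Sum.elim θ w) P = 0 ∧ subst θ P ≠ 0
  let Q : ℕ → Prop := fun j => ∃ S : Finset ℕ, S.card = j ∧ (∀ x ∈ S, Exc x) ∧
    ∀ x ∈ S, ∀ y ∈ S, x ≠ y → ((R + 1 : ℕ) : ℤ) ≤ |(x : ℤ) - y|
  have hQ0 : Q 0 := ⟨∅, rfl, fun x hx => absurd hx (Finset.notMem_empty _), fun x hx => absurd hx (Finset.notMem_empty _)⟩
  have hQk : ¬ Q (r + 2) := by
    rintro ⟨S, hS, hE, hsep⟩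
    let g : Fin (r + 2) → ℕ := fun i => S.orderEmbOfFin hS i
    have hgS : ∀ i, g i ∈ S := fun i => S.orderEmbOfFin_mem hS i
    have hginj : Function.Injective g := (S.orderEmbOfFin hS).injective
    choose hg1 hg2 K hKf w hw hKD P hP h0 hne using fun i => hE (g i) (hgS i)
    obtain ⟨l, hl⟩ := hmain M hM θ g (fun l => ⟨hg1 l, hg2 l⟩) (fun l l' hll => by
      have h5 := hsep (g l) (hgS l) (g l') (hgS l') (hginj.ne hll)
      push_cast at h5
      linarith) K (fun l => ⟨hKf l, hKD l⟩) w hw P hP h0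
    exact hne l hl
  obtain ⟨j, hj, hj1, hjr⟩ : ∃ j, Q j ∧ ¬ Q (j + 1) ∧ j ≤ r + 1 := by
    have hex : ∃ j, ¬ Q j := ⟨r + 2, hQk⟩
    have h5 := Nat.find_spec hex
    have h6 : Nat.find hex ≤ r + 2 := Nat.find_min' hex hQk
    have h7 : Nat.find hex ≠ 0 := fun h8 => by
      rw [h8] at h5
      exact h5 hQ0
    obtain ⟨j, hj⟩ := Nat.exists_eq_succ_of_ne_zero h7
    refine ⟨j, ?_, ?_, by omega⟩
    · by_contra h8
      have h9 := Nat.find_min' hex h8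
      omega
    · rw [← Nat.succ_eq_add_one, ← hj]
      exact h5
  obtain ⟨S, hS, hE, hsep⟩ := hj
  refine ⟨S, by omega, fun m hm1 hm2 hmS K _ hK w hw P hP h0 => ?_⟩
  by_contra hne
  apply hj1
  have hmS' : m ∉ S := fun h => by
    have h5 := hmS m h
    rw [sub_self, abs_zero] at h5
    push_cast at h5
    omega
  refine ⟨insert m S, by rw [Finset.card_insert_of_notMem hmS', hS], fun x hx => ?_, fun x hx y hy hxy => ?_⟩
  · rcases Finset.mem_insert.1 hx with rfl | hx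
    · exact ⟨hm1, hm2, K, inferInstance, w, hw, hK, P, hP, h0, hne⟩
    · exact hE x hx
  · rcases Finset.mem_insert.1 hx with hx' | hx' <;> rcases Finset.mem_insert.1 hy with hy' | hy'
    · exact absurd (hx'.trans hy'.symm) hxy
    · rw [hx']
      exact hmS y hy'
    · rw [hy', abs_sub_comm]
      exact hmS x hx'
    · exact hsep x hx' y hy' hxy

end Pool.Agent.P8H40.SE
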