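import Pool.Agent.Y124.TL.Fi

/-!
# The engine: independence of numbers from which the values of a family of G-functions can be recovered
-/

set_option autoImplicit false

open Module Finset

namespace Pool.Agent.P8H40.SE

open Pool.Agent.Y124.TD Pool.Agent.Y124.TG Pool.Agent.Y120.GH Pool.Agent.Y124.TL

/-- restriction of the field of coefficients -/
lemma lib_restrict {K K' : IntermediateField ℚ ℂ} (hK : K ≤ K') {δ e : ℕ} {z : Fin e → ℂ} (h : LIb K' δ z) : LIb K δ z := by
  rw [LIb, Fintype.linearIndependent_iff] at h ⊢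
  intro g hg s
  have h1 := h (fun s => IntermediateField.inclusion hK (g s)) (by
    rw [← hg]
    rfl) s
  have h2 : ((IntermediateField.inclusion hK (g s) : K') : ℂ) = 0 := by rw [h1]; rfl
  rw [IntermediateField.coe_inclusion] at h2
  exact_mod_cast h2

/-- adding radicals to a number field -/
lemma ext_field {n : ℕ} (hn : 0 < n) (K : IntermediateField ℚ ℂ) [FiniteDimensional ℚ K] (S : Finset ℂ)
    (hS : ∀ x ∈ S, ∃ q : ℚ, x ^ n = q) : ∃ K' : IntermediateField ℚ ℂ, K ≤ K' ∧ FiniteDimensional ℚ K' ∧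
      finrank ℚ K' ≤ finrank ℚ K * n ^ S.card ∧ ∀ x ∈ S, x ∈ K' := by
  classical
  induction S using Finset.induction_on with
  | empty => exact ⟨K, le_rfl, inferInstance, by simp, fun x hx => absurd hx (Finset.notMem_empty _)⟩
  | insert x S hx ih =>
    obtain ⟨K', h1, h2, h3, h4⟩ := ih fun y hy => hS y (Finset.mem_insert_of_mem hy)
    obtain ⟨q, hq⟩ := hS x (Finset.mem_insert_self _ _)
    set P : Polynomial ℚ := Polynomial.X ^ n - Polynomial.C q with hP
    have hPm : P.Monic := Polynomial.monic_X_pow_sub_C q hn.ne'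
    have hPx : Polynomial.aeval x P = 0 := by
      rw [hP, map_sub, map_pow, Polynomial.aeval_X, Polynomial.aeval_C, hq]
      simp
    have hint : IsIntegral ℚ x := ⟨P, hPm, by rw [← Polynomial.aeval_def]; exact hPx⟩
    have hdeg : (minpoly ℚ x).natDegree ≤ n := by
      have h5 := Polynomial.natDegree_le_of_dvd (minpoly.dvd ℚ x hPx) hPm.ne_zero
      rwa [hP, Polynomial.natDegree_X_pow_sub_C] at h5
    have h6 : finrank ℚ (IntermediateField.adjoin ℚ {x}) ≤ n := by
      rw [IntermediateField.adjoin.finrank hint]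
      exact hdeg
    have : FiniteDimensional ℚ (IntermediateField.adjoin ℚ {x}) := IntermediateField.adjoin.finiteDimensional hint
    refine ⟨K' ⊔ IntermediateField.adjoin ℚ {x}, h1.trans le_sup_left, IntermediateField.finiteDimensional_sup _ _, ?_, ?_⟩
    · rw [Finset.card_insert_of_notMem hx, pow_succ, ← mul_assoc]
      exact (IntermediateField.finrank_sup_le _ _).trans (Nat.mul_le_mul h3 h6)
    · intro y hy
      rcases Finset.mem_insert.1 hy with rfl | hy
      · exact (le_sup_right : _ ≤ K' ⊔ _) (IntermediateField.mem_adjoin_simple_self ℚ y)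
      · exact (le_sup_left : K' ≤ _) (h4 y hy)

/-- the values at `1/m` and `log (m/t)` -/
noncomputable def XV {r : ℕ} {V : Type} (h : Fin r → PowerSeries ℚ) (T : V → Fin r) (t m : ℕ) (o : Option V) : ℂ :=
  o.elim ((Real.log (m / t) : ℝ) : ℂ) fun v => hv h (m : ℝ) (T v)

/-- **The engine** -/
theorem engine {r : ℕ} {T : Polynomial ℤ} {A : Fin r → Fin r → Polynomial ℤ} {h : Fin r → PowerSeries ℚ} (hF : GF T A h)
    {V : Type} [Fintype V] (T₀ : V → Fin r) (hT : AlgebraicIndependent (Polynomial ℚ) (fun v => h (T₀ v))) :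
    ∃ R : ℕ, ∀ k δ D s mm C rr : ℕ, ∃ (c : ℝ) (M₀ : ℕ), 0 < c ∧ ∀ M : ℕ, M₀ ≤ M → ∀ m : Fin k → ℕ,
      (∀ l, M ≤ m l ∧ (m l : ℝ) ≤ M + (M : ℝ) ^ c) → (∀ l l', l ≠ l' → (R : ℤ) ≤ |(m l : ℤ) - m l'|) →
      ∃ t : ℕ, 0 < t ∧ ∀ (K : IntermediateField ℚ ℂ) [FiniteDimensional ℚ K], finrank ℚ K ≤ D →
        ∀ (ι : Type) [Fintype ι], Fintype.card ι = C → ∀ z : ι → ℂ,
        ∀ (J : Type) [Fintype J], Fintype.card J = rr → ∀ φ : J → Fin k × Option V, Function.Injective φ →
        ∀ extra : Fin s → ℂ,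
          (∀ W₂ : Submodule K ℂ, (1 : ℂ) ∈ W₂ → (∀ x, z x ∈ W₂) → (∀ i, extra i ∈ W₂) →
            ∀ j, XV h T₀ t (m (φ j).1) (φ j).2 ∈ W₂ ^ mm) →
          ∃ σ : Fin (rr - s) → ι, Function.Injective σ ∧ LIb K δ (fun i => z (σ i)) := by
  classical
  obtain ⟨R, hbase⟩ := base hF
  refine ⟨R, fun k δ D s mm C rr => ?_⟩
  obtain ⟨N, hN⟩ := Pool.Agent.Y124.TH.core_abs rr δ D s mm C (fun c _ => c)
  set d := Fintype.card V with hd
  let ev : V ≃ Fin d := Fintype.equivFin V
  have hT' : AlgebraicIndependent (Polynomial ℚ) (fun i : Fin d => h ((fun i => T₀ (ev.symm i)) i)) :=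
    hT.comp ev.symm ev.symm.injective
  obtain ⟨E, hE⟩ := hbase (fun i => T₀ (ev.symm i)) hT' N k
  obtain ⟨c, M₀, hc, hw⟩ := Pool.Agent.Y124.TD.window E R
  refine ⟨c, M₀ + 1, hc, fun M hM m hm hsep => ?_⟩
  have hle : ∀ j, m j ≤ M + ⌊(M : ℝ) ^ c⌋₊ := by
    intro j
    have h1 := (hm j).2
    have h2 : ((m j - M : ℕ) : ℝ) ≤ (M : ℝ) ^ c := by
      rw [Nat.cast_sub (hm j).1]
      linarith
    have h3 := Nat.le_floor h2
    have := (hm j).1
    omega
  have hMw := hw M (by omega)
  set H := ⌊(M : ℝ) ^ c⌋₊ with hH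
  set t := M + (H + R) with ht
  have hTg : ∀ l, t - (t - m l) = m l := fun l => by
    have := hle l
    omega
  have ht0 : 0 < t := by omega
  refine ⟨t, ht0, fun K _ hK ι _ hι z J _ hJ φ hφ extra hex => ?_⟩
  have hli := hE (H + R) t (hMw.trans (Nat.le_add_right _ _)) (fun l => t - m l) ⟨fun l => by
    have h5 := hle l
    show R ≤ t - m l
    omega, fun l l' hll => by
    have h4 := hsep l l' hll
    have h5 := hle l
    have h6 := hle l'
    show t - m l + R ≤ t - m l' ∨ t - m l' + R ≤ t - m l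
    rcases le_total (m l) (m l') with h7 | h7
    · right
      rw [abs_of_nonpos (by omega)] at h4
      omega
    · left
      rw [abs_of_nonneg (by omega)] at h4
      omega⟩ (fun l => by
    have := (hm l).1
    show t - m l ≤ H + R
    omega)
  refine hN K hK ι hι z J hJ (fun j => XV h T₀ t (m (φ j).1) (φ j).2) (fun c e W₁ h1 hzW hG => ?_) ?_
  · obtain ⟨W₂, hW, hx, hG'⟩ := gr_fam c s e W₁ h1 hG extra
    have h10 : (1 : ℂ) ∈ W₂ := hW h1
    refine ⟨W₂, 1, h10, hG', one_ne_zero, one_mem_pow h10 mm, fun j => ?_⟩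
    rw [one_mul]
    exact hex W₂ h10 (fun x => hW (hzW x)) hx j
  · -- the monomials
    let f : Fin k × Option V → Fin k × Option (Fin d) := fun x => (x.1, x.2.map ev)
    have hf : Function.Injective f := by
      rintro ⟨l, o⟩ ⟨l', o'⟩ h1
      have h2 : l = l' := congrArg Prod.fst h1
      have h3 : o.map ev = o'.map ev := congrArg Prod.snd h1
      rw [h2, Option.map_injective ev.injective h3]
    have hXV : ∀ x : Fin k × Option V, XV h T₀ t (m x.1) x.2 = xv h (fun i => T₀ (ev.symm i)) t (t - m (f x).1) (f x).2 := by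
      rintro ⟨l, o⟩
      rcases o with _ | v
      · show ((Real.log ((m l : ℝ) / t) : ℝ) : ℂ) = ((Real.log (1 - ((t - m l : ℕ) : ℝ) / t) : ℝ) : ℂ)
        have h2 : (t : ℝ) ≠ 0 := by exact_mod_cast ht0.ne'
        have h3 : m l ≤ t := by
          have := hle l
          omega
        rw [Nat.cast_sub h3]
        congr 2
        field_simp
        ring
      · show hv h (m l : ℝ) (T₀ v) = hv h ((t - (t - m l) : ℕ) : ℝ) (T₀ (ev.symm (ev v)))
        rw [hTg, Equiv.symm_apply_apply]
    let ψ : J → Fin k × Option (Fin d) := fun j => f (φ j)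
    have hψ : Function.Injective ψ := hf.comp hφ
    have hE' : Function.Injective (fun s' : J → Fin (N + 1) => Function.extend ψ s' (fun _ => (0 : Fin (N + 1)))) := by
      intro s₁ s₂ h12
      funext j
      have h3 := congrFun h12 (ψ j)
      simpa only [hψ.extend_apply] using h3
    have h5 := hli.comp _ hE'
    convert h5 using 1
    funext s'
    show ∏ j, XV h T₀ t (m (φ j).1) (φ j).2 ^ (s' j : ℕ) = ∏ i, xv h (fun i => T₀ (ev.symm i)) t (t - m i.1) i.2 ^
      ((Function.extend ψ s' (fun _ => (0 : Fin (N + 1))) i : Fin (N + 1)) : ℕ)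
    rw [← Finset.prod_subset (Finset.subset_univ (Finset.univ.image ψ))]
    · rw [Finset.prod_image fun i _ j _ hij => hψ hij]
      refine Finset.prod_congr rfl fun j _ => ?_
      rw [hψ.extend_apply, hXV]
    · intro i _ hi
      rw [Function.extend_apply']
      · simp
      · rintro ⟨j, rfl⟩
        exact hi (Finset.mem_image_of_mem _ (Finset.mem_univ _))

/-- the full family is independent when nothing is lost -/
lemma mv_full {K : IntermediateField ℚ ℂ} {δ e : ℕ} {ι : Type} [Fintype ι] (z : ι → ℂ) (he : Fintype.card ι = e) (σ : Fin e → ι)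
    (hσ : Function.Injective σ) (h : LIb K δ (fun i => z (σ i))) (P : MvPolynomial ι K) (hP : ∀ i, P.degreeOf i ≤ δ)
    (h0 : MvPolynomial.aeval z P = 0) : P = 0 := by
  classical
  have hb : Function.Bijective σ := (Fintype.bijective_iff_injective_and_card σ).2 ⟨hσ, by rw [Fintype.card_fin, he]⟩
  let τ : ι ≃ Fin e := (Equiv.ofBijective σ hb).symm
  have hτ : ∀ i, σ (τ i) = i := fun i => (Equiv.ofBijective σ hb).apply_symm_apply i
  have h1 := h.mv (MvPolynomial.rename τ P) (fun i => by
    obtain ⟨j, rfl⟩ := τ.surjective i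
    rw [MvPolynomial.degreeOf_rename_of_injective τ.injective]
    exact hP j) (by
    rw [MvPolynomial.aeval_rename, ← h0]
    congr 2
    funext i
    show z (σ (τ i)) = z i
    rw [hτ])
  exact MvPolynomial.rename_injective τ τ.injective (by rw [h1, map_zero])

end Pool.Agent.P8H40.SE
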