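import Pool.Agent.P8H40.SE.Fam
import Pool.Agent.P8H40.SE.Eng

/-!
# Integrals on abelian covers of the line at all tuples of nearby integers
-/

set_option autoImplicit false

open PowerSeries Module

namespace Pool.Agent.P8H40.SE

open Pool.Agent.Y113

/-- the equation of `h_κ` -/
def Ode {p : ℕ} (g : Fin p → Polynomial ℤ) (a : Fin p → ℚ) (h : ℚ⟦X⟧) : Prop :=
  (∏ i, (revq (g i) : ℚ⟦X⟧)) * d⁄dX ℚ h = -(∑ i, C (a i) * ((Polynomial.derivative (revq (g i)) : Polynomial ℚ) : ℚ⟦X⟧) *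
        ∏ k ∈ Finset.univ.erase i, (revq (g k) : ℚ⟦X⟧)) * h

/-- the places of the values: the primitives and the logarithms -/
abbrev VI {p q : ℕ} (g : Fin p → Polynomial ℤ) (a : Fin q → Fin p → ℚ) (s : ℕ) : Type :=
  (Σ κ : Fin q, Fin (Nn g (a κ) - 1)) ⊕ Fin s

/-- the values at `1/m` and `log (m/t)` -/
noncomputable def XC {p q s : ℕ} (g : Fin p → Polynomial ℤ) (a : Fin q → Fin p → ℚ) (h : Fin q → ℚ⟦X⟧) (b : Fin s → ℤ) (t m : ℕ)
    (o : Option (VI g a s)) : ℂ :=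
  o.elim ((Real.log (m / t) : ℝ) : ℂ) fun v => ((ev (m : ℝ) (vs g a h b v) : ℝ) : ℂ)

/-- the engine for covers -/
theorem cover_engine (hKEY : S_KEY) (hSIM : S_SIM) (hPW : S_PW) (hPRI : S_PRI) (hGFD : S_GFD) {p q s : ℕ}
    (g : Fin p → Polynomial ℤ) (hg : Squarefree (∏ i, (g i).map (Int.castRingHom ℚ))) (hg1 : ∀ i, 0 < (g i).natDegree)
    (a : Fin q → Fin p → ℚ) (ha : ∀ κ i, 0 ≤ a κ i ∧ a κ i < 1) (hinj : Function.Injective a)
    (hA : ∀ κ, ∀ z : ℤ, ∑ i, a κ i * ((g i).natDegree : ℚ) ≠ z) (b : Fin s → ℤ) (hb : Function.Injective b) (hb0 : ∀ i, b i ≠ 0) :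
    ∃ h : Fin q → ℚ⟦X⟧, (∀ κ, coeff 0 (h κ) = 1 ∧ SDc (h κ) ∧ Ode g (a κ) (h κ)) ∧
      ∃ R : ℕ, ∀ k δ D s' mm C rr : ℕ, ∃ (c : ℝ) (M₀ : ℕ), 0 < c ∧ ∀ M : ℕ, M₀ ≤ M → ∀ m : Fin k → ℕ,
        (∀ l, M ≤ m l ∧ (m l : ℝ) ≤ M + (M : ℝ) ^ c) → (∀ l l', l ≠ l' → (R : ℤ) ≤ |(m l : ℤ) - m l'|) →
        ∃ t : ℕ, 0 < t ∧ ∀ (K : IntermediateField ℚ ℂ) [FiniteDimensional ℚ K], finrank ℚ K ≤ D →
          ∀ (ι : Type) [Fintype ι], Fintype.card ι = C → ∀ z : ι → ℂ,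
          ∀ (J : Type) [Fintype J], Fintype.card J = rr → ∀ φ : J → Fin k × Option (VI g a s), Function.Injective φ →
          ∀ extra : Fin s' → ℂ,
            (∀ W₂ : Submodule K ℂ, (1 : ℂ) ∈ W₂ → (∀ x, z x ∈ W₂) → (∀ i, extra i ∈ W₂) →
              ∀ j, XC g a h b t (m (φ j).1) (φ j).2 ∈ W₂ ^ mm) →
            ∃ σ : Fin (rr - s') → ι, Function.Injective σ ∧ Pool.Agent.Y124.TD.LIb K δ (fun i => z (σ i)) := by
  classical
  have hg0 : ∀ i, g i ≠ 0 := fun i hi => by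
    have := hg1 i
    rw [hi, Polynomial.natDegree_zero] at this
    exact lt_irrefl _ this
  choose h hi hh0 hhi hhS hhiS hode using fun κ => exists_h hPW g hg0 (a κ)
  refine ⟨h, fun κ => ⟨hh0 κ, hhS κ, hode κ⟩, ?_⟩
  obtain ⟨r, T, A, y, pl, hGF, hpl, hy⟩ := fam_gf hGFD hPRI g hg0 a hA h hi hhi hhS hhiS hode b
  have hind := pind hKEY hSIM g hg hg1 a ha hinj hA h hh0 hode b hb hb0
  have hind' : AlgebraicIndependent (Polynomial ℚ) (fun v => y (pl v)) := by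
    have h1 : (fun v => y (pl v)) = (Sum.elim
      (fun x : (Σ κ : Fin q, Fin (Nn g (a κ) - 1)) => Gs (h x.1) (ex g (a x.1) x.2)) (fun i => lgs (b i))) := by
      funext v
      exact hy v
    rw [h1]
    exact hind
  obtain ⟨R, hR⟩ := engine hGF pl hind'
  refine ⟨R, fun k δ D s' mm C rr => ?_⟩
  obtain ⟨c, M₀, hc, hM⟩ := hR k δ D s' mm C rr
  refine ⟨c, M₀, hc, fun M hMM m hm hsep => ?_⟩
  obtain ⟨t, ht, hmain⟩ := hM M hMM m hm hsep
  refine ⟨t, ht, fun K _ hK ι _ hι z J _ hJ φ hφ extra hex => ?_⟩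
  refine hmain K hK ι hι z J hJ φ hφ extra fun W₂ h1 h2 h3 j => ?_
  have h4 : XV y pl t (m (φ j).1) (φ j).2 = XC g a h b t (m (φ j).1) (φ j).2 := by
    rcases (φ j).2 with _ | v
    · rfl
    · show ((ev _ (y (pl v)) : ℝ) : ℂ) = ((ev _ (vs g a h b v) : ℝ) : ℂ)
      rw [hy v]
  rw [h4]
  exact hex W₂ h1 h2 h3 j

/-- the radicals -/
lemma exists_den {q p : ℕ} (a : Fin q → Fin p → ℚ) : ∃ n : ℕ, 0 < n ∧ ∀ κ i, ∃ z : ℤ, (n : ℚ) * a κ i = z := by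
  refine ⟨∏ κ, ∏ i, (a κ i).den, Nat.pos_of_ne_zero (Finset.prod_ne_zero_iff.2 fun κ _ =>
    Finset.prod_ne_zero_iff.2 fun i _ => (a κ i).den_nz), fun κ i => ?_⟩
  have h1 : (a κ i).den ∣ ∏ κ, ∏ i, (a κ i).den :=
    (Finset.dvd_prod_of_mem (fun i => (a κ i).den) (Finset.mem_univ i)).trans
      (Finset.dvd_prod_of_mem (fun κ => ∏ i, (a κ i).den) (Finset.mem_univ κ))
  obtain ⟨c, hc⟩ := h1
  refine ⟨c * (a κ i).num, ?_⟩
  rw [hc]
  have h3 : ((a κ i).den : ℚ) * a κ i = (a κ i).num := by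
    rw [mul_comm]
    exact Rat.mul_den_eq_num _
  push_cast
  rw [← h3]
  ring

/-- `(x^q)^n` for `n q` integral -/
lemma rpow_rad {n : ℕ} {e : ℚ} {z : ℤ} (he : (n : ℚ) * e = z) {x : ℝ} (hx : 0 < x) : (x ^ (e : ℝ)) ^ n = x ^ z := by
  rw [← Real.rpow_natCast, ← Real.rpow_mul hx.le, ← Real.rpow_intCast]
  congr 1
  have : ((n : ℚ) * e : ℚ) = z := he
  have h2 : ((n : ℝ) * (e : ℝ)) = (z : ℝ) := by exact_mod_cast congrArg (fun y : ℚ => (y : ℝ)) this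
  rw [mul_comm]
  exact h2

/-- the factor between the primitive and its expansion -/
noncomputable def fct {p : ℕ} (g : Fin p → Polynomial ℤ) (a : Fin p → ℚ) (j : ℕ) (m : ℕ) : ℝ :=
  (∏ i, ((g i).leadingCoeff : ℝ) ^ (-(a i : ℝ))) * (m : ℝ) ^ (-(ex g a j : ℝ))

lemma fct_ne {p : ℕ} (g : Fin p → Polynomial ℤ) (hlc : ∀ i, 0 < (g i).leadingCoeff) (a : Fin p → ℚ) (j : ℕ) {m : ℕ} (hm : 0 < m) :
    fct g a j m ≠ 0 := by
  have h1 : (0 : ℝ) < m := by exact_mod_cast hm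
  have h2 : ∀ i, (0 : ℝ) < (g i).leadingCoeff := fun i => by exact_mod_cast hlc i
  unfold fct
  exact (mul_pos (Finset.prod_pos fun i _ => Real.rpow_pos_of_pos (h2 i) _) (Real.rpow_pos_of_pos h1 _)).ne'

lemma fct_rad {p : ℕ} (g : Fin p → Polynomial ℤ) (hlc : ∀ i, 0 < (g i).leadingCoeff) (a : Fin p → ℚ) {n : ℕ}
    (hn : ∀ i, ∃ z : ℤ, (n : ℚ) * a i = z) (j : ℕ) {m : ℕ} (hm : 0 < m) : ∃ x : ℚ, ((fct g a j m : ℝ) : ℂ) ^ n = x := by
  have h1 : (0 : ℝ) < m := by exact_mod_cast hm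
  have h2 : ∀ i, (0 : ℝ) < (g i).leadingCoeff := fun i => by exact_mod_cast hlc i
  choose z hz using hn
  refine ⟨(∏ i, ((g i).leadingCoeff : ℚ) ^ (-(z i))) * (m : ℚ) ^ (-(∑ i, z i * (g i).natDegree - n * ((j : ℤ) + 1))), ?_⟩
  have h3 : fct g a j m ^ n = (∏ i, ((g i).leadingCoeff : ℝ) ^ (-(z i))) * (m : ℝ) ^ (-(∑ i, z i * (g i).natDegree - n * ((j : ℤ) + 1))) := by
    unfold fct
    rw [mul_pow, ← Finset.prod_pow]
    congr 1
    · refine Finset.prod_congr rfl fun i _ => ?_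
      have h4 := rpow_rad (n := n) (e := -(a i)) (z := -(z i)) (by rw [mul_neg, hz i]; push_cast; ring) (h2 i)
      rw [← h4]
      push_cast
      rfl
    · have h4 := rpow_rad (n := n) (e := -(ex g a j)) (z := -(∑ i, z i * (g i).natDegree - n * ((j : ℤ) + 1))) (by
        unfold ex
        push_cast
        rw [mul_neg, mul_sub, Finset.mul_sum]
        congr 2
        refine Finset.sum_congr rfl fun i _ => ?_
        rw [← mul_assoc, hz i]) h1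
      rw [← h4]
      push_cast
      rfl
  rw [← Complex.ofReal_pow, h3]
  push_cast
  rfl

/-- the values of the logarithms -/
lemma ev_lgs (b : ℤ) {t : ℝ} (ht : |(b : ℝ)| < t) : ev t (lgs b) = Real.log (1 + b / t) := by
  have ht0 : 0 < t := lt_of_le_of_lt (abs_nonneg _) ht
  have h1 : |(-(b : ℝ) / t)| < 1 := by
    rw [abs_div, abs_neg, abs_of_pos ht0, div_lt_one ht0]
    exact ht
  have h2 := Real.hasSum_pow_div_log_of_abs_lt_one h1
  have h3 : (1 : ℝ) - -(b : ℝ) / t = 1 + b / t := by ring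
  rw [h3] at h2
  unfold ev
  have h4 := h2.tsum_eq
  have h5 : HasSum (fun m : ℕ => ((coeff m (lgs b) : ℚ) : ℝ) * (1 / t) ^ m) (Real.log (1 + b / t)) := by
    rw [← hasSum_nat_add_iff' 1]
    have h6 : (Real.log (1 + b / t) - ∑ i ∈ Finset.range 1, ((coeff i (lgs b) : ℚ) : ℝ) * (1 / t) ^ i) = Real.log (1 + b / t) := by
      simp [lgs]
    rw [h6]
    have h7 := h2.neg
    rw [neg_neg] at h7
    convert h7 using 1
    funext n
    unfold lgs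
    rw [coeff_mk]
    push_cast
    rw [div_pow, div_pow, one_pow]
    field_simp
  exact h5.tsum_eq

end Pool.Agent.P8H40.SE
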