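import Pool.Agent.P8H40.SE.CovM
import Pool.Agent.P8H40.SE.CovC
import Pool.Agent.P8H40.SE.CluG

/-!
# The family of G-functions of integrals on abelian covers, with its values
-/

set_option autoImplicit false

open PowerSeries Module

namespace Pool.Agent.P8H40.SE

open Pool.Agent.Y113 Pool.Agent.Y120.GH Pool.Agent.Y124.TL

theorem cover_fam (hKEY : S_KEY) (hSIM : S_SIM) (hPW : S_PW) (hPRI : S_PRI) (hGFD : S_GFD) (hVAL : S_VAL) {p q s : ℕ}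
    (g : Fin p → Polynomial ℤ) (hg : Squarefree (∏ i, (g i).map (Int.castRingHom ℚ))) (hg1 : ∀ i, 0 < (g i).natDegree)
    (hlc : ∀ i, 0 < (g i).leadingCoeff)
    (a : Fin q → Fin p → ℚ) (ha : ∀ κ i, 0 ≤ a κ i ∧ a κ i < 1) (hinj : Function.Injective a)
    (hA : ∀ κ, ∀ z : ℤ, ∑ i, a κ i * ((g i).natDegree : ℚ) ≠ z) (b : Fin s → ℤ) (hb : Function.Injective b) (hb0 : ∀ i, b i ≠ 0)
    (I : Fin q → ℕ → ℝ → ℂ) (hI : ∀ κ j, j + 2 ≤ Nn g (a κ) → IsPrim g (a κ) j (I κ j)) :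
    ∃ (r₀ : ℕ) (T : Polynomial ℤ) (A : Fin r₀ → Fin r₀ → Polynomial ℤ) (y : Fin r₀ → PowerSeries ℚ) (pl : VI g a s → Fin r₀)
      (n m₀ : ℕ), GF T A y ∧ AlgebraicIndependent (Polynomial ℚ) (fun v => y (pl v)) ∧ 0 < n ∧
      ∀ m : ℕ, m₀ ≤ m → ∀ v, ∃ ρ : ℂ, (∃ z : ℚ, ρ ^ n = z) ∧ hv y (m : ℝ) (pl v) = ρ * numP g a b I m v := by
  classical
  have hg0 : ∀ i, g i ≠ 0 := fun i hi => by
    have := hg1 i
    rw [hi, Polynomial.natDegree_zero] at this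
    exact lt_irrefl _ this
  choose h hi hh0 hhi hhS hhiS hode using fun κ => exists_h hPW g hg0 (a κ)
  obtain ⟨r, T, A, y, pl, hGF, hpl, hy⟩ := fam_gf hGFD hPRI g hg0 a hA h hi hhi hhS hhiS hode b
  have hind := pind hKEY hSIM g hg hg1 a ha hinj hA h hh0 hode b hb hb0
  have hind' : AlgebraicIndependent (Polynomial ℚ) (fun v => y (pl v)) := by
    have h1 : (fun v => y (pl v)) = (Sum.elim
      (fun x : (Σ κ : Fin q, Fin (Nn g (a κ) - 1)) => Gs (h x.1) (ex g (a x.1) x.2)) (fun i => lgs (b i))) := by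
      funext v
      exact hy v
    rw [h1]
    exact hind
  obtain ⟨n, hn, hna⟩ := exists_den a
  -- the values
  have hval : ∀ᶠ t : ℝ in Filter.atTop, ∀ x : (Σ κ : Fin q, Fin (Nn g (a κ) - 1)), I x.1 x.2 t =
      -(((∏ i, ((g i).leadingCoeff : ℝ) ^ (-(a x.1 i : ℝ))) * t ^ (-(ex g (a x.1) x.2 : ℝ)) *
    ev t (PowerSeries.mk fun m => coeff m (h x.1) / ((m : ℚ) + ex g (a x.1) x.2)) : ℝ) : ℂ) := by
    rw [Filter.eventually_all]
    intro x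
    refine hVAL p g (a x.1) x.2 (h x.1) hlc (hh0 x.1) (hhS x.1) (hode x.1) (fun z hz => ?_) _
      (hI x.1 x.2 (by have := x.2.2; omega))
    unfold ex at hz
    apply hA x.1 (z + ((x.2 : ℕ) + 1))
    push_cast
    linarith
  obtain ⟨t₀, ht₀⟩ := Filter.eventually_atTop.1 hval
  obtain ⟨M₂, hM₂⟩ := exists_nat_ge (|t₀| + ∑ i, |(b i : ℝ)|)
  refine ⟨r, T, A, y, pl, 2 * n, M₂ + 1, hGF, hind', by omega, fun m hm v => ?_⟩
  have hmpos : 0 < m := by omega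
  have hmb : |t₀| + ∑ i, |(b i : ℝ)| < (m : ℝ) := by
    have h2 : ((M₂ + 1 : ℕ) : ℝ) ≤ m := by exact_mod_cast hm
    push_cast at h2
    linarith
  have hbs : 0 ≤ ∑ i, |(b i : ℝ)| := Finset.sum_nonneg fun i _ => abs_nonneg _
  rcases v with x | i
  · obtain ⟨u, hu⟩ := fct_rad g hlc (a x.1) (hna x.1) x.2 hmpos
    have hf0 := fct_ne g hlc (a x.1) x.2 hmpos
    have hf0' : ((fct g (a x.1) x.2 m : ℝ) : ℂ) ≠ 0 := by exact_mod_cast hf0
    refine ⟨-(((fct g (a x.1) x.2 m : ℝ) : ℂ))⁻¹, ⟨(u⁻¹) ^ 2, ?_⟩, ?_⟩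
    · rw [mul_comm, pow_mul, neg_pow, inv_pow, hu]
      rcases Nat.even_or_odd n with he | ho
      · rw [he.neg_one_pow, one_mul]
        push_cast
        rfl
      · rw [ho.neg_one_pow]
        push_cast
        ring
    · have h4 := ht₀ (m : ℝ) (by linarith [le_abs_self t₀]) x
      show ((ev (m : ℝ) (y (pl (Sum.inl x))) : ℝ) : ℂ) = _ * I x.1 x.2 m
      rw [h4, hy]
      show ((ev (m : ℝ) (Gs (h x.1) (ex g (a x.1) x.2)) : ℝ) : ℂ) = -(((fct g (a x.1) x.2 m : ℝ) : ℂ))⁻¹ * -(((fct g (a x.1) x.2 m) *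
        ev (m : ℝ) (Gs (h x.1) (ex g (a x.1) x.2)) : ℝ) : ℂ)
      push_cast
      field_simp
  · refine ⟨1, ⟨1, by simp⟩, ?_⟩
    show ((ev (m : ℝ) (y (pl (Sum.inr i))) : ℝ) : ℂ) = 1 * ((Real.log (1 + b i / m) : ℝ) : ℂ)
    rw [hy, one_mul]
    show ((ev (m : ℝ) (lgs (b i)) : ℝ) : ℂ) = _
    rw [ev_lgs]
    have h5 : |(b i : ℝ)| ≤ ∑ i, |(b i : ℝ)| := Finset.single_le_sum (f := fun i => |(b i : ℝ)|) (fun _ _ => abs_nonneg _) (Finset.mem_univ i)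
    linarith [abs_nonneg t₀]

end Pool.Agent.P8H40.SE
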