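import Pool.Agent.P8H40.SE.Twist
import Pool.Agent.H667R3.W4

/-!
# The cubics of a lattice with rational invariants
-/

set_option autoImplicit false

open Polynomial Filter Module
open scoped PeriodPair

namespace Pool.Agent.P8H40.SE

/-- the values at the half periods -/
lemma cubic_roots (Λ : PeriodPair) : ∃ x y z : ℂ, x ≠ y ∧ x ≠ z ∧ y ≠ z ∧ 4 * x ^ 3 - Λ.g₂ * x - Λ.g₃ = 0 ∧
    4 * y ^ 3 - Λ.g₂ * y - Λ.g₃ = 0 ∧ 4 * z ^ 3 - Λ.g₂ * z - Λ.g₃ = 0 := by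
  have key : ∀ h : ℂ, h ∉ Λ.lattice → 2 * h ∈ Λ.lattice → 4 * ℘[Λ] h ^ 3 - Λ.g₂ * ℘[Λ] h - Λ.g₃ = 0 := by
    intro h hh h2
    have e1 := Λ.derivWeierstrassP_neg h
    have e2 := Λ.derivWeierstrassP_add_coe (-h) ⟨2 * h, h2⟩
    have e3 : -h + ((⟨2 * h, h2⟩ : Λ.lattice) : ℂ) = h := by
      show -h + 2 * h = h
      ring
    rw [e3, e1] at e2
    have e4 : ℘'[Λ] h = 0 := by linear_combination (1 / 2 : ℂ) * e2
    have e5 := Λ.derivWeierstrassP_sq h hh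
    rw [e4] at e5
    linear_combination -e5
  have n1 := Λ.ω₁_div_two_notMem_lattice
  have n2 := Λ.ω₂_div_two_notMem_lattice
  have hcomb : ∀ α β : ℚ, ¬ (α.den = 1 ∧ β.den = 1) → α * Λ.ω₁ + β * Λ.ω₂ ∉ Λ.lattice := fun α β h =>
    (PeriodPair.mul_ω₁_add_mul_ω₂_mem_lattice (α := α) (β := β)).not.mpr h
  have d12 : ((1 / 2 : ℚ)).den ≠ 1 := by norm_num
  have d12' : ((-(1 / 2) : ℚ)).den ≠ 1 := by norm_num
  have n3 : (Λ.ω₁ + Λ.ω₂) / 2 ∉ Λ.lattice := by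
    have := hcomb (1 / 2) (1 / 2) (fun h => d12 h.1)
    convert this using 1
    push_cast
    ring
  have n4 : Λ.ω₁ / 2 - Λ.ω₂ / 2 ∉ Λ.lattice := by
    have := hcomb (1 / 2) (-(1 / 2)) (fun h => d12 h.1)
    convert this using 1
    push_cast
    ring
  have n4' : Λ.ω₁ / 2 + Λ.ω₂ / 2 ∉ Λ.lattice := by
    convert n3 using 1
    ring
  refine ⟨℘[Λ] (Λ.ω₁ / 2), ℘[Λ] (Λ.ω₂ / 2), ℘[Λ] ((Λ.ω₁ + Λ.ω₂) / 2), ?_, ?_, ?_, key _ n1 ?_, key _ n2 ?_, key _ n3 ?_⟩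
  · intro h
    rcases (H667R3.wp_eq_iff Λ n1 n2).1 h with h1 | h1
    · exact n4' h1
    · exact n4 h1
  · intro h
    rcases (H667R3.wp_eq_iff Λ n1 n3).1 h with h1 | h1
    · refine hcomb 1 (1 / 2) (fun h => d12 h.2) ?_
      convert h1 using 1
      push_cast
      ring
    · refine hcomb 0 (-(1 / 2)) (fun h => d12' h.2) ?_
      convert h1 using 1
      push_cast
      ring
  · intro h
    rcases (H667R3.wp_eq_iff Λ n2 n3).1 h with h1 | h1
    · refine hcomb (1 / 2) 1 (fun h => d12 h.1) ?_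
      convert h1 using 1
      push_cast
      ring
    · refine hcomb (-(1 / 2)) 0 (fun h => d12' h.1) ?_
      convert h1 using 1
      push_cast
      ring
  · rw [mul_div_cancel₀ _ two_ne_zero]
    exact Λ.ω₁_mem_lattice
  · rw [mul_div_cancel₀ _ two_ne_zero]
    exact Λ.ω₂_mem_lattice
  · rw [mul_div_cancel₀ _ two_ne_zero]
    exact add_mem Λ.ω₁_mem_lattice Λ.ω₂_mem_lattice

/-- the cubic -/
noncomputable def cub (g2 g3 : ℚ) : ℚ[X] := C 4 * X ^ 3 - C g2 * X - C g3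

lemma cub_separable (Λ : PeriodPair) {g2 g3 : ℚ} (h2 : Λ.g₂ = (g2 : ℂ)) (h3 : Λ.g₃ = (g3 : ℂ)) : (cub g2 g3).Separable := by
  obtain ⟨x, y, z, hxy, hxz, hyz, ex, ey, ez⟩ := cubic_roots Λ
  rw [h2, h3] at ex ey ez
  have k1 : 4 * (x ^ 2 + x * y + y ^ 2) = (g2 : ℂ) := by
    apply mul_left_cancel₀ (sub_ne_zero.2 hxy)
    linear_combination ex - ey
  have k2 : 4 * (x ^ 2 + x * z + z ^ 2) = (g2 : ℂ) := by
    apply mul_left_cancel₀ (sub_ne_zero.2 hxz)
    linear_combination ex - ez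
  have k3 : x + y + z = 0 := by
    apply mul_left_cancel₀ (sub_ne_zero.2 hyz)
    linear_combination (1 / 4 : ℂ) * (k1 - k2)
  have hz : z = -x - y := by linear_combination k3
  have k4 : (g3 : ℂ) = 4 * (x * y * z) := by
    rw [hz]
    linear_combination -ex + x * k1
  rw [← separable_map (algebraMap ℚ ℂ)]
  have h4 : (cub g2 g3).map (algebraMap ℚ ℂ) = C 4 * ∏ i ∈ (Finset.univ : Finset (Fin 3)), (X - C (![x, y, z] i)) := by
    rw [Fin.prod_univ_three]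
    simp only [Matrix.cons_val_zero, Matrix.cons_val_one, Matrix.cons_val_two, Matrix.head_cons, Matrix.tail_cons]
    unfold cub
    simp only [Polynomial.map_sub, Polynomial.map_mul, Polynomial.map_pow, map_X, map_C, eq_ratCast]
    rw [← k1, k4, hz]
    simp only [C_mul, C_add, C_sub, C_neg, C_pow, Rat.cast_ofNat]
    ring
  rw [h4]
  refine Separable.unit_mul ?_ (separable_prod_X_sub_C_iff'.2 ?_)
  · rw [isUnit_C, isUnit_iff_ne_zero]
    norm_num
  · intro i _ j _ hij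
    fin_cases i <;> fin_cases j <;> simp_all

/-- the cubic in the variable of the abscissa `A t + B` -/
noncomputable def cubAB (g2 g3 A B : ℚ) : ℚ[X] := (cub g2 g3).comp (C A * X + C B)

lemma cubAB_eq (g2 g3 A B : ℚ) : cubAB g2 g3 A B = C (4 * A ^ 3) * X ^ 3 + C (12 * A ^ 2 * B) * X ^ 2 +
    C (12 * A * B ^ 2 - g2 * A) * X + C (4 * B ^ 3 - g2 * B - g3) := by
  unfold cubAB cub
  simp only [sub_comp, mul_comp, C_comp, pow_comp, X_comp, C_mul, C_sub, C_pow]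
  have h4 : (C (12 : ℚ) : ℚ[X]) = C 4 * 3 := by
    rw [show (12 : ℚ) = 4 * 3 by norm_num, C_mul]
    rfl
  rw [h4]
  ring

lemma cubAB_natDegree (g2 g3 B : ℚ) {A : ℚ} (hA : 0 < A) : (cubAB g2 g3 A B).natDegree = 3 := by
  rw [cubAB_eq]
  exact natDegree_cubic (by positivity)

lemma cubAB_lc (g2 g3 B : ℚ) {A : ℚ} (hA : 0 < A) : 0 < (cubAB g2 g3 A B).leadingCoeff := by
  rw [cubAB_eq, leadingCoeff_cubic (by positivity)]
  positivity

lemma cubAB_squarefree (Λ : PeriodPair) {g2 g3 : ℚ} (h2 : Λ.g₂ = (g2 : ℂ)) (h3 : Λ.g₃ = (g3 : ℂ)) (B : ℚ) {A : ℚ} (hA : 0 < A) :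
    Squarefree (cubAB g2 g3 A B) := by
  have h4 := (cub_separable Λ h2 h3).squarefree
  have key : ∀ P : ℚ[X], (P.comp (C (1 / A) * (X - C B))).comp (C A * X + C B) = P := by
    intro P
    rw [comp_assoc]
    have : (C (1 / A) * (X - C B)).comp (C A * X + C B) = X := by
      simp only [mul_comp, sub_comp, C_comp, X_comp]
      rw [add_sub_cancel_right, ← mul_assoc, ← C_mul, one_div, inv_mul_cancel₀ hA.ne', C_1, one_mul]
    rw [this, comp_X]
  have key2 : ∀ P : ℚ[X], (P.comp (C A * X + C B)).comp (C (1 / A) * (X - C B)) = P := by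
    intro P
    rw [comp_assoc]
    have : (C A * X + C B).comp (C (1 / A) * (X - C B)) = X := by
      simp only [mul_comp, add_comp, C_comp, X_comp]
      rw [← mul_assoc, ← C_mul, mul_one_div_cancel hA.ne', C_1, one_mul, sub_add_cancel]
    rw [this, comp_X]
  intro x hx
  obtain ⟨y, hy⟩ := hx
  have h5 : x.comp (C (1 / A) * (X - C B)) * x.comp (C (1 / A) * (X - C B)) ∣ cub g2 g3 := by
    refine ⟨y.comp (C (1 / A) * (X - C B)), ?_⟩
    rw [← mul_comp, ← mul_comp, ← hy]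
    exact (key2 _).symm
  have h6 := h4 _ h5
  have h7 : IsUnit ((x.comp (C (1 / A) * (X - C B))).comp (C A * X + C B)) := h6.map (compRingHom (C A * X + C B))
  rwa [key] at h7

lemma cubAB_inj (Λ : PeriodPair) {g2 g3 : ℚ} (h2 : Λ.g₂ = (g2 : ℂ)) (h3 : Λ.g₃ = (g3 : ℂ)) {A B A' B' : ℚ} (hA : 0 < A) (hA' : 0 < A')
    {c : ℚ} (h : cubAB g2 g3 A B = C c * cubAB g2 g3 A' B') : A = A' ∧ B = B' := by
  have hne : g2 ≠ 0 ∨ g3 ≠ 0 := by
    by_contra h0
    push Not at h0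
    obtain ⟨x, y, z, hxy, hxz, hyz, ex, ey, ez⟩ := cubic_roots Λ
    rw [h2, h3, h0.1, h0.2] at ex ey
    have e1 : x = 0 := by
      have : x ^ 3 = 0 := by push_cast at ex; linear_combination (1 / 4 : ℂ) * ex
      exact pow_eq_zero_iff (by norm_num) |>.1 this
    have e2 : y = 0 := by
      have : y ^ 3 = 0 := by push_cast at ey; linear_combination (1 / 4 : ℂ) * ey
      exact pow_eq_zero_iff (by norm_num) |>.1 this
    exact hxy (e1.trans e2.symm)
  rw [cubAB_eq, cubAB_eq] at h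
  have h' : (⟨4 * A ^ 3, 12 * A ^ 2 * B, 12 * A * B ^ 2 - g2 * A, 4 * B ^ 3 - g2 * B - g3⟩ : Cubic ℚ).toPoly =
      (⟨c * (4 * A' ^ 3), c * (12 * A' ^ 2 * B'), c * (12 * A' * B' ^ 2 - g2 * A'), c * (4 * B' ^ 3 - g2 * B' - g3)⟩ :
        Cubic ℚ).toPoly := by
    unfold Cubic.toPoly
    dsimp only
    rw [h]
    simp only [C_mul]
    ring
  have h'' := (Cubic.toPoly_injective _ _).1 h'
  have c3 : 4 * A ^ 3 = c * (4 * A' ^ 3) := congrArg Cubic.a h''
  have c2 : 12 * A ^ 2 * B = c * (12 * A' ^ 2 * B') := congrArg Cubic.b h''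
  have c1 : 12 * A * B ^ 2 - g2 * A = c * (12 * A' * B' ^ 2 - g2 * A') := congrArg Cubic.c h''
  have c0 : 4 * B ^ 3 - g2 * B - g3 = c * (4 * B' ^ 3 - g2 * B' - g3) := congrArg Cubic.d h''
  -- `A = q A'`, `c = q ^ 3`, `B' = A' β`, `B = A β`
  obtain ⟨q, hq0, hq⟩ : ∃ q : ℚ, 0 < q ∧ A = q * A' := ⟨A / A', div_pos hA hA', by field_simp⟩
  obtain ⟨β, hβ⟩ : ∃ β : ℚ, B' = A' * β := ⟨B' / A', by field_simp⟩
  have hA'0 : A' ≠ 0 := hA'.ne'
  have hc : c = q ^ 3 := by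
    apply mul_right_cancel₀ (pow_ne_zero 3 hA'0)
    rw [hq] at c3
    linear_combination (-1 / 4 : ℚ) * c3
  have hB : B = q * A' * β := by
    rw [hc, hq, hβ] at c2
    have h5 : (q * A') ^ 2 ≠ 0 := pow_ne_zero 2 (mul_ne_zero hq0.ne' hA'0)
    apply mul_left_cancel₀ h5
    linear_combination (1 / 12 : ℚ) * c2
  rw [hc, hq, hB, hβ] at c1
  rw [hc, hB, hβ] at c0
  have e1 : g2 * (1 - q ^ 2) = 0 := by
    apply mul_left_cancel₀ (mul_ne_zero hq0.ne' hA'0)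
    linear_combination -c1
  have e2 : g3 * (1 - q ^ 3) = 0 := by
    linear_combination -c0 - q * A' * β * e1
  have hq1 : q = 1 := by
    rcases hne with h0 | h0
    · have h5 : 1 - q ^ 2 = 0 := (mul_eq_zero.1 e1).resolve_left h0
      nlinarith
    · have h5 : 1 - q ^ 3 = 0 := (mul_eq_zero.1 e2).resolve_left h0
      have h6 : (1 - q) * (1 + q + q ^ 2) = 0 := by linear_combination h5
      rcases mul_eq_zero.1 h6 with h7 | h7
      · linarith
      · nlinarith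
  rw [hq1, one_mul] at hq
  refine ⟨hq, ?_⟩
  rw [hB, hq1, one_mul, hβ]

end Pool.Agent.P8H40.SE
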