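import Pool.Agent.Y124.TL.Ba

/-!
# Project SE (helper40): integrals on abelian covers of the line at all tuples of nearby integers. Definitions

The primitives of `t^j ∏ g_i(t)^(-a_i)` near infinity and their expansions.
-/

set_option autoImplicit false

open Polynomial Filter

namespace Pool.Agent.P8H40.SE

/-- the integrand `t^j ∏ g_i(t)^(-a_i)` -/
noncomputable def integrand {p : ℕ} (g : Fin p → ℤ[X]) (a : Fin p → ℚ) (j : ℕ) (t : ℝ) : ℝ :=
  t ^ j * ∏ i, ((g i).map (Int.castRingHom ℝ)).eval t ^ (-(a i : ℝ))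

/-- the exponent of the primitive at infinity: the primitive is `t ^ (-ex)` times a power series in `1/t` -/
noncomputable def ex {p : ℕ} (g : Fin p → ℤ[X]) (a : Fin p → ℚ) (j : ℕ) : ℚ :=
  ∑ i, a i * ((g i).natDegree : ℚ) - ((j : ℚ) + 1)

/-- `F` is the primitive of the integrand which is `t ^ (-ex)` times an analytic function of `1/t` (if `ex > 0` this is
`-∫_t^∞`) -/
def IsPrim {p : ℕ} (g : Fin p → ℤ[X]) (a : Fin p → ℚ) (j : ℕ) (F : ℝ → ℂ) : Prop :=
  ∃ G : ℂ → ℂ, AnalyticAt ℂ G 0 ∧ ∀ᶠ t : ℝ in atTop, HasDerivAt F ((integrand g a j t : ℝ) : ℂ) t ∧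
    F t = ((t ^ (-(ex g a j : ℝ)) : ℝ) : ℂ) * G (1 / (t : ℂ))

/-- the reversed polynomial, normalised: `f(t) = lc(f) t^deg(f) revq(f)(1/t)` -/
noncomputable def revq (f : ℤ[X]) : ℚ[X] := C (1 / (f.leadingCoeff : ℚ)) * f.reverse.map (Int.castRingHom ℚ)

end Pool.Agent.P8H40.SE
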