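import Pool.Agent.P8H40.SE.EllF
import Pool.Agent.P8H40.SE.TwiC

/-!
# Elliptic and usual logarithms of points and arbitrary constants
-/

set_option autoImplicit false

open Polynomial Filter Module
open scoped PeriodPair

namespace Pool.Agent.P8H40.SE

lemma qmul_memQ {V : Submodule ℚ ℂ} (q : ℚ) {x : ℂ} (hx : x ∈ V) : (q : ℂ) * x ∈ V := by
  have h1 : (q : ℂ) * x = q • x := by
    rw [Algebra.smul_def]
    rfl
  rw [h1]
  exact V.smul_mem q hx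

lemma zmul_memQ {V : Submodule ℚ ℂ} (n : ℤ) {x : ℂ} (hx : x ∈ V) : (n : ℂ) * x ∈ V := by
  have := qmul_memQ (V := V) (n : ℚ) hx
  push_cast at this
  exact this

lemma degreeOf_rename_le {K : Type} [CommSemiring K] {α β : Type} (f : α → β) (hf : Function.Injective f) (P : MvPolynomial α K)
    {δ : ℕ} (hP : ∀ x, P.degreeOf x ≤ δ) (y : β) : (MvPolynomial.rename f P).degreeOf y ≤ δ := by
  classical
  rw [MvPolynomial.degreeOf_eq_sup]
  refine Finset.sup_le fun u hu => ?_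
  rw [MvPolynomial.support_rename_of_injective hf] at hu
  obtain ⟨d, hd, rfl⟩ := Finset.mem_image.1 hu
  by_cases hy : y ∈ Set.range f
  · obtain ⟨x, rfl⟩ := hy
    rw [Finsupp.mapDomain_apply hf]
    refine le_trans ?_ (hP x)
    rw [MvPolynomial.degreeOf_eq_sup]
    exact Finset.le_sup (f := fun m : α →₀ ℕ => m x) hd
  · rw [Finsupp.mapDomain_of_notMem_range _ _ hy]
    exact Nat.zero_le _

/-- the constants -/
noncomputable def cstE (Λ : PeriodPair) {r : ℕ} (z : Fin r → ℂ) : Fin 5 ⊕ Fin r → ℂ :=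
  Sum.elim ![Λ.ω₁, Λ.ω₂, 2 * zeta Λ (Λ.ω₁ / 2), 2 * zeta Λ (Λ.ω₂ / 2), 2 * Real.pi * Complex.I] z

/-- the numbers -/
noncomputable def valE (Λ : PeriodPair) {n : ℕ} {σ : Type} (p : Fin n → ℂ) (t : σ → ℂ) : Fin n ⊕ (Fin n ⊕ σ) → ℂ :=
  Sum.elim p (Sum.elim (fun i => zeta Λ (p i)) t)

theorem ell_clusters (hKEY : S_KEY) (hSIM : S_SIM) (hPW : S_PW) (hPRI : S_PRI) (hGFD : S_GFD) (hVAL : S_VAL) (hELL : S_ELL)
    (Λ : PeriodPair) (g2 g3 : ℚ) (h2 : Λ.g₂ = (g2 : ℂ)) (h3 : Λ.g₃ = (g3 : ℂ)) {n s : ℕ} (A B : Fin n → ℚ)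
    (hA : ∀ i, 0 < A i) (hAB : Function.Injective fun i => (A i, B i)) (b : Fin s → ℤ) (hb : Function.Injective b) :
    ∃ G : ℕ, ∀ r δ D : ℕ, ∃ (c : ℝ) (M₀ : ℕ), 0 < c ∧ ∀ M : ℕ, M₀ ≤ M → ∀ z : Fin r → ℂ,
      ∃ S : Finset ℕ, S.card ≤ r + 6 ∧ ∀ m : ℕ, M ≤ m → (m : ℝ) ≤ M + (M : ℝ) ^ c → (∀ x ∈ S, (G : ℤ) ≤ |(m : ℤ) - x|) →
        ∀ (p : Fin n → ℂ) (t : Fin s → ℂ), (∀ i, p i ∉ Λ.lattice ∧ ℘[Λ] (p i) = (A i : ℂ) * m + B i) →
          (∀ j, Complex.exp (t j) = (m : ℂ) + b j) →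
          ∀ (K : IntermediateField ℚ ℂ) [FiniteDimensional ℚ K], finrank ℚ K ≤ D →
            ∀ P : MvPolynomial ((Fin 5 ⊕ Fin r) ⊕ (Fin n ⊕ (Fin n ⊕ Fin s))) K, (∀ x, P.degreeOf x ≤ δ) →
              MvPolynomial.aeval (Sum.elim (cstE Λ z) (valE Λ p t)) P = 0 →
                ∀ v : Fin n ⊕ (Fin n ⊕ Fin s) → ℂ, MvPolynomial.aeval (Sum.elim (cstE Λ z) v) P = 0 := by
  classical
  -- the list of the `b`
  obtain ⟨s', b', emb, hb', hb0', hemb, hbe⟩ : ∃ (s' : ℕ) (b' : Fin s' → ℤ) (emb : Fin s → Option (Fin s')),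
      Function.Injective b' ∧ (∀ i, b' i ≠ 0) ∧ Function.Injective emb ∧ ∀ j, (emb j).elim 0 b' = b j := by
    by_cases hb0 : ∀ j, b j ≠ 0
    · exact ⟨s, b, some, hb, hb0, Option.some_injective _, fun j => rfl⟩
    · push Not at hb0
      obtain ⟨j0, hj0⟩ := hb0
      obtain ⟨s', rfl⟩ : ∃ s', s = s' + 1 := ⟨s - 1, by have := j0.2; omega⟩
      refine ⟨s', fun i => b (j0.succAbove i), finSuccEquiv' j0, hb.comp Fin.succAbove_right_injective, fun i h => ?_,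
        (finSuccEquiv' j0).injective, fun j => ?_⟩
      · have h5 : b (j0.succAbove i) = b j0 := by rw [hj0]; exact h
        exact Fin.succAbove_ne j0 i (hb h5)
      · rcases Fin.eq_self_or_eq_succAbove j0 j with rfl | ⟨i, rfl⟩
        · rw [finSuccEquiv'_at, hj0]
          rfl
        · rw [finSuccEquiv'_succAbove]
          rfl
  obtain ⟨F₀, F₁, G₀, G₁, hG₀, hG₁, hev⟩ := hELL Λ (g2 : ℝ) (g3 : ℝ) (by rw [h2]; push_cast; rfl) (by rw [h3]; push_cast; rfl)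
  set f : Fin n → ℚ[X] := fun i => cubAB g2 g3 (A i) (B i) with hf
  set J : Fin n → ℕ → ℝ → ℂ := fun i => JE F₀ F₁ (A i) (B i) with hJdef
  have hdeg : ∀ i, (f i).natDegree = 3 := fun i => cubAB_natDegree g2 g3 (B i) (hA i)
  have hodd : ∀ i, Odd (f i).natDegree := fun i => by rw [hdeg i]; decide
  have hsq : ∀ i, Squarefree (f i) := fun i => cubAB_squarefree Λ h2 h3 (B i) (hA i)
  have hlc : ∀ i, 0 < (f i).leadingCoeff := fun i => cubAB_lc g2 g3 (B i) (hA i)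
  have hne : ∀ i i', i ≠ i' → ∀ c : ℚ, f i ≠ C c * f i' := fun i i' hii c h => by
    obtain ⟨e1, e2⟩ := cubAB_inj Λ h2 h3 (hA i) (hA i') h
    exact hii (hAB (Prod.ext e1 e2))
  have hJ : ∀ i j, j + 2 ≤ (f i).natDegree → IsPrimQ (f i) j (J i j) := fun i j hj => by
    rw [hdeg i] at hj
    exact JE_prim hG₀ hG₁ (hev.mono fun t ht => ⟨ht.1, ht.2.1, ht.2.2.1, ht.2.2.2.1⟩) (hA i) (B i) j hj
  -- the values
  have hevA : ∀ᶠ t : ℝ in atTop, ∀ i, ∀ z : ℂ, z ∉ Λ.lattice → ℘[Λ] z = (((A i : ℝ) * t + B i : ℝ) : ℂ) →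
      ∃ ε n₁ n₂ : ℤ, (ε = 1 ∨ ε = -1) ∧ z = -ε * F₀ ((A i : ℝ) * t + B i) + n₁ * Λ.ω₁ + n₂ * Λ.ω₂ ∧
        zeta Λ z = ε * F₁ ((A i : ℝ) * t + B i) + n₁ * (2 * zeta Λ (Λ.ω₁ / 2)) + n₂ * (2 * zeta Λ (Λ.ω₂ / 2)) := by
    rw [eventually_all]
    intro i
    have hAR : (0 : ℝ) < A i := by exact_mod_cast hA i
    have hlim : Tendsto (fun t : ℝ => (A i : ℝ) * t + B i) atTop atTop :=
      tendsto_atTop_add_const_right _ _ (tendsto_id.const_mul_atTop hAR)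
    exact hlim.eventually (hev.mono fun t ht => ht.2.2.2.2)
  obtain ⟨t₁, ht₁⟩ := eventually_atTop.1 hevA
  obtain ⟨M₁, hM₁⟩ := exists_nat_ge (|t₁| + ∑ i, |(b' i : ℝ)|)
  have hJmem : ∀ (V : Submodule ℚ ℂ) (x : ℕ), M₁ ≤ x → ∀ (i : Fin n) (z : ℂ), z ∉ Λ.lattice →
      ℘[Λ] z = (A i : ℂ) * x + B i → z ∈ V → zeta Λ z ∈ V → Λ.ω₁ ∈ V → Λ.ω₂ ∈ V → 2 * zeta Λ (Λ.ω₁ / 2) ∈ V →
      2 * zeta Λ (Λ.ω₂ / 2) ∈ V → ∀ j : ℕ, J i j (x : ℝ) ∈ V := by
    intro V x hx i z hz hzw v1 v2 v3 v4 v5 v6 j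
    have hx' : t₁ ≤ (x : ℝ) := by
      have h5 : (M₁ : ℝ) ≤ x := by exact_mod_cast hx
      have h6 : 0 ≤ ∑ i, |(b' i : ℝ)| := Finset.sum_nonneg fun i _ => abs_nonneg _
      linarith [le_abs_self t₁]
    obtain ⟨ε, n₁, n₂, hε, e1, e2⟩ := ht₁ x hx' i z hz (by rw [hzw]; push_cast; rfl)
    have hε2 : (ε : ℂ) * ε = 1 := by rcases hε with rfl | rfl <;> norm_num
    have m0 : F₀ ((A i : ℝ) * x + B i) ∈ V := by
      have : F₀ ((A i : ℝ) * x + B i) = (ε : ℂ) * ((n₁ : ℂ) * Λ.ω₁ + (n₂ : ℂ) * Λ.ω₂ - z) := by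
        rw [e1]
        linear_combination (-F₀ ((A i : ℝ) * x + B i)) * hε2
      rw [this]
      exact zmul_memQ _ (Submodule.sub_mem _ (Submodule.add_mem _ (zmul_memQ _ v3) (zmul_memQ _ v4)) v1)
    have m1 : F₁ ((A i : ℝ) * x + B i) ∈ V := by
      have : F₁ ((A i : ℝ) * x + B i) = (ε : ℂ) * (zeta Λ z - (n₁ : ℂ) * (2 * zeta Λ (Λ.ω₁ / 2)) - (n₂ : ℂ) * (2 * zeta Λ (Λ.ω₂ / 2))) := by
        rw [e2]
        linear_combination (-F₁ ((A i : ℝ) * x + B i)) * hε2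
      rw [this]
      exact zmul_memQ _ (Submodule.sub_mem _ (Submodule.sub_mem _ v2 (zmul_memQ _ v5)) (zmul_memQ _ v6))
    show JE F₀ F₁ (A i) (B i) j (x : ℝ) ∈ V
    unfold JE
    have q1 : ((A i : ℂ))⁻¹ = (((A i)⁻¹ : ℚ) : ℂ) := by push_cast; rfl
    split_ifs
    · rw [q1]
      exact qmul_memQ _ m0
    · have q2 : (((A i : ℂ))⁻¹) ^ 2 = ((((A i)⁻¹) ^ 2 : ℚ) : ℂ) := by push_cast; rfl
      rw [q2]
      exact qmul_memQ _ (Submodule.sub_mem _ m1 (qmul_memQ _ m0))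
  have hposx : ∀ {x : ℕ}, M₁ < x → ∀ j : Option (Fin s'), 0 < (x : ℝ) + ((j.elim 0 b' : ℤ) : ℝ) := fun {x} hx j => by
    have h5 : (M₁ : ℝ) < x := by exact_mod_cast hx
    have h6 : 0 ≤ ∑ i, |(b' i : ℝ)| := Finset.sum_nonneg fun i _ => abs_nonneg _
    rcases j with _ | j
    · show 0 < (x : ℝ) + ((0 : ℤ) : ℝ)
      push_cast
      linarith [abs_nonneg t₁]
    · have h7 : |(b' j : ℝ)| ≤ ∑ i, |(b' i : ℝ)| := Finset.single_le_sum (f := fun i => |(b' i : ℝ)|) (fun _ _ => abs_nonneg _) (Finset.mem_univ j)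
      have h8 := neg_abs_le (b' j : ℝ)
      show 0 < (x : ℝ) + ((b' j : ℤ) : ℝ)
      linarith [abs_nonneg t₁]
  have hlogmem : ∀ (V : Submodule ℚ ℂ) (x : ℕ), M₁ < x → ∀ (j : Option (Fin s')) (z : ℂ),
      Complex.exp z = (x : ℂ) + ((j.elim 0 b' : ℤ) : ℂ) → z ∈ V → 2 * Real.pi * Complex.I ∈ V →
      ((Real.log ((x : ℝ) + ((j.elim 0 b' : ℤ) : ℝ)) : ℝ) : ℂ) ∈ V := by
    intro V x hx j z hz v1 v2
    have hpos := hposx hx j
    have h8 : Complex.exp z = Complex.exp ((Real.log ((x : ℝ) + ((j.elim 0 b' : ℤ) : ℝ)) : ℝ) : ℂ) := by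
      rw [hz, ← Complex.ofReal_exp, Real.exp_log hpos]
      push_cast
      rfl
    obtain ⟨q, hq⟩ := Complex.exp_eq_exp_iff_exists_int.1 h8
    have h9 : ((Real.log ((x : ℝ) + ((j.elim 0 b' : ℤ) : ℝ)) : ℝ) : ℂ) = z - (q : ℂ) * (2 * Real.pi * Complex.I) := by
      rw [hq]
      ring
    rw [h9]
    exact Submodule.sub_mem _ v1 (zmul_memQ _ v2)
  -- the clusters
  have hσ : Fintype.card (Fin n ⊕ (Fin n ⊕ Option (Fin s'))) = (∑ i, ((f i).natDegree - 1)) + s' + 1 := by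
    rw [Fintype.card_sum, Fintype.card_sum, Fintype.card_option, Fintype.card_fin, Fintype.card_fin]
    simp only [hdeg]
    rw [Finset.sum_const, Finset.card_univ, Fintype.card_fin, smul_eq_mul]
    ring
  obtain ⟨G, hG⟩ := twist_clusters hKEY hSIM hPW hPRI hGFD hVAL f hodd hsq hlc hne b' hb' hb0' J hJ _ hσ
  refine ⟨G, fun r δ D => ?_⟩
  obtain ⟨c, M₀, hc, hmain⟩ := hG (5 + r) δ D
  refine ⟨c, M₀ + M₁ + 1, hc, fun M hM z => ?_⟩
  set θ : Fin (5 + r) → ℂ := fun i => cstE Λ z (finSumFinEquiv.symm i) with hθ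
  obtain ⟨S, hS, hm⟩ := hmain M (by omega) θ
  refine ⟨S, by omega, fun m h4 h5 h6 p t hp ht K _ hK P hP h0 v => ?_⟩
  have hmM : M₁ < m := by omega
  set t' : Option (Fin s') → ℂ := Function.extend emb t
    (fun o => ((Real.log ((m : ℝ) + ((o.elim 0 b' : ℤ) : ℝ)) : ℝ) : ℂ)) with ht'
  have hexp : ∀ o, Complex.exp (t' o) = (m : ℂ) + ((o.elim 0 b' : ℤ) : ℂ) := by
    intro o
    by_cases ho : ∃ j, emb j = o
    · obtain ⟨j, rfl⟩ := ho
      rw [ht', hemb.extend_apply, ht j, hbe j]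
    · rw [ht', Function.extend_apply' _ _ _ ho, ← Complex.ofReal_exp, Real.exp_log (hposx hmM o)]
      push_cast
      rfl
  set w : Fin n ⊕ (Fin n ⊕ Option (Fin s')) → ℂ := valE Λ p t' with hw
  set V : Submodule ℚ ℂ := Submodule.span ℚ (insert 1 (Set.range w ∪ Set.range θ)) with hV
  have hVw : ∀ x, w x ∈ V := fun x => Submodule.subset_span (Set.mem_insert_of_mem _ (Or.inl ⟨x, rfl⟩))
  have hVθ : ∀ x, cstE Λ z x ∈ V := fun x => Submodule.subset_span (Set.mem_insert_of_mem _ (Or.inr ⟨finSumFinEquiv x, by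
    rw [hθ]
    simp only [Equiv.symm_apply_apply]⟩))
  have hlg : ∀ o : Option (Fin s'), ((Real.log ((m : ℝ) + ((o.elim 0 b' : ℤ) : ℝ)) : ℝ) : ℂ) ∈ V := fun o =>
    hlogmem V m hmM o (t' o) (hexp o) (hVw (Sum.inr (Sum.inr o))) (hVθ (Sum.inl 4))
  have hlg0 : ((Real.log m : ℝ) : ℂ) ∈ V := by
    have := hlg none
    simpa using this
  let ι : (Fin 5 ⊕ Fin r) ⊕ (Fin n ⊕ (Fin n ⊕ Fin s)) → Fin (5 + r) ⊕ (Fin n ⊕ (Fin n ⊕ Option (Fin s'))) :=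
    Sum.map finSumFinEquiv (Sum.map id (Sum.map id emb))
  have hι : Function.Injective ι := (finSumFinEquiv.injective).sumMap (Function.injective_id.sumMap (Function.injective_id.sumMap hemb))
  have hι0 : ∀ y : Fin n ⊕ (Fin n ⊕ Option (Fin s')) → ℂ, Sum.elim θ y ∘ ι = Sum.elim (cstE Λ z) (y ∘ Sum.map id (Sum.map id emb)) := by
    intro y
    funext x
    rcases x with x | x
    · show θ (finSumFinEquiv x) = cstE Λ z x
      rw [hθ]
      simp only [Equiv.symm_apply_apply]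
    · rfl
  have hwv : w ∘ Sum.map id (Sum.map id emb) = valE Λ p t := by
    funext x
    rcases x with x | x | x
    · rfl
    · rfl
    · show t' (emb x) = t x
      rw [ht', hemb.extend_apply]
  have h7 := hm m h4 h5 h6 w hlg0 (fun i j hj => hJmem V m hmM.le i (p i) (hp i).1 (hp i).2 (hVw (Sum.inl i))
    (hVw (Sum.inr (Sum.inl i))) (hVθ (Sum.inl 0)) (hVθ (Sum.inl 1)) (hVθ (Sum.inl 2)) (hVθ (Sum.inl 3)) j)
    (fun i => by
      have e1 : (0 : ℝ) < m := by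
        have := hposx hmM none
        simpa using this
      have e2 := hposx hmM (some i)
      have e3 : Real.log (1 + b' i / m) = Real.log ((m : ℝ) + (((some i).elim 0 b' : ℤ) : ℝ)) - Real.log (m) := by
        rw [← Real.log_div e2.ne' e1.ne']
        congr 1
        show 1 + (b' i : ℝ) / m = ((m : ℝ) + ((b' i : ℤ) : ℝ)) / m
        field_simp
      rw [e3, Complex.ofReal_sub]
      exact Submodule.sub_mem _ (hlg (some i)) hlg0) K hK (MvPolynomial.rename ι P) (degreeOf_rename_le ι hι P hP) (by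
      rw [MvPolynomial.aeval_rename, hι0, hwv]
      exact h0)
  have hinj2 : Function.Injective (Sum.map id (Sum.map id emb) : Fin n ⊕ (Fin n ⊕ Fin s) → Fin n ⊕ (Fin n ⊕ Option (Fin s'))) :=
    Function.injective_id.sumMap (Function.injective_id.sumMap hemb)
  have h8 := subst_eval θ (MvPolynomial.rename ι P) (Function.extend (Sum.map id (Sum.map id emb)) v 0)
  rw [h7, map_zero, MvPolynomial.aeval_rename, hι0] at h8
  rw [h8]
  congr 3
  funext x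
  exact (hinj2.extend_apply v 0 x).symm

end Pool.Agent.P8H40.SE
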