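import Pool.Agent.P8H40.SE.EllC
import Pool.Agent.P8H40.SE.TwiD
import Pool.Agent.H667R3.W5

/-!
# Elliptic and usual logarithms: translates of arbitrary points
-/

set_option autoImplicit false

open Polynomial Filter Module
open scoped PeriodPair

namespace Pool.Agent.P8H40.SE

open Pool.Agent.Y124.TD Pool.Agent.Y124.TG

lemma JE_mem {K : IntermediateField ℚ ℂ} (U : Submodule K ℂ) (F₀ F₁ : ℝ → ℂ) (A B : ℚ) (γ : ℂ) (t : ℝ)
    (h0 : γ * F₀ (A * t + B) ∈ U) (h1 : γ * F₁ (A * t + B) ∈ U) (j : ℕ) : γ * JE F₀ F₁ A B j t ∈ U := by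
  unfold JE
  have q1 : ((A : ℂ))⁻¹ = (((A)⁻¹ : ℚ) : ℂ) := by push_cast; rfl
  split_ifs
  · have e1 : γ * ((A : ℂ)⁻¹ * F₀ (A * t + B)) = ((A⁻¹ : ℚ) : ℂ) * (γ * F₀ (A * t + B)) := by
      rw [q1]
      ring
    rw [e1]
    exact Pool.Agent.Y124.TG.mQ _ h0
  · have e1 : γ * ((A : ℂ)⁻¹ ^ 2 * (F₁ (A * t + B) - B * F₀ (A * t + B))) =
        (((A⁻¹) ^ 2 : ℚ) : ℂ) * (γ * F₁ (A * t + B) - (B : ℂ) * (γ * F₀ (A * t + B))) := by
      rw [q1]
      push_cast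
      ring
    rw [e1]
    exact Pool.Agent.Y124.TG.mQ _ (Submodule.sub_mem _ h1 (Pool.Agent.Y124.TG.mQ _ h0))

/-- one point -/
lemma J_den (Λ : PeriodPair) {F₀ F₁ : ℝ → ℂ} {A B : ℚ} {x : ℝ}
    (hx : ∀ z : ℂ, z ∉ Λ.lattice → ℘[Λ] z = (((A : ℝ) * x + B : ℝ) : ℂ) →
      ∃ ε n₁ n₂ : ℤ, (ε = 1 ∨ ε = -1) ∧ z = -ε * F₀ ((A : ℝ) * x + B) + n₁ * Λ.ω₁ + n₂ * Λ.ω₂ ∧
        zeta Λ z = ε * F₁ ((A : ℝ) * x + B) + n₁ * (2 * zeta Λ (Λ.ω₁ / 2)) + n₂ * (2 * zeta Λ (Λ.ω₂ / 2)))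
    {K : IntermediateField ℚ ℂ} (V : Submodule K ℂ) (h1V : (1 : ℂ) ∈ V) {z p : ℂ} (hp : p ∉ Λ.lattice) (hpz : p - z ∉ Λ.lattice)
    (hval : ℘[Λ] (p - z) = (((A : ℝ) * x + B : ℝ) : ℂ)) (hex : ℘[Λ] z ≠ (((A : ℝ) * x + B : ℝ) : ℂ)) (hrat : (((A : ℝ) * x + B : ℝ) : ℂ) ∈ V)
    (v1 : p ∈ V) (v2 : zeta Λ p ∈ V) (v3 : z ∈ V) (v4 : zeta Λ z ∈ V) (v5 : ℘[Λ] z ∈ V) (v6 : ℘'[Λ] z ∈ V)
    (v7 : ℘'[Λ] (p - z) ∈ V) (w1 : Λ.ω₁ ∈ V) (w2 : Λ.ω₂ ∈ V) (w3 : 2 * zeta Λ (Λ.ω₁ / 2) ∈ V) (w4 : 2 * zeta Λ (Λ.ω₂ / 2) ∈ V) :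
    ∃ γ : ℂ, γ ≠ 0 ∧ γ ∈ V ∧ ∀ j, γ * JE F₀ F₁ A B j x ∈ V ^ 2 := by
  have hup : ∀ {y : ℂ}, y ∈ V → y ∈ V ^ 2 := fun hy => pow_mem_mono h1V (by norm_num : 1 ≤ 2) (by rw [pow_one]; exact hy)
  have hmul : ∀ {y y' : ℂ}, y ∈ V → y' ∈ V → y * y' ∈ V ^ 2 := fun hy hy' => by
    have := pow_mem_add (W := V) (a := 1) (b := 1) (by rw [pow_one]; exact hy) (by rw [pow_one]; exact hy')
    exact this
  by_cases hz : z ∈ Λ.lattice
  · have e0 : ℘[Λ] p = (((A : ℝ) * x + B : ℝ) : ℂ) := by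
      rw [← hval]
      have := Λ.weierstrassP_add_coe (p - z) ⟨z, hz⟩
      rw [← this]
      congr 1
      show p = p - z + z
      ring
    obtain ⟨ε, n₁, n₂, hε, e1, e2⟩ := hx p hp e0
    have hε2 : (ε : ℂ) * ε = 1 := by rcases hε with rfl | rfl <;> norm_num
    refine ⟨1, one_ne_zero, h1V, fun j => JE_mem _ F₀ F₁ A B 1 x ?_ ?_ j⟩
    · rw [one_mul]
      have : F₀ ((A : ℝ) * x + B) = (ε : ℂ) * ((n₁ : ℂ) * Λ.ω₁ + (n₂ : ℂ) * Λ.ω₂ - p) := by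
        rw [e1]
        linear_combination (-F₀ ((A : ℝ) * x + B)) * hε2
      rw [this]
      exact hup (zmul_mem _ (Submodule.sub_mem _ (Submodule.add_mem _ (zmul_mem _ w1) (zmul_mem _ w2)) v1))
    · rw [one_mul]
      have : F₁ ((A : ℝ) * x + B) = (ε : ℂ) * (zeta Λ p - (n₁ : ℂ) * (2 * zeta Λ (Λ.ω₁ / 2)) - (n₂ : ℂ) * (2 * zeta Λ (Λ.ω₂ / 2))) := by
        rw [e2]
        linear_combination (-F₁ ((A : ℝ) * x + B)) * hε2
      rw [this]
      exact hup (zmul_mem _ (Submodule.sub_mem _ (Submodule.sub_mem _ v2 (zmul_mem _ w3)) (zmul_mem _ w4)))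
  · obtain ⟨ε, n₁, n₂, hε, e1, e2⟩ := hx (p - z) hpz hval
    have hε2 : (ε : ℂ) * ε = 1 := by rcases hε with rfl | rfl <;> norm_num
    set u := p - z with hu
    have hne : ℘[Λ] z - ℘[Λ] u ≠ 0 := by
      rw [hval]
      exact sub_ne_zero.2 hex
    have hzu : z + u = p := by rw [hu]; ring
    have hzu' : z - u ∉ Λ.lattice := fun h => hne (by
      rw [(H667R3.wp_eq_iff Λ hz hpz).2 (Or.inr h), sub_self])
    have hadd : zeta Λ p = zeta Λ z + zeta Λ u + (℘'[Λ] z - ℘'[Λ] u) / (2 * (℘[Λ] z - ℘[Λ] u)) := by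
      have h5 := H667R3.zeta_add Λ hz hpz (by rw [hzu]; exact hp) hzu'
      rw [hzu] at h5
      exact h5
    have hγV : ℘[Λ] z - ℘[Λ] u ∈ V := by
      rw [hval]
      exact Submodule.sub_mem _ v5 hrat
    refine ⟨℘[Λ] z - ℘[Λ] u, hne, hγV, fun j => JE_mem _ F₀ F₁ A B _ x ?_ ?_ j⟩
    · have : F₀ ((A : ℝ) * x + B) = (ε : ℂ) * ((n₁ : ℂ) * Λ.ω₁ + (n₂ : ℂ) * Λ.ω₂ - u) := by
        rw [e1]
        linear_combination (-F₀ ((A : ℝ) * x + B)) * hε2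
      rw [this]
      exact hmul hγV (zmul_mem _ (Submodule.sub_mem _ (Submodule.add_mem _ (zmul_mem _ w1) (zmul_mem _ w2)) (Submodule.sub_mem _ v1 v3)))
    · have e3 : (℘[Λ] z - ℘[Λ] u) * F₁ ((A : ℝ) * x + B) = (ε : ℂ) * ((℘[Λ] z - ℘[Λ] u) * (zeta Λ p - zeta Λ z
          - (n₁ : ℂ) * (2 * zeta Λ (Λ.ω₁ / 2)) - (n₂ : ℂ) * (2 * zeta Λ (Λ.ω₂ / 2))) - ((1 / 2 : ℚ) : ℂ) * (℘'[Λ] z - ℘'[Λ] u)) := by
        have e4 : zeta Λ u = zeta Λ p - zeta Λ z - (℘'[Λ] z - ℘'[Λ] u) / (2 * (℘[Λ] z - ℘[Λ] u)) := by rw [hadd]; ring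
        have e5 : F₁ ((A : ℝ) * x + B) = (ε : ℂ) * (zeta Λ u - (n₁ : ℂ) * (2 * zeta Λ (Λ.ω₁ / 2)) - (n₂ : ℂ) * (2 * zeta Λ (Λ.ω₂ / 2))) := by
          rw [e2]
          linear_combination (-F₁ ((A : ℝ) * x + B)) * hε2
        rw [e5, e4]
        push_cast
        field_simp
        ring
      rw [e3]
      refine zmul_mem _ (Submodule.sub_mem _ (hmul hγV ?_) (hup (Pool.Agent.Y124.TG.mQ _ (Submodule.sub_mem _ v6 v7))))
      exact Submodule.sub_mem _ (Submodule.sub_mem _ (Submodule.sub_mem _ v2 v4) (zmul_mem _ w3)) (zmul_mem _ w4)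

/-- the constants of the translates -/
noncomputable def cstT (Λ : PeriodPair) {r n s : ℕ} (w : Fin r → ℂ) (z : Fin n → ℂ) (y : Fin s → ℂ) :
    (Fin 5 ⊕ Fin r) ⊕ (Fin n × Fin 4 ⊕ Fin s) → ℂ :=
  Sum.elim (cstE Λ w) (Sum.elim (fun x => ![z x.1, zeta Λ (z x.1), ℘[Λ] (z x.1), ℘'[Λ] (z x.1)] x.2) y)

theorem ell_translates (hKEY : S_KEY) (hSIM : S_SIM) (hPW : S_PW) (hPRI : S_PRI) (hGFD : S_GFD) (hVAL : S_VAL) (hELL : S_ELL)
    (Λ : PeriodPair) (g2 g3 : ℚ) (h2 : Λ.g₂ = (g2 : ℂ)) (h3 : Λ.g₃ = (g3 : ℂ)) {n s : ℕ} (A B : Fin n → ℚ)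
    (hA : ∀ i, 0 < A i) (hAB : Function.Injective fun i => (A i, B i)) (b : Fin s → ℤ) (hb : Function.Injective b) :
    ∃ G : ℕ, ∀ r δ D : ℕ, ∃ (c : ℝ) (M₀ : ℕ), 0 < c ∧ ∀ M : ℕ, M₀ ≤ M → ∀ (w : Fin r → ℂ) (z : Fin n → ℂ) (y : Fin s → ℂ),
      ∃ S : Finset ℕ, S.card ≤ r + 5 * n + s + 6 ∧
        ∀ m : ℕ, M ≤ m → (m : ℝ) ≤ M + (M : ℝ) ^ c → (∀ x ∈ S, (G : ℤ) ≤ |(m : ℤ) - x|) →
        ∀ (p : Fin n → ℂ) (t : Fin s → ℂ),
          (∀ i, p i ∉ Λ.lattice ∧ p i - z i ∉ Λ.lattice ∧ ℘[Λ] (p i - z i) = (A i : ℂ) * m + B i) →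
          (∀ j, Complex.exp (t j - y j) = (m : ℂ) + b j) →
          ∀ (K : IntermediateField ℚ ℂ) [FiniteDimensional ℚ K], finrank ℚ K ≤ D →
            ∀ P : MvPolynomial ((Fin 5 ⊕ Fin r) ⊕ (Fin n ⊕ (Fin n ⊕ Fin s))) K, (∀ x, P.degreeOf x ≤ δ) →
              MvPolynomial.aeval (Sum.elim (cstE Λ w) (valE Λ p t)) P = 0 →
                ∀ v : Fin n ⊕ (Fin n ⊕ Fin s) → ℂ, MvPolynomial.aeval (Sum.elim (cstE Λ w) v) P = 0 := by
  classical
  -- the list of the `b`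
  obtain ⟨s', b', emb, hb', hb0', hemb, hbe⟩ : ∃ (s' : ℕ) (b' : Fin s' → ℤ) (emb : Fin s → Option (Fin s')),
      Function.Injective b' ∧ (∀ i, b' i ≠ 0) ∧ Function.Injective emb ∧ ∀ j, (emb j).elim 0 b' = b j := by
    by_cases hb0 : ∀ j, b j ≠ 0
    · exact ⟨s, b, some, hb, hb0, Option.some_injective _, fun j => rfl⟩
    · push Not at hb0
      obtain ⟨j0, hj0⟩ := hb0
      obtain ⟨s', rfl⟩ : ∃ s', s = s' + 1 := ⟨s - 1, by have := j0.2; omega⟩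
      refine ⟨s', fun i => b (j0.succAbove i), finSuccEquiv' j0, hb.comp Fin.succAbove_right_injective, fun i h => ?_,
        (finSuccEquiv' j0).injective, fun j => ?_⟩
      · have h5 : b (j0.succAbove i) = b j0 := by rw [hj0]; exact h
        exact Fin.succAbove_ne j0 i (hb h5)
      · rcases Fin.eq_self_or_eq_succAbove j0 j with rfl | ⟨i, rfl⟩
        · rw [finSuccEquiv'_at, hj0]
          rfl
        · rw [finSuccEquiv'_succAbove]
          rfl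
  obtain ⟨F₀, F₁, G₀, G₁, hG₀, hG₁, hev⟩ := hELL Λ (g2 : ℝ) (g3 : ℝ) (by rw [h2]; push_cast; rfl) (by rw [h3]; push_cast; rfl)
  set f : Fin n → ℚ[X] := fun i => cubAB g2 g3 (A i) (B i) with hf
  set J : Fin n → ℕ → ℝ → ℂ := fun i => JE F₀ F₁ (A i) (B i) with hJdef
  have hdeg : ∀ i, (f i).natDegree = 3 := fun i => cubAB_natDegree g2 g3 (B i) (hA i)
  have hodd : ∀ i, Odd (f i).natDegree := fun i => by rw [hdeg i]; decide
  have hsq : ∀ i, Squarefree (f i) := fun i => cubAB_squarefree Λ h2 h3 (B i) (hA i)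
  have hlc : ∀ i, 0 < (f i).leadingCoeff := fun i => cubAB_lc g2 g3 (B i) (hA i)
  have hne : ∀ i i', i ≠ i' → ∀ c : ℚ, f i ≠ C c * f i' := fun i i' hii c h => by
    obtain ⟨e1, e2⟩ := cubAB_inj Λ h2 h3 (hA i) (hA i') h
    exact hii (hAB (Prod.ext e1 e2))
  have hJ : ∀ i j, j + 2 ≤ (f i).natDegree → IsPrimQ (f i) j (J i j) := fun i j hj => by
    rw [hdeg i] at hj
    exact JE_prim hG₀ hG₁ (hev.mono fun t ht => ⟨ht.1, ht.2.1, ht.2.2.1, ht.2.2.2.1⟩) (hA i) (B i) j hj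
  -- the values
  have hevA : ∀ᶠ t : ℝ in atTop, ∀ i, ∀ z : ℂ, z ∉ Λ.lattice → ℘[Λ] z = (((A i : ℝ) * t + B i : ℝ) : ℂ) →
      ∃ ε n₁ n₂ : ℤ, (ε = 1 ∨ ε = -1) ∧ z = -ε * F₀ ((A i : ℝ) * t + B i) + n₁ * Λ.ω₁ + n₂ * Λ.ω₂ ∧
        zeta Λ z = ε * F₁ ((A i : ℝ) * t + B i) + n₁ * (2 * zeta Λ (Λ.ω₁ / 2)) + n₂ * (2 * zeta Λ (Λ.ω₂ / 2)) := by
    rw [eventually_all]
    intro i
    have hAR : (0 : ℝ) < A i := by exact_mod_cast hA i
    have hlim : Tendsto (fun t : ℝ => (A i : ℝ) * t + B i) atTop atTop :=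
      tendsto_atTop_add_const_right _ _ (tendsto_id.const_mul_atTop hAR)
    exact hlim.eventually (hev.mono fun t ht => ht.2.2.2.2)
  obtain ⟨t₁, ht₁⟩ := eventually_atTop.1 hevA
  obtain ⟨M₁, hM₁⟩ := exists_nat_ge (|t₁| + ∑ i, |(b' i : ℝ)|)
  have hposx : ∀ {x : ℕ}, M₁ < x → ∀ j : Option (Fin s'), 0 < (x : ℝ) + ((j.elim 0 b' : ℤ) : ℝ) := fun {x} hx j => by
    have h5 : (M₁ : ℝ) < x := by exact_mod_cast hx
    have h6 : 0 ≤ ∑ i, |(b' i : ℝ)| := Finset.sum_nonneg fun i _ => abs_nonneg _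
    rcases j with _ | j
    · show 0 < (x : ℝ) + ((0 : ℤ) : ℝ)
      push_cast
      linarith [abs_nonneg t₁]
    · have h7 : |(b' j : ℝ)| ≤ ∑ i, |(b' i : ℝ)| := Finset.single_le_sum (f := fun i => |(b' i : ℝ)|) (fun _ _ => abs_nonneg _) (Finset.mem_univ j)
      have h8 := neg_abs_le (b' j : ℝ)
      show 0 < (x : ℝ) + ((b' j : ℤ) : ℝ)
      linarith [abs_nonneg t₁]
  -- the clusters
  have hσ : Fintype.card (Fin n ⊕ (Fin n ⊕ Option (Fin s'))) = (∑ i, ((f i).natDegree - 1)) + s' + 1 := by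
    rw [Fintype.card_sum, Fintype.card_sum, Fintype.card_option, Fintype.card_fin, Fintype.card_fin]
    simp only [hdeg]
    rw [Finset.sum_const, Finset.card_univ, Fintype.card_fin, smul_eq_mul]
    ring
  obtain ⟨G, hG⟩ := twist_den hKEY hSIM hPW hPRI hGFD hVAL f hodd hsq hlc hne b' hb' hb0' J hJ _ hσ (n + 1)
  refine ⟨G + 1, fun r δ D => ?_⟩
  obtain ⟨c, M₀, hc, hmain⟩ := hG (r + 4 * n + s + 5) δ (D * 2 ^ n)
  refine ⟨c, M₀ + M₁ + 1, hc, fun M hM w z y => ?_⟩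
  have hcardΘ : Fintype.card ((Fin 5 ⊕ Fin r) ⊕ (Fin n × Fin 4 ⊕ Fin s)) = r + 4 * n + s + 5 := by
    simp only [Fintype.card_sum, Fintype.card_prod, Fintype.card_fin]
    ring
  let eΘ : (Fin 5 ⊕ Fin r) ⊕ (Fin n × Fin 4 ⊕ Fin s) ≃ Fin (r + 4 * n + s + 5) := Fintype.equivFinOfCardEq hcardΘ
  set θ : Fin (r + 4 * n + s + 5) → ℂ := fun i => cstT Λ w z y (eΘ.symm i) with hθ
  have hθe : ∀ x, θ (eΘ x) = cstT Λ w z y x := fun x => by
    rw [hθ]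
    simp only [Equiv.symm_apply_apply]
  obtain ⟨S₀, hS₀, hm⟩ := hmain M (by omega) θ
  -- the exceptional integers
  let exc : Fin n → Finset ℕ := fun i => if h : ∃ x : ℕ, ℘[Λ] (z i) = (A i : ℂ) * x + B i then {h.choose} else ∅
  have hexc1 : ∀ i, (exc i).card ≤ 1 := fun i => by
    show (if h : ∃ x : ℕ, ℘[Λ] (z i) = (A i : ℂ) * x + B i then {h.choose} else ∅ : Finset ℕ).card ≤ 1
    split_ifs
    · simp
    · simp
  have hexc2 : ∀ i (x : ℕ), ℘[Λ] (z i) = (A i : ℂ) * x + B i → x ∈ exc i := fun i x hx => by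
    show x ∈ (if h : ∃ x : ℕ, ℘[Λ] (z i) = (A i : ℂ) * x + B i then {h.choose} else ∅ : Finset ℕ)
    have hex : ∃ x : ℕ, ℘[Λ] (z i) = (A i : ℂ) * x + B i := ⟨x, hx⟩
    rw [dif_pos hex, Finset.mem_singleton]
    have h5 : (A i : ℂ) * x + B i = (A i : ℂ) * (hex.choose : ℕ) + B i := hx.symm.trans hex.choose_spec
    have h6 : (A i : ℂ) ≠ 0 := by exact_mod_cast (hA i).ne'
    have h7 : (x : ℂ) = (hex.choose : ℕ) := by
      apply mul_left_cancel₀ h6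
      linear_combination h5
    exact_mod_cast h7
  refine ⟨S₀ ∪ Finset.univ.biUnion exc, ?_, fun m h4 h5 h6 p t hp ht K _ hK P hP h0 v => ?_⟩
  · have h5 := Finset.card_biUnion_le_card_mul Finset.univ exc 1 fun i _ => hexc1 i
    rw [Finset.card_univ, Fintype.card_fin, mul_one] at h5
    have h6 := Finset.card_union_le S₀ (Finset.univ.biUnion exc)
    omega
  have hmM : M₁ < m := by omega
  have hmexc : ∀ i, ℘[Λ] (z i) ≠ (A i : ℂ) * m + B i := fun i h => by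
    have h7 := h6 m (Finset.mem_union_right _ (Finset.mem_biUnion.2 ⟨i, Finset.mem_univ _, hexc2 i m h⟩))
    rw [sub_self, abs_zero] at h7
    push_cast at h7
    omega
  -- the field
  obtain ⟨K', hKK', hfin, hrk, hK'⟩ := ext_field (n := 2) (by norm_num) K (Finset.univ.image fun i => ℘'[Λ] (p i - z i)) (by
    intro x hx
    obtain ⟨i, -, rfl⟩ := Finset.mem_image.1 hx
    refine ⟨4 * (A i * m + B i) ^ 3 - g2 * (A i * m + B i) - g3, ?_⟩
    rw [Λ.derivWeierstrassP_sq _ (hp i).2.1, (hp i).2.2, h2, h3]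
    push_cast
    ring)
  have hcardK : (Finset.univ.image fun i => ℘'[Λ] (p i - z i)).card ≤ n := by
    refine Finset.card_image_le.trans ?_
    rw [Finset.card_univ, Fintype.card_fin]
  have hrk' : finrank ℚ K' ≤ D * 2 ^ n :=
    hrk.trans (Nat.mul_le_mul hK (Nat.pow_le_pow_right (by norm_num) hcardK))
  -- the logarithms
  set t' : Option (Fin s') → ℂ := Function.extend emb t
    (fun o => ((Real.log ((m : ℝ) + ((o.elim 0 b' : ℤ) : ℝ)) : ℝ) : ℂ)) with ht'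
  set y' : Option (Fin s') → ℂ := Function.extend emb y (fun _ => 0) with hy'
  have hexp : ∀ o, Complex.exp (t' o - y' o) = (m : ℂ) + ((o.elim 0 b' : ℤ) : ℂ) := by
    intro o
    by_cases ho : ∃ j, emb j = o
    · obtain ⟨j, rfl⟩ := ho
      rw [ht', hy', hemb.extend_apply, hemb.extend_apply, ht j, hbe j]
    · rw [ht', hy', Function.extend_apply' _ _ _ ho, Function.extend_apply' _ _ _ ho, sub_zero, ← Complex.ofReal_exp,
        Real.exp_log (hposx hmM o)]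
      push_cast
      rfl
  set w' : Fin n ⊕ (Fin n ⊕ Option (Fin s')) → ℂ := valE Λ p t' with hw'
  set V : Submodule K' ℂ := Submodule.span K' (insert 1 (Set.range w' ∪ Set.range θ)) with hV
  have h1V : (1 : ℂ) ∈ V := Submodule.subset_span (Set.mem_insert _ _)
  have hVw : ∀ x, w' x ∈ V := fun x => Submodule.subset_span (Set.mem_insert_of_mem _ (Or.inl ⟨x, rfl⟩))
  have hVθ : ∀ x, cstT Λ w z y x ∈ V := fun x => Submodule.subset_span (Set.mem_insert_of_mem _ (Or.inr ⟨eΘ x, hθe x⟩))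
  have hVK : ∀ x : ℂ, x ∈ K' → x ∈ V := fun x hx => by
    have h7 : x = ((⟨x, hx⟩ : K') : K') • (1 : ℂ) := by
      rw [Algebra.smul_def, mul_one]
      rfl
    rw [h7]
    exact Submodule.smul_mem _ _ h1V
  have hVy : ∀ o, y' o ∈ V := by
    intro o
    by_cases ho : ∃ j, emb j = o
    · obtain ⟨j, rfl⟩ := ho
      rw [hy', hemb.extend_apply]
      exact hVθ (Sum.inr (Sum.inr j))
    · rw [hy', Function.extend_apply' _ _ _ ho]
      exact Submodule.zero_mem _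
  have hlg : ∀ o : Option (Fin s'), ((Real.log ((m : ℝ) + ((o.elim 0 b' : ℤ) : ℝ)) : ℝ) : ℂ) ∈ V := fun o => by
    have h8 : Complex.exp (t' o - y' o) = Complex.exp ((Real.log ((m : ℝ) + ((o.elim 0 b' : ℤ) : ℝ)) : ℝ) : ℂ) := by
      rw [hexp o, ← Complex.ofReal_exp, Real.exp_log (hposx hmM o)]
      push_cast
      rfl
    obtain ⟨q, hq⟩ := Complex.exp_eq_exp_iff_exists_int.1 h8
    have h9 : ((Real.log ((m : ℝ) + ((o.elim 0 b' : ℤ) : ℝ)) : ℝ) : ℂ) = (t' o - y' o) - (q : ℂ) * (2 * Real.pi * Complex.I) := by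
      rw [hq]
      ring
    rw [h9]
    exact Submodule.sub_mem _ (Submodule.sub_mem _ (hVw (Sum.inr (Sum.inr o))) (hVy o)) (zmul_mem _ (hVθ (Sum.inl (Sum.inl 4))))
  have hlg0 : ((Real.log m : ℝ) : ℂ) ∈ V := by
    have := hlg none
    simpa using this
  -- the points
  have hx' : t₁ ≤ (m : ℝ) := by
    have h7 : (M₁ : ℝ) < m := by exact_mod_cast hmM
    have h8 : 0 ≤ ∑ i, |(b' i : ℝ)| := Finset.sum_nonneg fun i _ => abs_nonneg _
    linarith [le_abs_self t₁]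
  have hcst : ∀ i, (((A i : ℝ) * m + B i : ℝ) : ℂ) = (A i : ℂ) * m + B i := fun i => by push_cast; rfl
  have hpt : ∀ i, ∃ γ : ℂ, γ ≠ 0 ∧ γ ∈ V ∧ ∀ j, γ * J i j (m : ℝ) ∈ V ^ 2 := fun i => by
    refine J_den Λ (ht₁ m hx' i) V h1V (z := z i) (p := p i) (hp i).1 (hp i).2.1 ((hp i).2.2.trans (hcst i).symm)
      (fun h => hmexc i (h.trans (hcst i))) ?_ (hVw (Sum.inl i)) (hVw (Sum.inr (Sum.inl i))) (hVθ (Sum.inr (Sum.inl (i, 0))))
      (hVθ (Sum.inr (Sum.inl (i, 1)))) (hVθ (Sum.inr (Sum.inl (i, 2)))) (hVθ (Sum.inr (Sum.inl (i, 3))))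
      (hVK _ (hK' _ (Finset.mem_image_of_mem _ (Finset.mem_univ _)))) (hVθ (Sum.inl (Sum.inl 0))) (hVθ (Sum.inl (Sum.inl 1)))
      (hVθ (Sum.inl (Sum.inl 2))) (hVθ (Sum.inl (Sum.inl 3)))
    have h7 : (((A i : ℝ) * m + B i : ℝ) : ℂ) = ((A i * m + B i : ℚ) : ℂ) * 1 := by push_cast; ring
    rw [h7]
    exact Pool.Agent.Y124.TG.mQ _ h1V
  choose γ hγ0 hγV hγJ using hpt
  have hγn : (∏ i, γ i) ∈ V ^ n := by
    have h7 := mem_pow_prod (W := V) Finset.univ (fun _ : Fin n => 1) γ fun i _ => by rw [pow_one]; exact hγV i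
    rwa [Finset.sum_const, Finset.card_univ, Fintype.card_fin, smul_eq_mul, mul_one] at h7
  have hγl : ∀ {x : ℂ}, x ∈ V → (∏ i, γ i) * x ∈ V ^ (n + 1) := fun {x} hx => pow_mem_add hγn (by rw [pow_one]; exact hx)
  have hγJ' : ∀ i j, (∏ i, γ i) * J i j (m : ℝ) ∈ V ^ (n + 1) := fun i j => by
    have h7 : (∏ i, γ i) * J i j (m : ℝ) = (∏ i' ∈ Finset.univ.erase i, γ i') * (γ i * J i j (m : ℝ)) := by
      rw [← Finset.mul_prod_erase Finset.univ γ (Finset.mem_univ i)]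
      ring
    rw [h7]
    have h8 := mem_pow_prod (W := V) (Finset.univ.erase i) (fun _ : Fin n => 1) γ fun i _ => by rw [pow_one]; exact hγV i
    rw [Finset.sum_const, Finset.card_erase_of_mem (Finset.mem_univ i), Finset.card_univ, Fintype.card_fin, smul_eq_mul, mul_one] at h8
    have h9 := pow_mem_add h8 (hγJ i j)
    have h10 : n - 1 + 2 = n + 1 := by
      have := i.2
      omega
    rwa [h10] at h9
  -- the polynomial
  let ι : (Fin 5 ⊕ Fin r) ⊕ (Fin n ⊕ (Fin n ⊕ Fin s)) → Fin (r + 4 * n + s + 5) ⊕ (Fin n ⊕ (Fin n ⊕ Option (Fin s'))) :=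
    Sum.map (fun x => eΘ (Sum.inl x)) (Sum.map id (Sum.map id emb))
  have hinj2 : Function.Injective (Sum.map id (Sum.map id emb) : Fin n ⊕ (Fin n ⊕ Fin s) → Fin n ⊕ (Fin n ⊕ Option (Fin s'))) :=
    Function.injective_id.sumMap (Function.injective_id.sumMap hemb)
  have hι : Function.Injective ι := (eΘ.injective.comp Sum.inl_injective).sumMap hinj2
  have hι0 : ∀ y : Fin n ⊕ (Fin n ⊕ Option (Fin s')) → ℂ, Sum.elim θ y ∘ ι = Sum.elim (cstE Λ w) (y ∘ Sum.map id (Sum.map id emb)) := by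
    intro y
    funext x
    rcases x with x | x
    · exact hθe (Sum.inl x)
    · rfl
  have hwv : w' ∘ Sum.map id (Sum.map id emb) = valE Λ p t := by
    funext x
    rcases x with x | x | x
    · rfl
    · rfl
    · show t' (emb x) = t x
      rw [ht', hemb.extend_apply]
  have hmap : ∀ (x : (Fin 5 ⊕ Fin r) ⊕ (Fin n ⊕ (Fin n ⊕ Fin s)) → ℂ),
      MvPolynomial.aeval x (MvPolynomial.map ((IntermediateField.inclusion hKK').toRingHom) P) = MvPolynomial.aeval x P := fun x => by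
    rw [MvPolynomial.aeval_def, MvPolynomial.eval₂_map, MvPolynomial.aeval_def]
    rfl
  have hP' : ∀ x, (MvPolynomial.map ((IntermediateField.inclusion hKK').toRingHom) P).degreeOf x ≤ δ := fun x => by
    refine le_trans ?_ (hP x)
    rw [MvPolynomial.degreeOf_eq_sup, MvPolynomial.degreeOf_eq_sup]
    exact Finset.sup_mono (MvPolynomial.support_map_subset _ _)
  have h7 := hm m h4 h5 (fun x hx => by
    have h8 := h6 x (Finset.mem_union_left _ hx)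
    push_cast at h8
    linarith) K' hrk' w' (∏ i, γ i) (Finset.prod_ne_zero_iff.2 fun i _ => hγ0 i) (pow_mem_mono h1V (Nat.le_succ n) hγn)
    (hγl hlg0) (fun i j _ => hγJ' i j) (fun i => by
      have e1 : (0 : ℝ) < m := by
        have := hposx hmM none
        simpa using this
      have e2 := hposx hmM (some i)
      have e3 : Real.log (1 + b' i / m) = Real.log ((m : ℝ) + (((some i).elim 0 b' : ℤ) : ℝ)) - Real.log (m) := by
        rw [← Real.log_div e2.ne' e1.ne']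
        congr 1
        show 1 + (b' i : ℝ) / m = ((m : ℝ) + ((b' i : ℤ) : ℝ)) / m
        field_simp
      rw [e3, Complex.ofReal_sub]
      exact hγl (Submodule.sub_mem _ (hlg (some i)) hlg0))
    (MvPolynomial.rename ι (MvPolynomial.map ((IntermediateField.inclusion hKK').toRingHom) P)) (degreeOf_rename_le ι hι _ hP') (by
      rw [MvPolynomial.aeval_rename, hι0, hwv, hmap]
      exact h0)
  have h8 := subst_eval θ (MvPolynomial.rename ι (MvPolynomial.map ((IntermediateField.inclusion hKK').toRingHom) P))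
    (Function.extend (Sum.map id (Sum.map id emb)) v 0)
  rw [h7, map_zero, MvPolynomial.aeval_rename, hι0, hmap] at h8
  rw [h8]
  congr 3
  funext x
  exact (hinj2.extend_apply v 0 x).symm

end Pool.Agent.P8H40.SE
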