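import Pool.Agent.P8H40.SE.EllP

/-!
# Elliptic and usual logarithms of points at all tuples of nearby integers
-/

set_option autoImplicit false

open Polynomial Filter Module
open scoped PeriodPair

namespace Pool.Agent.P8H40.SE

/-- the places -/
abbrev PlE (n s k : ℕ) : Type := (Fin (k + 1) × (Fin n ⊕ (Fin n ⊕ Fin s))) ⊕ Fin 5

/-- the numbers -/
noncomputable def numE (Λ : PeriodPair) {n s k : ℕ} (p : Fin (k + 1) → Fin n → ℂ) (t : Fin (k + 1) → Fin s → ℂ) :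
    PlE n s k → ℂ :=
  Sum.elim (fun x => Sum.elim (fun i => p x.1 i) (Sum.elim (fun i => zeta Λ (p x.1 i)) (fun j => t x.1 j)) x.2)
    ![Λ.ω₁, Λ.ω₂, 2 * zeta Λ (Λ.ω₁ / 2), 2 * zeta Λ (Λ.ω₂ / 2), 2 * Real.pi * Complex.I]

lemma zmul_mem {K : IntermediateField ℚ ℂ} {V : Submodule K ℂ} (n : ℤ) {x : ℂ} (hx : x ∈ V) : (n : ℂ) * x ∈ V := by
  have := Pool.Agent.Y124.TG.mQ (W := V) (n : ℚ) hx
  push_cast at this
  exact this

theorem ell_main (hKEY : S_KEY) (hSIM : S_SIM) (hPW : S_PW) (hPRI : S_PRI) (hGFD : S_GFD) (hVAL : S_VAL) (hELL : S_ELL)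
    (Λ : PeriodPair) (g2 g3 : ℚ) (h2 : Λ.g₂ = (g2 : ℂ)) (h3 : Λ.g₃ = (g3 : ℂ)) {n s : ℕ} (A B : Fin n → ℚ)
    (hA : ∀ i, 0 < A i) (hAB : Function.Injective fun i => (A i, B i)) (b : Fin s → ℤ) (hb : Function.Injective b) :
    ∃ G : ℕ, ∀ k δ D : ℕ, ∃ (c : ℝ) (M₀ : ℕ), 0 < c ∧ ∀ M : ℕ, M₀ ≤ M → ∀ m : Fin (k + 1) → ℕ,
      (∀ l, M ≤ m l ∧ (m l : ℝ) ≤ M + (M : ℝ) ^ c) → (∀ l l', l ≠ l' → (G : ℤ) ≤ |(m l : ℤ) - m l'|) →
      ∀ (p : Fin (k + 1) → Fin n → ℂ) (t : Fin (k + 1) → Fin s → ℂ),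
        (∀ l i, p l i ∉ Λ.lattice ∧ ℘[Λ] (p l i) = (A i : ℂ) * m l + B i) → (∀ l j, Complex.exp (t l j) = (m l : ℂ) + b j) →
        ∀ (K : IntermediateField ℚ ℂ) [FiniteDimensional ℚ K], finrank ℚ K ≤ D →
          ∃ σ : Fin ((k + 1) * (2 * n + s) - min s 1) → PlE n s k, Function.Injective σ ∧
            Pool.Agent.Y124.TD.LIb K δ (fun i => numE Λ p t (σ i)) := by
  classical
  obtain ⟨F₀, F₁, G₀, G₁, hG₀, hG₁, hev⟩ := hELL Λ (g2 : ℝ) (g3 : ℝ) (by rw [h2]; push_cast; rfl) (by rw [h3]; push_cast; rfl)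
  set f : Fin n → ℚ[X] := fun i => cubAB g2 g3 (A i) (B i) with hf
  set J : Fin n → ℕ → ℝ → ℂ := fun i => JE F₀ F₁ (A i) (B i) with hJdef
  have hdeg : ∀ i, (f i).natDegree = 3 := fun i => cubAB_natDegree g2 g3 (B i) (hA i)
  have hodd : ∀ i, Odd (f i).natDegree := fun i => by rw [hdeg i]; decide
  have hsq : ∀ i, Squarefree (f i) := fun i => cubAB_squarefree Λ h2 h3 (B i) (hA i)
  have hlc : ∀ i, 0 < (f i).leadingCoeff := fun i => cubAB_lc g2 g3 (B i) (hA i)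
  have hne : ∀ i i', i ≠ i' → ∀ c : ℚ, f i ≠ C c * f i' := fun i i' hii c h => by
    obtain ⟨e1, e2⟩ := cubAB_inj Λ h2 h3 (hA i) (hA i') h
    exact hii (hAB (Prod.ext e1 e2))
  have hJ : ∀ i j, j + 2 ≤ (f i).natDegree → IsPrimQ (f i) j (J i j) := fun i j hj => by
    rw [hdeg i] at hj
    exact JE_prim hG₀ hG₁ (hev.mono fun t ht => ⟨ht.1, ht.2.1, ht.2.2.1, ht.2.2.2.1⟩) (hA i) (B i) j hj
  -- the values
  have hevA : ∀ᶠ t : ℝ in atTop, ∀ i, ∀ z : ℂ, z ∉ Λ.lattice → ℘[Λ] z = (((A i : ℝ) * t + B i : ℝ) : ℂ) →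
      ∃ ε n₁ n₂ : ℤ, (ε = 1 ∨ ε = -1) ∧ z = -ε * F₀ ((A i : ℝ) * t + B i) + n₁ * Λ.ω₁ + n₂ * Λ.ω₂ ∧
        zeta Λ z = ε * F₁ ((A i : ℝ) * t + B i) + n₁ * (2 * zeta Λ (Λ.ω₁ / 2)) + n₂ * (2 * zeta Λ (Λ.ω₂ / 2)) := by
    rw [eventually_all]
    intro i
    have hAR : (0 : ℝ) < A i := by exact_mod_cast hA i
    have hlim : Tendsto (fun t : ℝ => (A i : ℝ) * t + B i) atTop atTop :=
      tendsto_atTop_add_const_right _ _ (tendsto_id.const_mul_atTop hAR)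
    exact hlim.eventually (hev.mono fun t ht => ht.2.2.2.2)
  obtain ⟨t₁, ht₁⟩ := eventually_atTop.1 hevA
  obtain ⟨M₁, hM₁⟩ := exists_nat_ge (|t₁| + ∑ i, |(b i : ℝ)|)
  have hJmem : ∀ {K : IntermediateField ℚ ℂ} (V : Submodule K ℂ) (x : ℕ), M₁ ≤ x → ∀ (i : Fin n) (z : ℂ), z ∉ Λ.lattice →
      ℘[Λ] z = (A i : ℂ) * x + B i → z ∈ V → zeta Λ z ∈ V → Λ.ω₁ ∈ V → Λ.ω₂ ∈ V → 2 * zeta Λ (Λ.ω₁ / 2) ∈ V →
      2 * zeta Λ (Λ.ω₂ / 2) ∈ V → ∀ j : ℕ, J i j (x : ℝ) ∈ V := by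
    intro K V x hx i z hz hzw v1 v2 v3 v4 v5 v6 j
    have hx' : t₁ ≤ (x : ℝ) := by
      have h5 : (M₁ : ℝ) ≤ x := by exact_mod_cast hx
      have h6 : 0 ≤ ∑ i, |(b i : ℝ)| := Finset.sum_nonneg fun i _ => abs_nonneg _
      linarith [le_abs_self t₁]
    obtain ⟨ε, n₁, n₂, hε, e1, e2⟩ := ht₁ x hx' i z hz (by rw [hzw]; push_cast; rfl)
    have hε2 : (ε : ℂ) * ε = 1 := by rcases hε with rfl | rfl <;> norm_num
    have m0 : F₀ ((A i : ℝ) * x + B i) ∈ V := by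
      have : F₀ ((A i : ℝ) * x + B i) = (ε : ℂ) * ((n₁ : ℂ) * Λ.ω₁ + (n₂ : ℂ) * Λ.ω₂ - z) := by
        rw [e1]
        linear_combination (-F₀ ((A i : ℝ) * x + B i)) * hε2
      rw [this]
      exact zmul_mem _ (Submodule.sub_mem _ (Submodule.add_mem _ (zmul_mem _ v3) (zmul_mem _ v4)) v1)
    have m1 : F₁ ((A i : ℝ) * x + B i) ∈ V := by
      have : F₁ ((A i : ℝ) * x + B i) = (ε : ℂ) * (zeta Λ z - (n₁ : ℂ) * (2 * zeta Λ (Λ.ω₁ / 2)) - (n₂ : ℂ) * (2 * zeta Λ (Λ.ω₂ / 2))) := by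
        rw [e2]
        linear_combination (-F₁ ((A i : ℝ) * x + B i)) * hε2
      rw [this]
      exact zmul_mem _ (Submodule.sub_mem _ (Submodule.sub_mem _ v2 (zmul_mem _ v5)) (zmul_mem _ v6))
    show JE F₀ F₁ (A i) (B i) j (x : ℝ) ∈ V
    unfold JE
    have q1 : ((A i : ℂ))⁻¹ = (((A i)⁻¹ : ℚ) : ℂ) := by push_cast; rfl
    split_ifs
    · rw [q1]
      exact Pool.Agent.Y124.TG.mQ _ m0
    · have q2 : (((A i : ℂ))⁻¹) ^ 2 = ((((A i)⁻¹) ^ 2 : ℚ) : ℂ) := by push_cast; rfl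
      rw [q2]
      exact Pool.Agent.Y124.TG.mQ _ (Submodule.sub_mem _ m1 (Pool.Agent.Y124.TG.mQ _ m0))
  have hlogmem : ∀ {K : IntermediateField ℚ ℂ} (V : Submodule K ℂ) (x : ℕ), M₁ < x → ∀ (j : Fin s) (z : ℂ),
      Complex.exp z = (x : ℂ) + b j → z ∈ V → 2 * Real.pi * Complex.I ∈ V → ((Real.log ((x : ℝ) + b j) : ℝ) : ℂ) ∈ V := by
    intro K V x hx j z hz v1 v2
    have hpos : 0 < (x : ℝ) + b j := by
      have h5 : (M₁ : ℝ) < x := by exact_mod_cast hx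
      have h6 : |(b j : ℝ)| ≤ ∑ i, |(b i : ℝ)| := Finset.single_le_sum (f := fun i => |(b i : ℝ)|) (fun _ _ => abs_nonneg _) (Finset.mem_univ j)
      have h7 := neg_abs_le (b j : ℝ)
      linarith [abs_nonneg t₁]
    have h8 : Complex.exp z = Complex.exp ((Real.log ((x : ℝ) + b j) : ℝ) : ℂ) := by
      rw [hz, ← Complex.ofReal_exp, Real.exp_log hpos]
      push_cast
      rfl
    obtain ⟨q, hq⟩ := Complex.exp_eq_exp_iff_exists_int.1 h8
    have h9 : ((Real.log ((x : ℝ) + b j) : ℝ) : ℂ) = z - (q : ℂ) * (2 * Real.pi * Complex.I) := by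
      rw [hq]
      ring
    rw [h9]
    exact Submodule.sub_mem _ v1 (zmul_mem _ v2)
  have hcardP : ∀ k, Fintype.card (PlE n s k) = (k + 1) * (n + (n + s)) + 5 := fun k => by
    rw [Fintype.card_sum, Fintype.card_prod, Fintype.card_sum, Fintype.card_sum, Fintype.card_fin, Fintype.card_fin, Fintype.card_fin,
      Fintype.card_fin]
  have hposx : ∀ {x : ℕ}, M₁ < x → ∀ j : Fin s, 0 < (x : ℝ) + b j := fun {x} hx j => by
    have h5 : (M₁ : ℝ) < x := by exact_mod_cast hx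
    have h6 : |(b j : ℝ)| ≤ ∑ i, |(b i : ℝ)| := Finset.single_le_sum (f := fun i => |(b i : ℝ)|) (fun _ _ => abs_nonneg _) (Finset.mem_univ j)
    have h7 := neg_abs_le (b j : ℝ)
    linarith [abs_nonneg t₁]
  -- the three cases
  have step : ∀ (s' : ℕ) (b' : Fin s' → ℤ), Function.Injective b' → (∀ i, b' i ≠ 0) →
      ∃ G : ℕ, ∀ k r δ D e : ℕ, ∃ (c : ℝ) (M₀ : ℕ), 0 < c ∧ ∀ M : ℕ, M₀ ≤ M → ∀ m : Fin (k + 1) → ℕ,
      (∀ l, M ≤ m l ∧ (m l : ℝ) ≤ M + (M : ℝ) ^ c) → (∀ l l', l ≠ l' → (G : ℤ) ≤ |(m l : ℤ) - m l'|) →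
      ∀ (p : Fin (k + 1) → Fin n → ℂ) (t : Fin (k + 1) → Fin s → ℂ),
        (∀ l i, p l i ∉ Λ.lattice ∧ ℘[Λ] (p l i) = (A i : ℂ) * m l + B i) →
        ∀ (K : IntermediateField ℚ ℂ) [FiniteDimensional ℚ K], finrank ℚ K ≤ D →
        ∀ (T : Type) [Fintype T], Fintype.card T = e → ∀ φ : T → Idq f s' k, Function.Injective φ → ∀ θ : Fin r → ℂ,
          (∀ V : Submodule K ℂ, (1 : ℂ) ∈ V → (∀ x, numE Λ p t x ∈ V) → (∀ i, θ i ∈ V) →
            ∀ x : T, (∀ l y, φ x ≠ Sum.inl (l, Sum.inl y)) → numq f b' J m (φ x) ∈ V) →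
          ∃ σ : Fin (e - r) → PlE n s k, Function.Injective σ ∧
            Pool.Agent.Y124.TD.LIb K δ (fun i => numE Λ p t (σ i)) := by
    intro s' b' hb' hb0'
    obtain ⟨G, hG⟩ := twist_main hKEY hSIM hPW hPRI hGFD hVAL f hodd hsq hlc hne b' hb' hb0' J hJ
    refine ⟨G, fun k r δ D e => ?_⟩
    obtain ⟨c, M₂, hc, hmain⟩ := hG k r δ D ((k + 1) * (n + (n + s)) + 5) e
    refine ⟨c, M₁ + M₂, hc, fun M hM m hm hsep p t hp K _ hK T _ hT φ hφ θ hθ => ?_⟩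
    refine hmain M (by omega) m hm hsep K hK (PlE n s k) (hcardP k) T hT φ hφ θ (numE Λ p t) fun x => ?_
    set V := Submodule.span K (insert 1 (Set.range (numE Λ p t) ∪ Set.range θ)) with hV
    have hV1 : (1 : ℂ) ∈ V := Submodule.subset_span (Set.mem_insert _ _)
    have hVn : ∀ x, numE Λ p t x ∈ V := fun x => Submodule.subset_span (Set.mem_insert_of_mem _ (Or.inl ⟨x, rfl⟩))
    have hVθ : ∀ i, θ i ∈ V := fun i => Submodule.subset_span (Set.mem_insert_of_mem _ (Or.inr ⟨i, rfl⟩))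
    by_cases hx : ∀ l y, φ x ≠ Sum.inl (l, Sum.inl y)
    · exact hθ V hV1 hVn hVθ x hx
    · push Not at hx
      obtain ⟨l, y, hx⟩ := hx
      rw [hx]
      show J y.1 y.2 (m l) ∈ V
      refine hJmem V (m l) (by have := (hm l).1; omega) y.1 (p l y.1) (hp l y.1).1 (hp l y.1).2 (hVn (Sum.inl (l, Sum.inl y.1)))
        (hVn (Sum.inl (l, Sum.inr (Sum.inl y.1)))) (hVn (Sum.inr 0)) (hVn (Sum.inr 1)) (hVn (Sum.inr 2)) (hVn (Sum.inr 3)) _
  have hcardI : ∀ s' k : ℕ, Fintype.card (Idq f s' k) = (k + 1) * (2 * n + s') + k := by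
    intro s' k
    rw [Fintype.card_sum, Fintype.card_prod, Fintype.card_sum, Fintype.card_sigma, Fintype.card_fin, Fintype.card_fin,
      Fintype.card_fin]
    simp only [Fintype.card_fin, hdeg]
    rw [Finset.sum_const, Finset.card_univ, Fintype.card_fin, smul_eq_mul]
    ring
  have hMcast : ∀ {x : ℕ}, M₁ < x → (0 : ℝ) < x := fun {x} hx => by
    have : 0 < x := by omega
    exact_mod_cast this
  rcases Nat.eq_zero_or_pos s with hs0 | hs0
  · -- no logarithms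
    subst hs0
    obtain ⟨G, hG⟩ := step 0 (fun i => i.elim0) (fun i => i.elim0) (fun i => i.elim0)
    refine ⟨G, fun k δ D => ?_⟩
    obtain ⟨c, M₂, hc, hmain⟩ := hG k 0 δ D ((k + 1) * (n * 2))
    refine ⟨c, M₂, hc, fun M hM m hm hsep p t hp ht K _ hK => ?_⟩
    have h10 : (k + 1) * (2 * n + 0) - min 0 1 = (k + 1) * (n * 2) - 0 := by
      rw [add_zero, mul_comm 2 n]
      simp
    rw [h10]
    refine hmain M hM m hm hsep p t hp K hK (Fin (k + 1) × (Fin n × Fin 2)) (by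
      rw [Fintype.card_prod, Fintype.card_prod, Fintype.card_fin, Fintype.card_fin, Fintype.card_fin])
      (fun x => Sum.inl (x.1, Sum.inl ⟨x.2.1, ⟨(x.2.2 : ℕ), by rw [hdeg]; exact x.2.2.2⟩⟩)) ?_ (fun i => i.elim0) ?_
    · rintro ⟨l, i, j⟩ ⟨l', i', j'⟩ h
      simp only [Sum.inl.injEq, Prod.mk.injEq, Sigma.mk.injEq] at h
      obtain ⟨rfl, rfl, h3⟩ := h
      have h4 := eq_of_heq h3
      have h5 : j = j' := Fin.ext (by simpa using h4)
      rw [h5]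
    · intro V _ _ _ x hx
      exact absurd rfl (hx _ _)
  · by_cases hb0 : ∀ j, b j ≠ 0
    · -- the logarithms of the `m l` are constants
      obtain ⟨G, hG⟩ := step s b hb hb0
      refine ⟨G, fun k δ D => ?_⟩
      obtain ⟨c, M₂, hc, hmain⟩ := hG k (k + 1) δ D ((k + 1) * (2 * n + s) + k)
      refine ⟨c, M₂ + M₁ + 1, hc, fun M hM m hm hsep p t hp ht K _ hK => ?_⟩
      have h10 : (k + 1) * (2 * n + s) - min s 1 = (k + 1) * (2 * n + s) + k - (k + 1) := by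
        rw [min_eq_right hs0]
        omega
      rw [h10]
      refine hmain M (by omega) m hm hsep p t hp K hK (Idq f s k) (hcardI s k) id Function.injective_id
        (fun l => ((Real.log (m l) : ℝ) : ℂ)) ?_
      have hml : ∀ l, M₁ < m l := fun l => by
        have := (hm l).1
        omega
      rintro V hV1 hVn hVθ (⟨l, y | i⟩ | l) hx
      · exact absurd rfl (hx l y)
      · show ((Real.log (1 + b i / m l) : ℝ) : ℂ) ∈ V
        have e1 := hMcast (hml l)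
        have e2 := hposx (hml l) i
        have e3 : Real.log (1 + b i / m l) = Real.log ((m l : ℝ) + b i) - Real.log (m l) := by
          rw [← Real.log_div e2.ne' e1.ne']
          congr 1
          field_simp
        rw [e3, Complex.ofReal_sub]
        exact Submodule.sub_mem _ (hlogmem V (m l) (hml l) i (t l i) (ht l i) (hVn (Sum.inl (l, Sum.inr (Sum.inr i))))
          (hVn (Sum.inr 4))) (hVθ l)
      · show ((Real.log (m l.succ / m 0) : ℝ) : ℂ) ∈ V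
        rw [Real.log_div (hMcast (hml _)).ne' (hMcast (hml _)).ne', Complex.ofReal_sub]
        exact Submodule.sub_mem _ (hVθ _) (hVθ _)
    · push Not at hb0
      obtain ⟨j0, hj0⟩ := hb0
      obtain ⟨s', rfl⟩ : ∃ s', s = s' + 1 := ⟨s - 1, by omega⟩
      obtain ⟨G, hG⟩ := step s' (fun i => b (j0.succAbove i)) (hb.comp Fin.succAbove_right_injective) (fun i h => by
        have h5 : b (j0.succAbove i) = b j0 := by rw [hj0]; exact h
        exact Fin.succAbove_ne j0 i (hb h5))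
      refine ⟨G, fun k δ D => ?_⟩
      obtain ⟨c, M₂, hc, hmain⟩ := hG k 0 δ D ((k + 1) * (2 * n + s') + k)
      refine ⟨c, M₂ + M₁ + 1, hc, fun M hM m hm hsep p t hp ht K _ hK => ?_⟩
      have h10 : (k + 1) * (2 * n + (s' + 1)) - min (s' + 1) 1 = (k + 1) * (2 * n + s') + k - 0 := by
        rw [min_eq_right hs0]
        have : (k + 1) * (2 * n + (s' + 1)) = (k + 1) * (2 * n + s') + k + 1 := by ring
        omega
      rw [h10]
      refine hmain M (by omega) m hm hsep p t hp K hK (Idq f s' k) (hcardI s' k) id Function.injective_id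
        (fun i => i.elim0) ?_
      have hml : ∀ l, M₁ < m l := fun l => by
        have := (hm l).1
        omega
      have hlog0 : ∀ (V : Submodule K ℂ), (∀ x, numE Λ p t x ∈ V) → ∀ l, ((Real.log (m l) : ℝ) : ℂ) ∈ V := by
        intro V hVn l
        have h5 := hlogmem V (m l) (hml l) j0 (t l j0) (ht l j0) (hVn (Sum.inl (l, Sum.inr (Sum.inr j0)))) (hVn (Sum.inr 4))
        rw [hj0] at h5
        simpa using h5
      rintro V hV1 hVn hVθ (⟨l, y | i⟩ | l) hx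
      · exact absurd rfl (hx l y)
      · show ((Real.log (1 + b (j0.succAbove i) / m l) : ℝ) : ℂ) ∈ V
        have e1 := hMcast (hml l)
        have e2 := hposx (hml l) (j0.succAbove i)
        have e3 : Real.log (1 + b (j0.succAbove i) / m l) = Real.log ((m l : ℝ) + b (j0.succAbove i)) - Real.log (m l) := by
          rw [← Real.log_div e2.ne' e1.ne']
          congr 1
          field_simp
        rw [e3, Complex.ofReal_sub]
        exact Submodule.sub_mem _ (hlogmem V (m l) (hml l) (j0.succAbove i) (t l _) (ht l _)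
          (hVn (Sum.inl (l, Sum.inr (Sum.inr _)))) (hVn (Sum.inr 4))) (hlog0 V hVn l)
      · show ((Real.log (m l.succ / m 0) : ℝ) : ℂ) ∈ V
        rw [Real.log_div (hMcast (hml _)).ne' (hMcast (hml _)).ne', Complex.ofReal_sub]
        exact Submodule.sub_mem _ (hlog0 V hVn _) (hlog0 V hVn _)

end Pool.Agent.P8H40.SE
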