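import Pool.Agent.P8H40.SE.Cub

/-!
# Elliptic logarithms of points with abscissa `A t + B`
-/

set_option autoImplicit false

open Polynomial Filter Module Topology
open scoped PeriodPair

namespace Pool.Agent.P8H40.SE

/-- affine substitutions -/
lemma sub_form {F : ℝ → ℂ} {e : ℝ} {G : ℂ → ℂ} (hG : AnalyticAt ℂ G 0)
    (hF : ∀ᶠ t : ℝ in atTop, F t = ((t ^ e : ℝ) : ℂ) * G (1 / (t : ℂ))) {A B : ℝ} (hA : 0 < A) :
    ∃ G' : ℂ → ℂ, AnalyticAt ℂ G' 0 ∧ ∀ᶠ t : ℝ in atTop, F (A * t + B) = ((t ^ e : ℝ) : ℂ) * G' (1 / (t : ℂ)) := by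
  have hlim : Tendsto (fun t : ℝ => A * t + B) atTop atTop :=
    tendsto_atTop_add_const_right _ _ (tendsto_id.const_mul_atTop hA)
  have hA0 : (A : ℂ) ≠ 0 := by exact_mod_cast hA.ne'
  refine ⟨fun u => ((A : ℂ) + B * u) ^ (e : ℂ) * G (u / ((A : ℂ) + B * u)), ?_, ?_⟩
  · have h1 : AnalyticAt ℂ (fun u : ℂ => (A : ℂ) + B * u) 0 := analyticAt_const.add (analyticAt_const.mul analyticAt_id)
    have h2 : AnalyticAt ℂ (fun u : ℂ => ((A : ℂ) + B * u) ^ (e : ℂ)) 0 := by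
      refine h1.cpow analyticAt_const ?_
      show (A : ℂ) + B * 0 ∈ Complex.slitPlane
      rw [mul_zero, add_zero]
      exact Complex.ofReal_mem_slitPlane.2 hA
    have h3 : AnalyticAt ℂ (fun u : ℂ => u / ((A : ℂ) + B * u)) 0 := by
      refine analyticAt_id.div h1 ?_
      rw [mul_zero, add_zero]
      exact hA0
    exact h2.mul (hG.comp_of_eq h3 (by simp))
  · filter_upwards [hlim.eventually hF, hlim.eventually_gt_atTop 0, eventually_gt_atTop 0] with t ht ht1 ht0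
    rw [ht]
    have e1 : A * t + B = t * (A + B / t) := by field_simp
    have e2 : 0 < A + B / t := by
      rw [e1] at ht1
      exact (pos_iff_pos_of_mul_pos ht1).1 ht0
    have e3 : (A * t + B) ^ e = t ^ e * (A + B / t) ^ e := by
      rw [e1, Real.mul_rpow ht0.le e2.le]
    have e4 : ((A : ℂ) + B * (1 / (t : ℂ))) ^ (e : ℂ) = (((A + B / t) ^ e : ℝ) : ℂ) := by
      rw [Complex.ofReal_cpow e2.le]
      congr 1
      push_cast
      ring
    have htc : (t : ℂ) ≠ 0 := by exact_mod_cast ht0.ne'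
    have e5 : (1 / (t : ℂ)) / ((A : ℂ) + B * (1 / (t : ℂ))) = 1 / ((A * t + B : ℝ) : ℂ) := by
      have e6 : (A : ℂ) + B * (1 / (t : ℂ)) ≠ 0 := by
        have : (A : ℂ) + B * (1 / (t : ℂ)) = ((A + B / t : ℝ) : ℂ) := by push_cast; ring
        rw [this]
        exact_mod_cast e2.ne'
      have e7 : ((A * t + B : ℝ) : ℂ) = (t : ℂ) * ((A : ℂ) + B * (1 / (t : ℂ))) := by
        push_cast
        field_simp
      rw [e7]
      field_simp
    rw [e4, e5, e3]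
    push_cast
    ring

/-- the primitives of the elliptic curve -/
noncomputable def JE (F₀ F₁ : ℝ → ℂ) (A B : ℚ) (j : ℕ) (t : ℝ) : ℂ :=
  if j = 0 then (A : ℂ)⁻¹ * F₀ (A * t + B) else ((A : ℂ)⁻¹) ^ 2 * (F₁ (A * t + B) - B * F₀ (A * t + B))

theorem JE_prim {g2 g3 : ℚ} {F₀ F₁ : ℝ → ℂ} {G₀ G₁ : ℂ → ℂ} (hG₀ : AnalyticAt ℂ G₀ 0) (hG₁ : AnalyticAt ℂ G₁ 0)
    (h : ∀ᶠ t : ℝ in atTop,
      HasDerivAt F₀ (((4 * t ^ 3 - g2 * t - g3) ^ (-(1 / 2) : ℝ) : ℝ) : ℂ) t ∧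
      F₀ t = ((t ^ (-(1 / 2) : ℝ) : ℝ) : ℂ) * G₀ (1 / (t : ℂ)) ∧
      HasDerivAt F₁ ((t * (4 * t ^ 3 - g2 * t - g3) ^ (-(1 / 2) : ℝ) : ℝ) : ℂ) t ∧
      F₁ t = ((t ^ ((1 / 2) : ℝ) : ℝ) : ℂ) * G₁ (1 / (t : ℂ))) {A : ℚ} (hA : 0 < A) (B : ℚ) (j : ℕ) (hj : j + 2 ≤ 3) :
    IsPrimQ (cubAB g2 g3 A B) j (JE F₀ F₁ A B j) := by
  have hAR : (0 : ℝ) < A := by exact_mod_cast hA
  have hAC : (A : ℂ) ≠ 0 := by exact_mod_cast hA.ne'
  have hlim : Tendsto (fun t : ℝ => (A : ℝ) * t + B) atTop atTop :=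
    tendsto_atTop_add_const_right _ _ (tendsto_id.const_mul_atTop hAR)
  obtain ⟨H₀, hH₀, e₀⟩ := sub_form hG₀ (h.mono fun t ht => ht.2.1) (B := (B : ℝ)) hAR
  obtain ⟨H₁, hH₁, e₁⟩ := sub_form hG₁ (h.mono fun t ht => ht.2.2.2) (B := (B : ℝ)) hAR
  have hev : ∀ t : ℝ, ((cubAB g2 g3 A B).map (algebraMap ℚ ℝ)).eval t = 4 * (A * t + B) ^ 3 - g2 * (A * t + B) - g3 := by
    intro t
    unfold cubAB cub
    rw [Polynomial.map_comp, Polynomial.eval_comp]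
    simp
  have hd : ∀ t : ℝ, HasDerivAt (fun t : ℝ => (A : ℝ) * t + B) A t := fun t => by
    simpa using ((hasDerivAt_id t).const_mul (A : ℝ)).add_const (B : ℝ)
  have hd₀ : ∀ᶠ t : ℝ in atTop, HasDerivAt (fun t : ℝ => F₀ (A * t + B))
      ((A : ℂ) * (((cubAB g2 g3 A B).map (algebraMap ℚ ℝ)).eval t ^ (-(1 / 2) : ℝ) : ℝ)) t := by
    filter_upwards [hlim.eventually h] with t ht
    have h1 := HasDerivAt.scomp t ht.1 (hd t)
    refine h1.congr_deriv ?_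
    rw [hev, Complex.real_smul]
    push_cast
    rfl
  have hd₁ : ∀ᶠ t : ℝ in atTop, HasDerivAt (fun t : ℝ => F₁ (A * t + B))
      ((A : ℂ) * ((A * t + B : ℝ) * (((cubAB g2 g3 A B).map (algebraMap ℚ ℝ)).eval t ^ (-(1 / 2) : ℝ) : ℝ))) t := by
    filter_upwards [hlim.eventually h] with t ht
    have h1 := HasDerivAt.scomp t ht.2.2.1 (hd t)
    refine h1.congr_deriv ?_
    rw [hev, Complex.real_smul]
    push_cast
    rfl
  have h3 : ((cubAB g2 g3 A B).natDegree : ℝ) / 2 = 3 / 2 := by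
    rw [cubAB_natDegree g2 g3 B hA]
    norm_num
  rcases (show j = 0 ∨ j = 1 by omega) with rfl | rfl
  · refine ⟨fun u => (A : ℂ)⁻¹ * H₀ u, analyticAt_const.mul hH₀, ?_⟩
    filter_upwards [e₀, hd₀] with t ht hdt
    constructor
    · show HasDerivAt (fun t : ℝ => (A : ℂ)⁻¹ * F₀ (A * t + B)) _ t
      refine (hdt.const_mul ((A : ℂ)⁻¹)).congr_deriv ?_
      push_cast
      field_simp
    · show (A : ℂ)⁻¹ * F₀ (A * t + B) = _
      rw [ht, h3]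
      norm_num
      ring
  · refine ⟨fun u => ((A : ℂ)⁻¹) ^ 2 * (H₁ u - B * (u * H₀ u)), ?_, ?_⟩
    · exact analyticAt_const.mul (hH₁.sub (analyticAt_const.mul (analyticAt_id.mul hH₀)))
    · filter_upwards [e₀, hd₀, e₁, hd₁, eventually_gt_atTop 0] with t ht hdt ht' hdt' htp
      constructor
      · show HasDerivAt (fun t : ℝ => ((A : ℂ)⁻¹) ^ 2 * (F₁ (A * t + B) - B * F₀ (A * t + B))) _ t
        refine ((hdt'.sub (hdt.const_mul (B : ℂ))).const_mul (((A : ℂ)⁻¹) ^ 2)).congr_deriv ?_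
        push_cast
        field_simp
        ring
      · show ((A : ℂ)⁻¹) ^ 2 * (F₁ (A * t + B) - B * F₀ (A * t + B)) = _
        rw [ht, ht', h3]
        have e5 : t ^ (-(1 / 2) : ℝ) = t ^ ((1 / 2) : ℝ) * (1 / t) := by
          rw [one_div t, ← Real.rpow_neg_one t, ← Real.rpow_add htp]
          norm_num
        have e6 : (-((3 : ℝ) / 2 - (((1 : ℕ) : ℝ) + 1))) = 1 / 2 := by norm_num
        rw [e5, e6]
        push_cast
        ring

end Pool.Agent.P8H40.SE
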