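import Pool.Agent.P8H40.SE.Lau

/-!
# Algebraic independence of the expansions at infinity
-/

set_option autoImplicit false

open PowerSeries

namespace Pool.Agent.P8H40.SE

/-- the series `∑ h_m / (m + e) x^m` -/
noncomputable def Gs (h : ℚ⟦X⟧) (e : ℚ) : ℚ⟦X⟧ := PowerSeries.mk fun m => coeff m h / ((m : ℚ) + e)

/-- `log (1 + b x)` -/
noncomputable def lgs (b : ℚ) : ℚ⟦X⟧ := PowerSeries.mk fun m => -((-b) ^ m / m)

lemma Gs_ode (h : ℚ⟦X⟧) {e : ℚ} (he : ∀ n : ℤ, e ≠ n) : X * d⁄dX ℚ (Gs h e) + C e * Gs h e = h := by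
  ext m
  rw [map_add, coeff_X_d, coeff_C_mul]
  unfold Gs
  rw [coeff_mk]
  have h1 : (m : ℚ) + e ≠ 0 := by
    intro h2
    apply he (-(m : ℤ))
    push_cast
    linarith
  field_simp

lemma lgs_ode (b : ℚ) : (1 + C b * X) * d⁄dX ℚ (lgs b) = C b := by
  ext m
  rw [add_mul, one_mul, map_add, mul_assoc]
  rcases m with _ | m
  · rw [coeff_derivative, coeff_C_mul, coeff_zero_X_mul]
    unfold lgs
    rw [coeff_mk, coeff_zero_C]
    simp
  · rw [coeff_C_mul, coeff_succ_X_mul, coeff_derivative, coeff_derivative]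
    unfold lgs
    rw [coeff_mk, coeff_mk, coeff_C, if_neg (Nat.succ_ne_zero m)]
    have h1 : ((m : ℚ) + 1) ≠ 0 := by positivity
    have h2 : ((m : ℚ) + 1 + 1) ≠ 0 := by positivity
    push_cast
    field_simp
    ring

/-- the polynomials in `x` -/
lemma Ps_poly {n : ℕ} (hn : n ≠ 0) (u : Polynomial ℚ) : Ps n hn (u : ℚ⟦X⟧) = Polynomial.aeval (zp n) u := by
  induction u using Polynomial.induction_on' with
  | add p q hp hq => rw [Polynomial.coe_add, map_add, map_add, hp, hq]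
  | monomial m c =>
    rw [← Polynomial.C_mul_X_pow_eq_monomial, Polynomial.coe_mul, Polynomial.coe_C, Polynomial.coe_pow, Polynomial.coe_X,
      map_mul, map_pow, Ps_C, Ps_X, map_mul, Polynomial.aeval_C, map_pow, Polynomial.aeval_X]

lemma revq_ne {f : Polynomial ℤ} (hf : f ≠ 0) : revq f ≠ 0 := by
  unfold revq
  refine mul_ne_zero ?_ ?_
  · rw [Ne, Polynomial.C_eq_zero]
    exact one_div_ne_zero (by exact_mod_cast Polynomial.leadingCoeff_ne_zero.2 hf)
  · rw [Ne, Polynomial.map_eq_zero_iff (Int.castRingHom ℚ).injective_int, Polynomial.reverse_eq_zero]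
    exact hf

/-- `g(τ) = lc τ^d u(1/τ)` -/
lemma aeval_tau {n : ℕ} (hn : n ≠ 0) {f : Polynomial ℤ} (hf : f ≠ 0) :
    Polynomial.aeval (zp (-n)) (f.map (Int.castRingHom ℚ)) =
      algebraMap ℚ LL (f.leadingCoeff : ℚ) * (zp (-n) ^ f.natDegree * Ps n hn (revq f : ℚ⟦X⟧)) := by
  have hlc : (f.leadingCoeff : ℚ) ≠ 0 := by exact_mod_cast Polynomial.leadingCoeff_ne_zero.2 hf
  rw [Ps_poly]
  unfold revq
  rw [map_mul, Polynomial.aeval_C, Polynomial.aeval_def, Polynomial.aeval_def, Polynomial.eval₂_map, Polynomial.eval₂_map]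
  let _ : Invertible (zp (-n)) := ⟨zp n, by rw [zp_mul, add_neg_cancel, zp_zero], by rw [zp_mul, neg_add_cancel, zp_zero]⟩
  have h1 := Polynomial.eval₂_reverse_mul_pow ((algebraMap ℚ LL).comp (Int.castRingHom ℚ)) (zp (-n)) f
  have h2 : (⅟(zp (-n)) : LL) = zp n := rfl
  rw [h2] at h1
  rw [← h1]
  have h3 : algebraMap ℚ LL (f.leadingCoeff : ℚ) * algebraMap ℚ LL (1 / (f.leadingCoeff : ℚ)) = 1 := by
    rw [← map_mul, mul_one_div_cancel hlc, map_one]
  linear_combination (-(zp (-n)) ^ f.natDegree *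
    Polynomial.eval₂ ((algebraMap ℚ LL).comp (Int.castRingHom ℚ)) (zp n) f.reverse) * h3

/-- `ind` with another index type -/
theorem ind' (hKEY : S_KEY) (hSIM : S_SIM) {K E : Type} [Field K] [CharZero K] [Field E] [Algebra K E] [CharZero E]
    (D : Derivation K E E) (hconst : ∀ x : E, D x = 0 → ∃ c : K, algebraMap K E c = x) {τ : E} (h : D τ = 1) {p q s : ℕ}
    (g : Fin p → Polynomial K) (hg : Squarefree (∏ i, g i)) (hg1 : ∀ i, 0 < (g i).natDegree) (a : Fin q → Fin p → ℚ)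
    (ha : ∀ κ i, 0 ≤ a κ i ∧ a κ i < 1) (hinj : Function.Injective a)
    (hA : ∀ κ, ∀ z : ℤ, ∑ i, a κ i * ((g i).natDegree : ℚ) ≠ z) (S : Fin q → E) (hS0 : ∀ κ, S κ ≠ 0)
    (hDS : ∀ κ, D (S κ) = -(∑ i, (a κ i : E) * (Polynomial.aeval τ (Polynomial.derivative (g i)) / Polynomial.aeval τ (g i))) * S κ)
    (hSalg : ∀ κ, ∃ n, 0 < n ∧ S κ ^ n ∈ k0 D τ h) (b : Fin s → K) (hb : Function.Injective b) (hb0 : ∀ i, b i ≠ 0)
    (N : Fin q → ℕ) (hN : ∀ κ, N κ = Nn g (a κ))
    (y : (Σ κ : Fin q, Fin (N κ - 1)) → E) (hy : ∀ x, D (y x) = τ ^ (x.2 : ℕ) * S x.1)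
    (l : Fin s → E) (hl : ∀ i, D (l i) = (τ + algebraMap K E (b i))⁻¹ - τ⁻¹) :
    AlgebraicIndependent (FK D τ h) (Sum.elim y l) := by
  obtain rfl : N = fun κ => Nn g (a κ) := funext hN
  exact ind hKEY hSIM D hconst h g hg hg1 a ha hinj hA S hS0 hDS hSalg b hb hb0 y hy l hl

/-- rescaling by units and restriction to a subring -/
theorem transfer {σ : Type} {F : Type} [Field F] {R V L : Type} [CommRing R] [CommRing V] [Algebra R V] [Field L] [Algebra F L]
    (φ : R →+* F) (hφ : Function.Injective φ) (Ψ : V →+* L) (hc : ∀ r, Ψ (algebraMap R V r) = algebraMap F L (φ r))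
    (v : σ → V) (w : σ → L) (u : σ → F) (hu : ∀ i, u i ≠ 0) (huv : ∀ i, Ψ (v i) = algebraMap F L (u i) * w i)
    (hw : AlgebraicIndependent F w) : AlgebraicIndependent R v := by
  rw [algebraicIndependent_iff]
  intro P hP
  set P1 := MvPolynomial.map φ P with hP1
  set P2 := MvPolynomial.bind₁ (fun i => MvPolynomial.C (u i) * MvPolynomial.X i) P1 with hP2
  have h1 : MvPolynomial.aeval (fun i => Ψ (v i)) P1 = 0 := by
    rw [hP1, MvPolynomial.aeval_def, MvPolynomial.eval₂_map]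
    have h2 : (algebraMap F L).comp φ = Ψ.comp (algebraMap R V) := RingHom.ext fun r => (hc r).symm
    rw [h2]
    have h3 := MvPolynomial.eval₂_comp_left Ψ (algebraMap R V) v P
    rw [← MvPolynomial.aeval_def, hP, map_zero] at h3
    exact h3.symm
  have h2 : MvPolynomial.aeval w P2 = 0 := by
    rw [hP2, MvPolynomial.aeval_bind₁, ← h1]
    congr 2
    funext i
    rw [map_mul, MvPolynomial.aeval_C, MvPolynomial.aeval_X, huv i]
  have h3 : P2 = 0 := hw.eq_zero_of_aeval_eq_zero _ h2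
  have h4 : MvPolynomial.bind₁ (fun i => MvPolynomial.C (u i)⁻¹ * MvPolynomial.X i) P2 = P1 := by
    rw [hP2, MvPolynomial.bind₁_bind₁]
    have h5 : (fun i => MvPolynomial.bind₁ (fun i => MvPolynomial.C (u i)⁻¹ * MvPolynomial.X i : σ → MvPolynomial σ F)
        (MvPolynomial.C (u i) * MvPolynomial.X i)) = MvPolynomial.X := by
      funext i
      rw [map_mul, MvPolynomial.bind₁_X_right, MvPolynomial.bind₁_C_right, ← mul_assoc, ← MvPolynomial.C_mul, mul_inv_cancel₀ (hu i),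
        MvPolynomial.C_1, one_mul]
    rw [h5, MvPolynomial.bind₁_X_left]
    rfl
  rw [h3, map_zero] at h4
  exact MvPolynomial.map_injective φ hφ (by rw [← hP1, ← h4, map_zero])

theorem pind (hKEY : S_KEY) (hSIM : S_SIM) {p q s : ℕ} (g : Fin p → Polynomial ℤ)
    (hg : Squarefree (∏ i, (g i).map (Int.castRingHom ℚ))) (hg1 : ∀ i, 0 < (g i).natDegree) (a : Fin q → Fin p → ℚ)
    (ha : ∀ κ i, 0 ≤ a κ i ∧ a κ i < 1) (hinj : Function.Injective a)
    (hA : ∀ κ, ∀ z : ℤ, ∑ i, a κ i * ((g i).natDegree : ℚ) ≠ z) (h : Fin q → ℚ⟦X⟧) (hh0 : ∀ κ, coeff 0 (h κ) = 1)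
    (hode : ∀ κ, (∏ i, (revq (g i) : ℚ⟦X⟧)) * d⁄dX ℚ (h κ) =
      -(∑ i, C (a κ i) * ((Polynomial.derivative (revq (g i)) : Polynomial ℚ) : ℚ⟦X⟧) *
        ∏ k ∈ Finset.univ.erase i, (revq (g k) : ℚ⟦X⟧)) * h κ)
    (b : Fin s → ℤ) (hb : Function.Injective b) (hb0 : ∀ i, b i ≠ 0) :
    AlgebraicIndependent (Polynomial ℚ) (Sum.elim
      (fun x : (Σ κ : Fin q, Fin (Nn g (a κ) - 1)) => Gs (h x.1) (ex g (a x.1) x.2)) (fun i => lgs (b i))) := by
  classical
  have hg0 : ∀ i, g i ≠ 0 := fun i hi => by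
    have := hg1 i
    rw [hi, Polynomial.natDegree_zero] at this
    exact lt_irrefl _ this
  -- the common denominator
  obtain ⟨n, hn, hnm⟩ : ∃ n : ℕ, n ≠ 0 ∧ ∀ κ i, ∃ m : ℕ, (n : ℚ) * a κ i = m := by
    refine ⟨∏ κ, ∏ i, (a κ i).den, Finset.prod_ne_zero_iff.2 fun κ _ => Finset.prod_ne_zero_iff.2 fun i _ => (a κ i).den_nz,
      fun κ i => ?_⟩
    have h1 : (a κ i).den ∣ ∏ κ, ∏ i, (a κ i).den :=
      (Finset.dvd_prod_of_mem (fun i => (a κ i).den) (Finset.mem_univ i)).trans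
        (Finset.dvd_prod_of_mem (fun κ => ∏ i, (a κ i).den) (Finset.mem_univ κ))
    obtain ⟨c, hc⟩ := h1
    have h2 : 0 ≤ (a κ i).num := Rat.num_nonneg.2 (ha κ i).1
    refine ⟨c * (a κ i).num.toNat, ?_⟩
    rw [hc]
    have h3 : ((a κ i).den : ℚ) * a κ i = (a κ i).num := by
      rw [mul_comm]
      exact Rat.mul_den_eq_num _
    have h4 : (((a κ i).num.toNat : ℕ) : ℚ) = (a κ i).num := by
      have : (((a κ i).num.toNat : ℕ) : ℤ) = (a κ i).num := Int.toNat_of_nonneg h2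
      exact_mod_cast this
    push_cast
    rw [h4, ← h3]
    ring
  choose mm hmm using hnm
  have hnq : (n : ℚ) ≠ 0 := by exact_mod_cast hn
  set τ : LL := zp (-n) with hτ
  set x : LL := zp n with hx
  have h1 : DD n τ = 1 := DD_tau hn
  have hτx : τ * x = 1 := by rw [hτ, hx, zp_mul, neg_add_cancel, zp_zero]
  have hτ0 : τ ≠ 0 := left_ne_zero_of_mul_eq_one hτx
  have hx0 : x ≠ 0 := right_ne_zero_of_mul_eq_one hτx
  have hxτ : x = τ⁻¹ := (eq_inv_of_mul_eq_one_right hτx)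
  have hτk : τ ∈ k0 (DD n) τ h1 := by
    have := poly_mem (D := DD n) (τ := τ) (h := h1) (Polynomial.X : Polynomial ℚ)
    rwa [Polynomial.aeval_X] at this
  have hxk : x ∈ k0 (DD n) τ h1 := by
    rw [hxτ]
    exact inv_mem hτk
  have hpk : ∀ u : Polynomial ℚ, Ps n hn (u : ℚ⟦X⟧) ∈ k0 (DD n) τ h1 := by
    intro u
    rw [Ps_poly]
    induction u using Polynomial.induction_on' with
    | add p q hp hq => rw [map_add]; exact add_mem hp hq
    | monomial m c =>
      rw [Polynomial.aeval_monomial]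
      exact mul_mem ((k0 (DD n) τ h1).algebraMap_mem _) (pow_mem hxk _)
  set U : Fin p → LL := fun i => Ps n hn (revq (g i) : ℚ⟦X⟧) with hU
  have hU0 : ∀ i, U i ≠ 0 := fun i hi => by
    have h2 : (revq (g i) : ℚ⟦X⟧) = 0 := Ps_inj hn (hi.trans (map_zero _).symm)
    exact revq_ne (hg0 i) (Polynomial.coe_injective ℚ (h2.trans Polynomial.coe_zero.symm))
  -- logarithmic derivatives
  have hLD : ∀ i, Polynomial.aeval τ (Polynomial.derivative ((g i).map (Int.castRingHom ℚ))) /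
      Polynomial.aeval τ ((g i).map (Int.castRingHom ℚ)) = ((g i).natDegree : LL) * x + DD n (U i) / U i := by
    intro i
    have h2 := aeval_tau hn (hg0 i)
    have h3 := D_aeval (DD n) h1 ((g i).map (Int.castRingHom ℚ))
    have hlc : algebraMap ℚ LL ((g i).leadingCoeff : ℚ) ≠ 0 := by
      rw [Ne, _root_.map_eq_zero]
      exact_mod_cast Polynomial.leadingCoeff_ne_zero.2 (hg0 i)
    rw [← h3, hτ, h2, ← hτ]
    have h4 : DD n (algebraMap ℚ LL ((g i).leadingCoeff : ℚ) * (τ ^ (g i).natDegree * U i)) =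
        algebraMap ℚ LL ((g i).leadingCoeff : ℚ) * (τ ^ (g i).natDegree * (((g i).natDegree : LL) * x * U i + DD n (U i))) := by
      rw [Derivation.leibniz, Derivation.map_algebraMap, Derivation.leibniz, Derivation.leibniz_pow, h1]
      simp only [smul_eq_mul, nsmul_eq_mul, mul_zero, add_zero, mul_one]
      have h5 : τ ^ (g i).natDegree * x = τ ^ ((g i).natDegree - 1) := by
        obtain ⟨d, hd⟩ : ∃ d, (g i).natDegree = d + 1 := ⟨(g i).natDegree - 1, by have := hg1 i; omega⟩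
        rw [hd, Nat.add_sub_cancel, pow_succ, mul_assoc, hτx, mul_one]
      rw [← h5]
      ring
    show DD n (algebraMap ℚ LL ((g i).leadingCoeff : ℚ) * (τ ^ (g i).natDegree * U i)) /
      (algebraMap ℚ LL ((g i).leadingCoeff : ℚ) * (τ ^ (g i).natDegree * U i)) = _
    rw [h4]
    have h6 := hU0 i
    have h7 : τ ^ (g i).natDegree ≠ 0 := pow_ne_zero _ hτ0
    field_simp
  -- the exponents
  set NA : Fin q → ℤ := fun κ => ∑ i, (mm κ i : ℤ) * (g i).natDegree with hNA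
  have hNA' : ∀ κ, (NA κ : ℚ) = n * ∑ i, a κ i * ((g i).natDegree : ℚ) := by
    intro κ
    rw [hNA]
    push_cast
    rw [Finset.mul_sum]
    refine Finset.sum_congr rfl fun i _ => ?_
    rw [← mul_assoc, hmm]
  have hPs0 : ∀ κ, Ps n hn (h κ) ≠ 0 := fun κ hκ => by
    have h2 : h κ = 0 := Ps_inj hn (hκ.trans (map_zero _).symm)
    have h3 := hh0 κ
    rw [h2, map_zero] at h3
    exact zero_ne_one h3
  have hDh : ∀ κ, DD n (Ps n hn (h κ)) = -(∑ i, (a κ i : LL) * (DD n (U i) / U i)) * Ps n hn (h κ) := by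
    intro κ
    have h2 := congrArg (Ps n hn) (hode κ)
    rw [map_mul, map_prod, map_mul, map_neg, map_sum] at h2
    have h3 : DD n (Ps n hn (h κ)) = -(x * x * Ps n hn (d⁄dX ℚ (h κ))) := by
      rw [DD_Ps, map_mul, Ps_X]
      ring
    have h4 : ∀ i, DD n (U i) = -(x * x * Ps n hn ((Polynomial.derivative (revq (g i)) : Polynomial ℚ) : ℚ⟦X⟧)) := by
      intro i
      show DD n (Ps n hn (revq (g i) : ℚ⟦X⟧)) = _
      rw [DD_Ps, map_mul, Ps_X, PowerSeries.derivative_coe]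
      ring
    have hprod : ∏ i, U i ≠ 0 := Finset.prod_ne_zero_iff.2 fun i _ => hU0 i
    apply mul_left_cancel₀ hprod
    have h5 : (∏ i, U i) * (∑ i, (a κ i : LL) * (DD n (U i) / U i)) =
        -(x * x) * ∑ i, Ps n hn (C (a κ i) * ((Polynomial.derivative (revq (g i)) : Polynomial ℚ) : ℚ⟦X⟧) *
        ∏ k ∈ Finset.univ.erase i, (revq (g k) : ℚ⟦X⟧)) := by
      rw [Finset.mul_sum, Finset.mul_sum]
      refine Finset.sum_congr rfl fun i _ => ?_
      rw [map_mul, map_mul, map_prod, Ps_C, h4 i, ← Finset.mul_prod_erase _ _ (Finset.mem_univ i),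
        eq_ratCast (algebraMap ℚ LL), show (∏ k ∈ Finset.univ.erase i, Ps n hn (revq (g k) : ℚ⟦X⟧)) =
          ∏ k ∈ Finset.univ.erase i, U k from rfl]
      have h6 := hU0 i
      field_simp
    rw [h3]
    linear_combination (-(x * x)) * h2 + (Ps n hn (h κ)) * h5
  set S : Fin q → LL := fun κ => zp (NA κ) * Ps n hn (h κ) with hS
  have hDzp : ∀ m : ℤ, DD n (zp m) = -(((m : ℚ) / n : ℚ) : LL) * x * zp m := by
    intro m
    rw [DD_zp, eq_ratCast (algebraMap ℚ LL)]
    ring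
  have hDS : ∀ κ, DD n (S κ) = -(∑ i, (a κ i : LL) * (Polynomial.aeval τ (Polynomial.derivative ((g i).map (Int.castRingHom ℚ))) /
      Polynomial.aeval τ ((g i).map (Int.castRingHom ℚ)))) * S κ := by
    intro κ
    have h2 : ((NA κ : ℚ) / n : ℚ) = ∑ i, a κ i * ((g i).natDegree : ℚ) := by
      rw [hNA' κ]
      field_simp
    have h3 : ∑ i, (a κ i : LL) * (Polynomial.aeval τ (Polynomial.derivative ((g i).map (Int.castRingHom ℚ))) /
        Polynomial.aeval τ ((g i).map (Int.castRingHom ℚ))) =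
        ((∑ i, a κ i * ((g i).natDegree : ℚ) : ℚ) : LL) * x + ∑ i, (a κ i : LL) * (DD n (U i) / U i) := by
      push_cast
      rw [Finset.sum_mul, ← Finset.sum_add_distrib]
      refine Finset.sum_congr rfl fun i _ => ?_
      rw [hLD i]
      ring
    show DD n (zp (NA κ) * Ps n hn (h κ)) = _ * (zp (NA κ) * Ps n hn (h κ))
    rw [Derivation.leibniz, hDh κ, hDzp, h2, h3, smul_eq_mul, smul_eq_mul]
    ring
  have hSalg : ∀ κ, ∃ m, 0 < m ∧ S κ ^ m ∈ k0 (DD n) τ h1 := by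
    intro κ
    refine ⟨n, Nat.pos_of_ne_zero hn, ?_⟩
    have h2 : zp (NA κ) ^ n ∈ k0 (DD n) τ h1 := by
      have h3 : zp (NA κ) ^ n = x ^ (NA κ) := by
        rw [zp_pow]
        rcases (NA κ).eq_nat_or_neg with ⟨k, hk | hk⟩
        · rw [hk, zpow_natCast, hx, zp_pow, mul_comm]
        · rw [hk, zpow_neg, zpow_natCast, hx, zp_pow, zp_inv]
          congr 1
          ring
      rw [h3]
      exact zpow_mem hxk _
    have h3 : Ps n hn (h κ) ^ n ∈ k0 (DD n) τ h1 := by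
      have h4 : DD n (Ps n hn (h κ) ^ n * ∏ i, U i ^ (mm κ i)) = 0 := by
        have h5 : ∀ (y : LL) (m : ℕ), y ≠ 0 → DD n (y ^ m) = (m : LL) * (DD n y / y) * y ^ m := by
          intro y m hy
          rw [Derivation.leibniz_pow, nsmul_eq_mul, smul_eq_mul]
          rcases m with _ | m
          · simp
          · rw [Nat.add_sub_cancel, pow_succ]
            field_simp
        have h6 : ∀ T : Finset (Fin p), DD n (∏ i ∈ T, U i ^ (mm κ i)) =
            (∑ i ∈ T, (mm κ i : LL) * (DD n (U i) / U i)) * ∏ i ∈ T, U i ^ (mm κ i) := by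
          intro T
          induction T using Finset.induction_on with
          | empty => simp
          | insert i T hi ih =>
            rw [Finset.prod_insert hi, Derivation.leibniz, ih, h5 _ _ (hU0 i), Finset.sum_insert hi, smul_eq_mul, smul_eq_mul]
            ring
        rw [Derivation.leibniz, h6, h5 _ _ (hPs0 κ), hDh κ, smul_eq_mul, smul_eq_mul]
        have h7 : (n : LL) * ∑ i, (a κ i : LL) * (DD n (U i) / U i) = ∑ i, (mm κ i : LL) * (DD n (U i) / U i) := by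
          rw [Finset.mul_sum]
          refine Finset.sum_congr rfl fun i _ => ?_
          have h8 : (n : LL) * (a κ i : LL) = (mm κ i : LL) := by exact_mod_cast congrArg (fun q : ℚ => (q : LL)) (hmm κ i)
          rw [← h8]
          ring
        rw [← h7]
        have h9 := hPs0 κ
        field_simp
        ring
      obtain ⟨c, hc⟩ := DD_const hn _ h4
      have h5 : ∏ i, U i ^ (mm κ i) ≠ 0 := Finset.prod_ne_zero_iff.2 fun i _ => pow_ne_zero _ (hU0 i)
      have h6 : Ps n hn (h κ) ^ n = algebraMap ℚ LL c * (∏ i, U i ^ (mm κ i))⁻¹ := by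
        rw [hc]
        field_simp
      rw [h6]
      exact mul_mem ((k0 (DD n) τ h1).algebraMap_mem _) (inv_mem (prod_mem fun i _ => pow_mem (hpk _) _))
    rw [hS]
    simp only
    rw [mul_pow]
    exact mul_mem h2 h3
  -- the primitives
  set NE : (Σ κ : Fin q, Fin (Nn g (a κ) - 1)) → ℤ := fun z => NA z.1 - n * ((z.2 : ℕ) + 1) with hNE
  have hNE' : ∀ z, ((NE z : ℚ) / n : ℚ) = ex g (a z.1) z.2 := by
    intro z
    rw [hNE]
    unfold ex
    push_cast
    rw [hNA' z.1]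
    field_simp
  have hexn : ∀ z : (Σ κ : Fin q, Fin (Nn g (a κ) - 1)), ∀ m : ℤ, ex g (a z.1) z.2 ≠ m := by
    intro z m hm
    unfold ex at hm
    apply hA z.1 (m + ((z.2 : ℕ) + 1))
    push_cast
    linarith
  set y : (Σ κ : Fin q, Fin (Nn g (a κ) - 1)) → LL := fun z =>
    -(zp (NE z) * Ps n hn (Gs (h z.1) (ex g (a z.1) z.2))) with hy
  have hDy : ∀ z, DD n (y z) = τ ^ ((z.2 : ℕ)) * S z.1 := by
    intro z
    have h2 := congrArg (Ps n hn) (Gs_ode (h z.1) (hexn z))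
    rw [map_add, map_mul _ (C _), Ps_C, eq_ratCast (algebraMap ℚ LL)] at h2
    have h3 : DD n (y z) = zp (NE z) * x * Ps n hn (h z.1) := by
      show DD n (-(zp (NE z) * Ps n hn (Gs (h z.1) (ex g (a z.1) z.2)))) = _
      rw [map_neg, Derivation.leibniz, hDzp, hNE' z, DD_Ps, ← h2, smul_eq_mul, smul_eq_mul]
      ring
    rw [h3]
    show _ = τ ^ (z.2 : ℕ) * (zp (NA z.1) * Ps n hn (h z.1))
    rw [hx, hτ, zp_pow, ← mul_assoc, zp_mul, zp_mul]
    congr 2
    rw [hNE]
    ring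
  have hDl : ∀ i, DD n (Ps n hn (lgs (b i))) = (τ + algebraMap ℚ LL ((b i : ℤ) : ℚ))⁻¹ - τ⁻¹ := by
    intro i
    have h2 := congrArg (Ps n hn) (lgs_ode (b i))
    rw [map_mul, map_add, map_one, map_mul, Ps_C, Ps_X] at h2
    set β := algebraMap ℚ LL ((b i : ℤ) : ℚ) with hβ
    have hβ0 : β ≠ 0 := by
      rw [hβ, Ne, _root_.map_eq_zero]
      exact_mod_cast hb0 i
    rw [DD_Ps, map_mul, Ps_X, ← hxτ]
    have h3 : (1 + β * x) ≠ 0 := by
      intro h4
      rw [h4, zero_mul] at h2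
      exact hβ0 h2.symm
    have h4 : τ + β = τ * (1 + β * x) := by
      linear_combination (-β) * hτx
    have h5 : Ps n hn (d⁄dX ℚ (lgs (b i))) = β / (1 + β * x) := by
      rw [eq_div_iff h3, mul_comm]
      exact h2
    rw [h4, h5, mul_inv, ← hxτ]
    field_simp
    ring
  have hN : ∀ κ, Nn g (a κ) = Nn (fun i => (g i).map (Int.castRingHom ℚ)) (a κ) := by
    intro κ
    unfold Nn
    refine Finset.sum_congr rfl fun i _ => ?_
    rw [Polynomial.natDegree_map_eq_of_injective (Int.castRingHom ℚ).injective_int]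
  have hAI := ind' hKEY hSIM (DD n) (fun z hz => DD_const hn z hz) h1 (fun i => (g i).map (Int.castRingHom ℚ)) hg
    (fun i => by rw [Polynomial.natDegree_map_eq_of_injective (Int.castRingHom ℚ).injective_int]; exact hg1 i) a ha hinj
    (fun κ z => by
      simp only [Polynomial.natDegree_map_eq_of_injective (Int.castRingHom ℚ).injective_int]
      exact hA κ z) S (fun κ => mul_ne_zero (zp_ne _) (hPs0 κ)) hDS hSalg (fun i => ((b i : ℤ) : ℚ))
    (fun i j hij => hb (by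
      have h2 : ((b i : ℤ) : ℚ) = ((b j : ℤ) : ℚ) := hij
      exact_mod_cast h2)) (fun i => by exact_mod_cast hb0 i) (fun κ => Nn g (a κ)) hN y hDy
    (fun i => Ps n hn (lgs (b i))) hDl
  -- the transfer
  have hz1 : ∀ m : ℤ, Hx (DD n) τ h1 (zp m) := by
    intro m
    refine ⟨zp_ne m, ?_, n, Nat.pos_of_ne_zero hn, ?_⟩
    · rw [hDzp, mul_div_assoc, div_self (zp_ne m), mul_one]
      refine mul_mem (neg_mem ?_) hxk
      rw [← eq_ratCast (algebraMap ℚ LL)]
      exact (k0 (DD n) τ h1).algebraMap_mem _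
    · have h3 : zp m ^ n = x ^ m := by
        rw [zp_pow]
        rcases m.eq_nat_or_neg with ⟨k, hk | hk⟩
        · rw [hk, zpow_natCast, hx, zp_pow, mul_comm]
        · rw [hk, zpow_neg, zpow_natCast, hx, zp_pow, zp_inv]
          congr 1
          ring
      rw [h3]
      exact zpow_mem hxk _
  have hxF : x ∈ FK (DD n) τ h1 := k0_FK hxk
  set φ : Polynomial ℚ →+* FK (DD n) τ h1 := (Polynomial.aeval (⟨x, hxF⟩ : FK (DD n) τ h1)).toRingHom with hφ
  have hφc : ∀ u : Polynomial ℚ, Ps n hn (u : ℚ⟦X⟧) = algebraMap (FK (DD n) τ h1) LL (φ u) := by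
    intro u
    rw [Ps_poly]
    have h2 := Polynomial.aeval_algebraMap_apply LL (⟨x, hxF⟩ : FK (DD n) τ h1) u
    exact h2
  refine transfer φ ?_ (Ps n hn) hφc _ (Sum.elim y fun i => Ps n hn (lgs (b i)))
    (Sum.elim (fun z => -⟨zp (-NE z), Hx_FK (hz1 _)⟩) fun _ => 1) ?_ ?_ hAI
  · intro u u' huu
    have h2 : Ps n hn (u : ℚ⟦X⟧) = Ps n hn (u' : ℚ⟦X⟧) := by rw [hφc, hφc, huu]
    exact Polynomial.coe_injective ℚ (Ps_inj hn h2)
  · rintro (z | i)
    · rw [Sum.elim_inl, neg_ne_zero]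
      intro h2
      exact zp_ne _ (congrArg Subtype.val h2)
    · exact one_ne_zero
  · rintro (z | i)
    · rw [Sum.elim_inl, Sum.elim_inl, Sum.elim_inl]
      show _ = (-(zp (-NE z))) * (-(zp (NE z) * Ps n hn (Gs (h z.1) (ex g (a z.1) z.2))))
      have h2 : zp (-NE z) * zp (NE z) = 1 := by rw [zp_mul, neg_add_cancel, zp_zero]
      linear_combination (-(Ps n hn (Gs (h z.1) (ex g (a z.1) z.2)))) * h2
    · rw [Sum.elim_inr, Sum.elim_inr, Sum.elim_inr, map_one, one_mul]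

end Pool.Agent.P8H40.SE
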