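import Pool.Agent.P8H40.SE.Par
import Pool.Agent.P8H40.SE.Pind

/-!
# The family of the expansions at infinity
-/

set_option autoImplicit false

open PowerSeries

namespace Pool.Agent.P8H40.SE

open Pool.Agent.Y113

lemma eq_C_of_deriv {f : ℚ⟦X⟧} (h : d⁄dX ℚ f = 0) : f = C (coeff 0 f) := by
  ext m
  rw [coeff_C]
  split_ifs with hm
  · rw [hm]
  · obtain ⟨k, rfl⟩ := Nat.exists_eq_succ_of_ne_zero hm
    have h1 := congrArg (coeff k) h
    rw [coeff_derivative, map_zero] at h1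
    rcases mul_eq_zero.1 h1 with h2 | h2
    · exact h2
    · exfalso
      have : (k : ℚ) + 1 ≠ 0 := by positivity
      exact this h2

/-- the equation of a product -/
lemma prod_ode {p : ℕ} (u : Fin p → ℚ⟦X⟧) (u' : Fin p → ℚ⟦X⟧) (c : Fin p → ℚ) (f : Fin p → ℚ⟦X⟧)
    (h : ∀ i, u i * d⁄dX ℚ (f i) = C (c i) * u' i * f i) :
    (∏ i, u i) * d⁄dX ℚ (∏ i, f i) = (∑ i, C (c i) * u' i * ∏ k ∈ Finset.univ.erase i, u k) * ∏ i, f i := by
  classical
  have key : ∀ S : Finset (Fin p), (∏ i ∈ S, u i) * d⁄dX ℚ (∏ i ∈ S, f i) =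
      (∑ i ∈ S, C (c i) * u' i * ∏ k ∈ S.erase i, u k) * ∏ i ∈ S, f i := by
    intro S
    induction S using Finset.induction_on with
    | empty => simp
    | insert a S ha ih =>
      rw [Finset.prod_insert ha, Finset.prod_insert ha, Derivation.leibniz, Finset.sum_insert ha, Finset.erase_insert ha,
        smul_eq_mul, smul_eq_mul]
      have h1 : ∑ i ∈ S, C (c i) * u' i * ∏ k ∈ (insert a S).erase i, u k =
          u a * ∑ i ∈ S, C (c i) * u' i * ∏ k ∈ S.erase i, u k := by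
        rw [Finset.mul_sum]
        refine Finset.sum_congr rfl fun i hi => ?_
        have hia : a ≠ i := fun h2 => ha (by rw [h2]; exact hi)
        rw [Finset.erase_insert_of_ne hia, Finset.prod_insert fun h2 => ha (Finset.mem_of_mem_erase h2)]
        ring
      rw [h1]
      linear_combination (u a * f a) * ih + ((∏ i ∈ S, u i) * ∏ i ∈ S, f i) * h a
  exact key Finset.univ

/-- the functions `h_κ` and their inverses -/
theorem exists_h (hPW : S_PW) {p : ℕ} (g : Fin p → Polynomial ℤ) (hg0 : ∀ i, g i ≠ 0) (a : Fin p → ℚ) : ∃ h hi : ℚ⟦X⟧, coeff 0 h = 1 ∧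
    h * hi = 1 ∧ SDc h ∧ SDc hi ∧
    (∏ i, (revq (g i) : ℚ⟦X⟧)) * d⁄dX ℚ h = -(∑ i, C (a i) * ((Polynomial.derivative (revq (g i)) : Polynomial ℚ) : ℚ⟦X⟧) *
        ∏ k ∈ Finset.univ.erase i, (revq (g k) : ℚ⟦X⟧)) * h := by
  classical
  have hu0 : ∀ i, (revq (g i)).coeff 0 = 1 := by
    intro i
    unfold revq
    have hlc : ((g i).leadingCoeff : ℚ) ≠ 0 := by exact_mod_cast Polynomial.leadingCoeff_ne_zero.2 (hg0 i)
    rw [Polynomial.coeff_C_mul, Polynomial.coeff_map, Polynomial.coeff_zero_reverse]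
    simp only [eq_intCast]
    field_simp
  choose f hf0 hfo hfS using fun i : Fin p => hPW (revq (g i)) (-(a i)) (hu0 i)
  choose f' hf0' hfo' hfS' using fun i : Fin p => hPW (revq (g i)) (a i) (hu0 i)
  have hprodS : ∀ (F : Fin p → ℚ⟦X⟧), (∀ i, SDc (F i)) → SDc (∏ i, F i) := by
    intro F hF
    exact Finset.prod_induction _ SDc (fun _ _ => SDc.mul) SDc.one fun i _ => hF i
  have hc0 : ∀ (F : Fin p → ℚ⟦X⟧), (∀ i, coeff 0 (F i) = 1) → coeff 0 (∏ i, F i) = 1 := by
    intro F hF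
    rw [coeff_zero_eq_constantCoeff, map_prod]
    exact Finset.prod_eq_one fun i _ => by rw [← coeff_zero_eq_constantCoeff]; exact hF i
  refine ⟨∏ i, f i, ∏ i, f' i, hc0 f hf0, ?_, hprodS f hfS, hprodS f' hfS', ?_⟩
  · rw [← Finset.prod_mul_distrib]
    refine Finset.prod_eq_one fun i _ => ?_
    have h1 : d⁄dX ℚ (f i * f' i) = 0 := by
      have h2 : (revq (g i) : ℚ⟦X⟧) ≠ 0 := fun h3 => by
        have h4 := congrArg (coeff 0) h3
        rw [Polynomial.coeff_coe, hu0 i, map_zero] at h4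
        exact one_ne_zero h4
      apply mul_left_cancel₀ h2
      rw [Derivation.leibniz, smul_eq_mul, smul_eq_mul, mul_zero]
      have h3 := hfo i
      have h4 := hfo' i
      rw [map_neg] at h3
      linear_combination (f' i) * h3 + (f i) * h4
    rw [eq_C_of_deriv h1, coeff_zero_eq_constantCoeff, map_mul, ← coeff_zero_eq_constantCoeff, hf0 i, hf0' i, mul_one, map_one]
  · rw [prod_ode _ _ (fun i => -(a i)) f hfo]
    simp only [map_neg, neg_mul, Finset.sum_neg_distrib]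

lemma lgs_SDc (b : ℤ) : SDc (lgs b) := by
  obtain ⟨n, hn⟩ := pow_unbounded_of_one_lt ((2 : ℝ) ^ 8 * (|(b : ℝ)| + 1)) (show (1 : ℝ) < 2 by norm_num)
  refine ⟨n, SDp.mono ?_ hn.le⟩
  have hg : (1 : ℝ) ≤ |(b : ℝ)| + 1 := by linarith [abs_nonneg (b : ℝ)]
  refine ⟨fun m => ?_, fun m => ⟨Nat.lcmUpto m, Nat.lcmUpto_pos m, ?_, fun j hj => ?_⟩⟩
  · unfold lgs
    rw [coeff_mk]
    push_cast
    rw [abs_neg, abs_div, abs_pow, abs_neg, Nat.abs_cast]
    rcases Nat.eq_zero_or_pos m with rfl | hm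
    · simp; positivity
    · have h1 : (1 : ℝ) ≤ m := by exact_mod_cast hm
      calc |(b : ℝ)| ^ m / m ≤ |(b : ℝ)| ^ m := div_le_self (by positivity) h1
        _ ≤ (|(b : ℝ)| + 1) ^ m := pow_le_pow_left₀ (by positivity) (by linarith) _
        _ ≤ (|(b : ℝ)| + 1) ^ (m + 1) := pow_le_pow_right₀ hg (by omega)
        _ ≤ _ := pow_le_pow_left₀ (by positivity) (by nlinarith) _
  · refine (lcm_bound m).trans ?_
    calc ((2 : ℝ) ^ 8) ^ m ≤ (2 ^ 8) ^ (m + 1) := pow_le_pow_right₀ (by norm_num) (by omega)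
      _ ≤ _ := pow_le_pow_left₀ (by positivity) (by nlinarith) _
  · unfold lgs
    rw [coeff_mk]
    rcases Nat.eq_zero_or_pos j with rfl | hj0
    · exact ⟨0, by simp⟩
    · obtain ⟨a, ha⟩ := lcm_div hj0 hj
      refine ⟨-((-b) ^ j * a), ?_⟩
      push_cast
      rw [← ha]
      ring

/-- the index set of the family: `1`, the functions `h_κ`, the primitives and the logarithms -/
abbrev Ix {p q : ℕ} (g : Fin p → Polynomial ℤ) (a : Fin q → Fin p → ℚ) (s : ℕ) : Type :=
  Option (Fin q ⊕ ((Σ κ : Fin q, Fin (Nn g (a κ) - 1)) ⊕ Fin s))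

/-- the primitives and the logarithms -/
noncomputable def vs {p q s : ℕ} (g : Fin p → Polynomial ℤ) (a : Fin q → Fin p → ℚ) (h : Fin q → ℚ⟦X⟧) (b : Fin s → ℤ) :
    (Σ κ : Fin q, Fin (Nn g (a κ) - 1)) ⊕ Fin s → ℚ⟦X⟧ :=
  Sum.elim (fun x => Gs (h x.1) (ex g (a x.1) x.2)) (fun i => lgs (b i))

/-- the family is a family of G-functions -/
theorem fam_gf (hGFD : S_GFD) (hPRI : S_PRI) {p q s : ℕ} (g : Fin p → Polynomial ℤ) (hg0 : ∀ i, g i ≠ 0)
    (a : Fin q → Fin p → ℚ) (hA : ∀ κ, ∀ z : ℤ, ∑ i, a κ i * ((g i).natDegree : ℚ) ≠ z) (h hi : Fin q → ℚ⟦X⟧)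
    (hhi : ∀ κ, h κ * hi κ = 1) (hhS : ∀ κ, SDc (h κ)) (hhiS : ∀ κ, SDc (hi κ))
    (hode : ∀ κ, (∏ i, (revq (g i) : ℚ⟦X⟧)) * d⁄dX ℚ (h κ) =
      -(∑ i, C (a κ i) * ((Polynomial.derivative (revq (g i)) : Polynomial ℚ) : ℚ⟦X⟧) *
        ∏ k ∈ Finset.univ.erase i, (revq (g k) : ℚ⟦X⟧)) * h κ) (b : Fin s → ℤ) :
    ∃ (r : ℕ) (T : Polynomial ℤ) (A : Fin r → Fin r → Polynomial ℤ) (y : Fin r → ℚ⟦X⟧) (pl : (Σ κ : Fin q, Fin (Nn g (a κ) - 1)) ⊕ Fin s → Fin r),
      Pool.Agent.Y124.TL.GF T A y ∧ Function.Injective pl ∧ ∀ v, y (pl v) = vs g a h b v := by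
  classical
  have hexn : ∀ z : (Σ κ : Fin q, Fin (Nn g (a κ) - 1)), ∀ m : ℤ, ex g (a z.1) z.2 ≠ m := by
    intro z m hm
    unfold ex at hm
    apply hA z.1 (m + ((z.2 : ℕ) + 1))
    push_cast
    linarith
  let par : Ix g a s → Ix g a s := fun o => match o with
    | none => none
    | some (Sum.inl κ) => some (Sum.inl κ)
    | some (Sum.inr (Sum.inl z)) => some (Sum.inl z.1)
    | some (Sum.inr (Sum.inr _)) => none
  let y : Ix g a s → ℚ⟦X⟧ := fun o => match o with
    | none => 1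
    | some (Sum.inl κ) => h κ
    | some (Sum.inr v) => vs g a h b v
  let yi : Ix g a s → ℚ⟦X⟧ := fun o => match o with
    | none => 1
    | some (Sum.inl κ) => hi κ
    | some (Sum.inr _) => 1
  let ν : Ix g a s → ℚ := fun o => match o with
    | none => 0
    | some (Sum.inl _) => 0
    | some (Sum.inr (Sum.inl z)) => -(ex g (a z.1) z.2)
    | some (Sum.inr (Sum.inr _)) => 0
  let t : Ix g a s → Polynomial ℚ := fun o => match o with
    | none => 1
    | some (Sum.inl _) => ∏ i, revq (g i)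
    | some (Sum.inr (Sum.inl _)) => 1
    | some (Sum.inr (Sum.inr i)) => 1 + Polynomial.C (b i : ℚ) * Polynomial.X
  let α : Ix g a s → Polynomial ℚ := fun o => match o with
    | none => 0
    | some (Sum.inl κ) => -(Polynomial.X * ∑ i, Polynomial.C (a κ i) * Polynomial.derivative (revq (g i)) *
        ∏ k ∈ Finset.univ.erase i, revq (g k))
    | some (Sum.inr (Sum.inl z)) => Polynomial.C (-(ex g (a z.1) z.2))
    | some (Sum.inr (Sum.inr _)) => 0
  let β : Ix g a s → Polynomial ℚ := fun o => match o with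
    | none => 0
    | some (Sum.inl _) => 0
    | some (Sum.inr (Sum.inl _)) => 1
    | some (Sum.inr (Sum.inr i)) => Polynomial.C (b i : ℚ) * Polynomial.X
  obtain ⟨r, e, T, A, hGF⟩ := par_gf hGFD par (by
      rintro (_ | κ | z | i) <;> rfl) y yi (by
      rintro (_ | κ | z | i) ho
      · exact one_mul 1
      · exact hhi κ
      · exact absurd ho (by simp [par])
      · exact absurd ho (by simp [par])) (by
      rintro (_ | κ | z | i)
      · exact SDc.one
      · exact hhS κ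
      · exact hPRI _ _ (hexn z) (hhS z.1)
      · exact lgs_SDc (b i)) (by
      rintro (_ | κ | z | i)
      · exact SDc.one
      · exact hhiS κ
      · exact SDc.one
      · exact SDc.one) ν (by
      rintro (_ | κ | z | i) ho
      · rfl
      · rfl
      · exact absurd ho (by simp [par])
      · rfl) t α β (by
      rintro (_ | κ | z | i)
      · exact one_ne_zero
      · exact Finset.prod_ne_zero_iff.2 fun i _ => revq_ne (hg0 i)
      · exact one_ne_zero
      · intro h0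
        have h1 : (1 + Polynomial.C (b i : ℚ) * Polynomial.X : Polynomial ℚ) = 0 := h0
        have h2 := congrArg (fun P : Polynomial ℚ => P.coeff 0) h1
        simp at h2) (by
      rintro (_ | κ | z | i) ho
      · show ((1 : Polynomial ℚ) : ℚ⟦X⟧) * (X * d⁄dX ℚ (1 : ℚ⟦X⟧)) = ((0 : Polynomial ℚ) : ℚ⟦X⟧) * 1
        rw [Derivation.map_one_eq_zero]
        simp
      · show ((∏ i, revq (g i) : Polynomial ℚ) : ℚ⟦X⟧) * (X * d⁄dX ℚ (h κ)) =
          ((-(Polynomial.X * ∑ i, Polynomial.C (a κ i) * Polynomial.derivative (revq (g i)) *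
            ∏ k ∈ Finset.univ.erase i, revq (g k)) : Polynomial ℚ) : ℚ⟦X⟧) * h κ
        have hcoe : ∀ P : Polynomial ℚ, (P : ℚ⟦X⟧) = Polynomial.coeToPowerSeries.ringHom P := fun P => rfl
        have h1 := hode κ
        simp only [hcoe] at h1 ⊢
        rw [map_prod, map_neg, map_mul, map_sum]
        simp only [map_mul, map_prod]
        have hX : Polynomial.coeToPowerSeries.ringHom (Polynomial.X : Polynomial ℚ) = X := Polynomial.coe_X
        have hC : ∀ c : ℚ, Polynomial.coeToPowerSeries.ringHom (Polynomial.C c : Polynomial ℚ) = C c := fun c => Polynomial.coe_C c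
        simp only [hX, hC]
        linear_combination X * h1
      · exact absurd ho (by simp [par])
      · exact absurd ho (by simp [par])) (by
      rintro (_ | κ | z | i) ho
      · exact absurd rfl ho
      · exact absurd rfl ho
      · exact (one_mul _).symm
      · show (0 : Polynomial ℚ) = _ * Polynomial.C (0 : ℚ)
        rw [map_zero, mul_zero]) (by
      rintro (_ | κ | z | i) ho
      · exact absurd rfl ho
      · exact absurd rfl ho
      · show ((1 : Polynomial ℚ) : ℚ⟦X⟧) * (X * d⁄dX ℚ (Gs (h z.1) (ex g (a z.1) z.2))) =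
          ((Polynomial.C (-(ex g (a z.1) z.2)) : Polynomial ℚ) : ℚ⟦X⟧) * Gs (h z.1) (ex g (a z.1) z.2) +
            ((1 : Polynomial ℚ) : ℚ⟦X⟧) * h z.1
        have h1 := Gs_ode (h z.1) (hexn z)
        rw [Polynomial.coe_one, Polynomial.coe_C, map_neg, one_mul, one_mul]
        linear_combination h1
      · show ((1 + Polynomial.C (b i : ℚ) * Polynomial.X : Polynomial ℚ) : ℚ⟦X⟧) * (X * d⁄dX ℚ (lgs (b i))) =
          ((0 : Polynomial ℚ) : ℚ⟦X⟧) * lgs (b i) + ((Polynomial.C (b i : ℚ) * Polynomial.X : Polynomial ℚ) : ℚ⟦X⟧) * 1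
        have h1 := lgs_ode (b i)
        rw [Polynomial.coe_add, Polynomial.coe_one, Polynomial.coe_mul, Polynomial.coe_C, Polynomial.coe_X, Polynomial.coe_zero]
        linear_combination X * h1)
  refine ⟨r, T, A, fun i => y (e.symm i), fun v => e (some (Sum.inr v)), hGF, fun v v' hvv => ?_, fun v => ?_⟩
  · have h1 := e.injective hvv
    simpa using h1
  · show y (e.symm (e (some (Sum.inr v)))) = _
    rw [Equiv.symm_apply_apply]

end Pool.Agent.P8H40.SE
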