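import Pool.Agent.P8H47.SE.Val
import Pool.Agent.P8H47.SE.Pw
import Pool.Agent.P8H40.SE.Fam

/-!
# Existence of the primitives, and their expression as integrals
-/

set_option autoImplicit false

open PowerSeries Filter Topology Pool.Agent.Y113 Pool.Agent.P8H47.SE Pool.Agent.Y119.ML

namespace Pool.Agent.P8H40.SE

/-- existence of the primitives; the proof is that of helper47 for the package VAL -/
theorem exists_prim {p : ℕ} (g : Fin p → Polynomial ℤ) (a : Fin p → ℚ) (j : ℕ) (hlc : ∀ i, 0 < (g i).leadingCoeff)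
    (hz : ∀ z : ℤ, ex g a j ≠ z) : ∃ F, IsPrim g a j F := by
  classical
  obtain ⟨h, -, h0, -, hSD, -, hode⟩ := exists_h pw g (fun i => Polynomial.leadingCoeff_ne_zero.1 (hlc i).ne') a
  set e : ℚ := ex g a j with he
  set K : ℚ⟦X⟧ := PowerSeries.mk fun m => coeff m h / ((m : ℚ) + e) with hK
  have hKS : SDc K := pri h e (fun n hn => hz n hn) hSD
  obtain ⟨n₁, hn₁⟩ := hSD
  obtain ⟨n₂, hn₂⟩ := hKS
  set A : ℝ := 2 ^ (n₁ + n₂) with hA
  have hAh : SDp A h := hn₁.mono (pow_le_pow_right₀ (by norm_num) (by omega))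
  have hAK : SDp A K := hn₂.mono (pow_le_pow_right₀ (by norm_num) (by omega))
  have hA1 := hAh.one_le
  obtain ⟨δ, hδ0, hδ⟩ := S_eq (r := fun i => revq (g i)) (fun i => revq_zero (hlc i)) hAh h0 hode
  set c : ℝ := ∏ i, ((g i).leadingCoeff : ℝ) ^ (-(a i : ℝ)) with hc
  -- the differential equation of `K`
  have hKode : C e * K + X * d⁄dX ℚ K = h := by
    ext m
    have hme : ((m : ℚ) + e) ≠ 0 := by
      intro h1
      refine hz (-(m : ℤ)) ?_
      push_cast
      linarith
    rw [map_add, coeff_C_mul]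
    rcases m with _ | m
    · rw [coeff_zero_X_mul, hK, coeff_mk, add_zero]
      field_simp
      rw [Nat.cast_zero, zero_add]
    · rw [coeff_succ_X_mul, coeff_derivative, hK, coeff_mk]
      field_simp
      push_cast
      ring
  have hKS' : ∀ x : ℝ, 0 ≤ x → x * (2 * A ^ 2) < 1 → e * S K x + x * S (d⁄dX ℚ K) x = S h x := by
    intro x hx0 hx
    have hxA : x * A < 1 := by
      have : x * A ≤ x * (2 * A ^ 2) := mul_le_mul_of_nonneg_left (by nlinarith) hx0
      linarith
    rw [← hKode]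
    have e1 : S (C e * K + X * d⁄dX ℚ K) x = S (C e * K) x + S (X * d⁄dX ℚ K) x := by
      unfold S
      rcases hx0.eq_or_lt with rfl | hx1
      · rw [tsum_eq_single 0 (by intro m hm; simp [hm]), tsum_eq_single 0 (by intro m hm; simp [hm]),
          tsum_eq_single 0 (by intro m hm; simp [hm])]
        simp
      · have ht : 0 < 1 / x := by positivity
        have c1 : Cv (1 / x) K := by
          refine Cv.of_bound (A := A) (B := A) ht (by linarith) ?_ fun m => ?_
          · rw [lt_div_iff₀ hx1]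
            linarith
          · exact (hAK.1 m).trans (le_of_eq (pow_succ' _ _))
        have c2 : Cv (1 / x) (d⁄dX ℚ K) := by
          refine Cv.of_bound (A := 2 * A ^ 2) (B := 2 * A ^ 2) ht (by positivity) ?_ fun m => ?_
          · rw [lt_div_iff₀ hx1]
            linarith
          · exact (hAK.deriv.1 m).trans (le_of_eq (pow_succ' _ _))
        have c3 : Cv (1 / x) (C e * K) := (Cv.C e).mul ht c1
        have c4 : Cv (1 / x) (X * d⁄dX ℚ K) := by
          have := (Cv.coe (t := 1 / x) (Polynomial.X : Polynomial ℚ)).mul ht c2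
          rwa [Polynomial.coe_X] at this
        have h1 := c3.ev_add ht c4
        unfold ev at h1
        rw [one_div_one_div] at h1
        exact h1
    have e2 : S (C e * K) x = e * S K x := by
      rw [← Polynomial.coe_C, S_coe_mul hAK _ hx0 hxA, Polynomial.aeval_C]
      rfl
    have e3 : S (X * d⁄dX ℚ K) x = x * S (d⁄dX ℚ K) x := by
      rw [← Polynomial.coe_X, S_coe_mul hAK.deriv _ hx0 hx, Polynomial.aeval_X]
    rw [e1, e2, e3]
  -- the integrand near infinity
  have hint : ∀ t : ℝ, 0 < t → 1 / t < δ → integrand g a j t = c * t ^ (-(e : ℝ) - 1) * S h (1 / t) := by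
    intro t ht htδ
    obtain ⟨hr, hS⟩ := hδ (1 / t) (by positivity) htδ
    unfold integrand
    have h1 : ∀ i, ((g i).map (Int.castRingHom ℝ)).eval t ^ (-(a i : ℝ)) =
        ((g i).leadingCoeff : ℝ) ^ (-(a i : ℝ)) * t ^ (((g i).natDegree : ℝ) * -(a i : ℝ)) *
          Real.exp (-((a i : ℝ) * Real.log (Polynomial.aeval (1 / t) (revq (g i))))) := by
      intro i
      have hl : (0 : ℝ) < ((g i).leadingCoeff : ℝ) := by exact_mod_cast hlc i
      rw [eval_revq (hlc i) ht, Real.mul_rpow (by positivity) (hr i).le, Real.mul_rpow hl.le (by positivity),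
        ← Real.rpow_natCast, ← Real.rpow_mul ht.le, Real.rpow_def_of_pos (hr i)]
      congr 2
      ring
    rw [Finset.prod_congr rfl fun i _ => h1 i, Finset.prod_mul_distrib, Finset.prod_mul_distrib, ← Real.exp_sum,
      ← Real.rpow_sum_of_pos ht, hS, ← Finset.sum_neg_distrib]
    have h2 : t ^ j * t ^ (∑ i, ((g i).natDegree : ℝ) * -(a i : ℝ)) = t ^ (-(e : ℝ) - 1) := by
      rw [← Real.rpow_natCast, ← Real.rpow_add ht]
      congr 1
      rw [he]
      unfold Pool.Agent.P8H40.SE.ex
      push_cast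
      have h3 : ∑ i, ((g i).natDegree : ℝ) * -(a i : ℝ) = -∑ i, (a i : ℝ) * ((g i).natDegree : ℝ) := by
        rw [← Finset.sum_neg_distrib]
        exact Finset.sum_congr rfl fun i _ => by ring
      rw [h3]
      ring
    rw [← h2]
    ring
  -- the second primitive
  set F₁ : ℝ → ℝ := fun t => -(c * t ^ (-(e : ℝ)) * S K (1 / t)) with hF₁
  have hF₁d : ∀ t : ℝ, 0 < t → 1 / t < δ → 1 / t * (2 * A ^ 2) < 1 → HasDerivAt F₁ (integrand g a j t) t := by
    intro t ht htδ htA
    have hx0 : 0 ≤ 1 / t := by positivity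
    have hxA : |1 / t| * A < 1 := by
      rw [abs_of_nonneg hx0]
      have : 1 / t * A ≤ 1 / t * (2 * A ^ 2) := mul_le_mul_of_nonneg_left (by nlinarith) hx0
      linarith
    have d1 : HasDerivAt (fun t : ℝ => t ^ (-(e : ℝ))) (-(e : ℝ) * t ^ (-(e : ℝ) - 1)) t :=
      Real.hasDerivAt_rpow_const (Or.inl ht.ne')
    have d2 : HasDerivAt (fun t : ℝ => 1 / t) (-(1 / t ^ 2)) t := by
      have := hasDerivAt_inv ht.ne'
      simpa [one_div] using this
    have d3 : HasDerivAt (fun t : ℝ => S K (1 / t)) (S (d⁄dX ℚ K) (1 / t) * -(1 / t ^ 2)) t :=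
      (hasDerivAt_S hAK hxA).comp t d2
    have d4 := ((d1.const_mul c).mul d3).neg
    rw [hint t ht htδ, ← hKS' (1 / t) hx0 htA]
    refine d4.congr_deriv ?_
    have h1 : t ^ (-(e : ℝ)) = t ^ (-(e : ℝ) - 1) * t := by
      rw [Real.rpow_sub_one ht.ne']
      field_simp
    rw [h1]
    field_simp
    ring
  -- the difference is constant
  have hsmall : ∀ᶠ t : ℝ in atTop, 0 < t ∧ 1 / t < δ ∧ 1 / t * (2 * A ^ 2) < 1 := by
    have h1 : Tendsto (fun t : ℝ => 1 / t) atTop (𝓝 0) := by simpa using tendsto_inv_atTop_zero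
    have h2 : Tendsto (fun t : ℝ => 1 / t * (2 * A ^ 2)) atTop (𝓝 (0 * (2 * A ^ 2))) := h1.mul_const _
    rw [zero_mul] at h2
    filter_upwards [eventually_gt_atTop 0, h1.eventually_lt_const hδ0, h2.eventually_lt_const one_pos] with t a b c
    exact ⟨a, b, c⟩
  refine ⟨fun t => ((F₁ t : ℝ) : ℂ), fun z : ℂ => -((c : ℂ) * ∑' m : ℕ, ((coeff m K : ℚ) : ℂ) * z ^ m),
    (analyticAt_const.mul (analytic_tsum hAK)).neg, ?_⟩
  filter_upwards [hsmall] with t ht
  refine ⟨(hF₁d t ht.1 ht.2.1 ht.2.2).ofReal_comp, ?_⟩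
  have h2 : (1 / (t : ℂ)) = ((1 / t : ℝ) : ℂ) := by push_cast; rfl
  rw [h2, tsum_real, hF₁]
  push_cast
  ring

/-- the primitive is the integral to infinity if the exponent is positive -/
theorem prim_integral {p : ℕ} (g : Fin p → Polynomial ℤ) (a : Fin p → ℚ) (j : ℕ) (hlc : ∀ i, 0 < (g i).leadingCoeff)
    (he : 0 < ex g a j) {F : ℝ → ℂ} (hF : IsPrim g a j F) :
    ∀ᶠ t : ℝ in atTop, F t = -((∫ u in Set.Ioi t, integrand g a j u : ℝ) : ℂ) := by
  obtain ⟨G, hG, hFe⟩ := hF
  have hlim : Tendsto (fun t : ℝ => (1 / (t : ℂ))) atTop (𝓝 0) := by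
    have h0 : Tendsto (fun t : ℝ => 1 / t) atTop (𝓝 0) := by
      simpa using (tendsto_inv_atTop_zero (𝕜 := ℝ))
    have h1 := (Complex.continuous_ofReal.tendsto 0).comp h0
    rw [Complex.ofReal_zero] at h1
    refine h1.congr fun t => ?_
    simp
  have hF0 : Tendsto F atTop (𝓝 0) := by
    have h1 : Tendsto (fun t : ℝ => ((t ^ (-(ex g a j : ℝ)) : ℝ) : ℂ)) atTop (𝓝 0) := by
      have h2 := (Complex.continuous_ofReal.tendsto 0).comp (tendsto_rpow_neg_atTop (y := (ex g a j : ℝ)) (by exact_mod_cast he))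
      rw [Complex.ofReal_zero] at h2
      exact h2
    have h2 := h1.mul (hG.continuousAt.tendsto.comp hlim)
    rw [zero_mul] at h2
    refine h2.congr' ?_
    filter_upwards [hFe] with t ht
    exact ht.2.symm
  have hpos : ∀ᶠ t : ℝ in atTop, ∀ i, 0 < ((g i).map (Int.castRingHom ℝ)).eval t := by
    rw [eventually_all]
    intro i
    have hl : (0 : ℝ) < ((g i).map (Int.castRingHom ℝ)).leadingCoeff := by
      rw [Polynomial.leadingCoeff_map_of_injective (RingHom.injective_int _)]
      have := hlc i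
      simpa using this
    rcases Nat.eq_zero_or_pos ((g i).map (Int.castRingHom ℝ)).natDegree with h0 | h0
    · rw [Polynomial.eq_C_of_natDegree_eq_zero h0] at hl ⊢
      rw [Polynomial.leadingCoeff_C] at hl
      refine Eventually.of_forall fun x => ?_
      rw [Polynomial.eval_C]
      exact hl
    · exact (Polynomial.tendsto_atTop_of_leadingCoeff_nonneg _ (Polynomial.natDegree_pos_iff_degree_pos.1 h0) hl.le).eventually_gt_atTop 0
  obtain ⟨T, hT⟩ := eventually_atTop.1 ((hFe.and hpos).and (eventually_ge_atTop 1))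
  filter_upwards [eventually_ge_atTop (T + 1)] with t ht
  have hder : ∀ u ∈ Set.Ici t, HasDerivAt F ((integrand g a j u : ℝ) : ℂ) u := fun u hu =>
    (hT u (by have hu' : t ≤ u := hu; linarith)).1.1.1
  have hre : ∀ u ∈ Set.Ici t, HasDerivAt (fun u => (F u).re) (integrand g a j u) u := by
    intro u hu
    have h1 := Complex.reCLM.hasFDerivAt.comp_hasDerivAt u (hder u hu)
    have h2 : Complex.reCLM ((integrand g a j u : ℝ) : ℂ) = integrand g a j u := Complex.ofReal_re _
    rw [h2] at h1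
    exact h1
  have hnn : ∀ u ∈ Set.Ioi t, 0 ≤ integrand g a j u := by
    intro u hu
    have hu' : t < u := hu
    have h1 := hT u (by linarith)
    unfold integrand
    exact mul_nonneg (pow_nonneg (by linarith [h1.2]) _) (Finset.prod_nonneg fun i _ => Real.rpow_nonneg (h1.1.2 i).le _)
  have hre0 : Tendsto (fun u => (F u).re) atTop (𝓝 0) := by
    have h1 := (Complex.continuous_re.tendsto 0).comp hF0
    rwa [Complex.zero_re] at h1
  have hint : MeasureTheory.IntegrableOn (integrand g a j) (Set.Ioi t) :=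
    MeasureTheory.integrableOn_Ioi_deriv_of_nonneg (g := fun u => (F u).re) (hre t (Set.mem_Ici.2 le_rfl)).continuousAt.continuousWithinAt
      (fun u hu => hre u (Set.mem_Ici.2 (le_of_lt hu))) hnn hre0
  have h1 := MeasureTheory.integral_Ioi_of_hasDerivAt_of_tendsto (f := F) (f' := fun u => ((integrand g a j u : ℝ) : ℂ))
    (hder t (Set.mem_Ici.2 le_rfl)).continuousAt.continuousWithinAt (fun u hu => hder u (Set.mem_Ici.2 (le_of_lt hu)))
    hint.ofReal hF0
  rw [zero_sub] at h1
  rw [← neg_eq_iff_eq_neg, ← h1]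
  exact integral_ofReal

end Pool.Agent.P8H40.SE
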