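import Pool.Agent.P8H40.SE.Par

/-!
# Factorisation of a family of squarefree polynomials
-/

set_option autoImplicit false

open Polynomial UniqueFactorizationMonoid

namespace Pool.Agent.P8H40.SE

/-- common factors of a family of squarefree polynomials -/
theorem factor_family {n : ℕ} (f : Fin n → ℚ[X]) (hsq : ∀ i, Squarefree (f i)) (hlc : ∀ i, 0 < (f i).leadingCoeff) :
    ∃ (p : ℕ) (g : Fin p → ℤ[X]) (S : Fin n → Finset (Fin p)), Squarefree (∏ j, (g j).map (Int.castRingHom ℚ)) ∧
      (∀ j, 0 < (g j).natDegree) ∧ (∀ j, 0 < (g j).leadingCoeff) ∧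
      ∀ i, ∃ c : ℚ, 0 < c ∧ C c * f i = ∏ j ∈ S i, (g j).map (Int.castRingHom ℚ) := by
  classical
  have hf0 : ∀ i, f i ≠ 0 := fun i h => by
    have := hlc i
    rw [h, leadingCoeff_zero] at this
    exact lt_irrefl _ this
  have hF0 : ∏ i, f i ≠ 0 := Finset.prod_ne_zero_iff.2 fun i _ => hf0 i
  set P : Finset ℚ[X] := (normalizedFactors (∏ i, f i)).toFinset with hP
  have hPm : ∀ π, π ∈ P ↔ Irreducible π ∧ π.Monic ∧ π ∣ ∏ i, f i := fun π => by
    rw [hP, Multiset.mem_toFinset, Polynomial.mem_normalizedFactors_iff hF0]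
  let e : Fin P.card ≃ P := P.equivFin.symm
  have he : ∀ j, Irreducible (e j : ℚ[X]) ∧ (e j : ℚ[X]).Monic ∧ (e j : ℚ[X]) ∣ ∏ i, f i := fun j => (hPm _).1 (e j).2
  obtain ⟨N, hN0, hN⟩ := common_den (fun j : Fin P.card => (e j : ℚ[X]))
  choose Q hQ using hN
  have hNq : (N : ℚ) ≠ 0 := by exact_mod_cast hN0
  have hg : ∀ j, ((C N * Q j).map (Int.castRingHom ℚ) : ℚ[X]) = C ((N : ℚ) ^ 2) * (e j : ℚ[X]) := by
    intro j
    rw [Polynomial.map_mul, hQ, Polynomial.map_C, ← mul_assoc, ← C_mul]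
    congr 2
    rw [eq_intCast]
    ring
  have hinjZ : Function.Injective (Int.castRingHom ℚ) := RingHom.injective_int _
  refine ⟨P.card, fun j => C N * Q j, fun i => Finset.univ.filter fun j => (e j : ℚ[X]) ∣ f i, ?_, fun j => ?_, fun j => ?_, fun i => ?_⟩
  · have h1 : ∏ j, ((C N * Q j).map (Int.castRingHom ℚ) : ℚ[X]) = C (((N : ℚ) ^ 2) ^ P.card) * ∏ j, (e j : ℚ[X]) := by
      rw [Finset.prod_congr rfl fun j _ => hg j, Finset.prod_mul_distrib, Finset.prod_const, Finset.card_univ, Fintype.card_fin,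
        ← C_pow]
    rw [h1]
    have h2 : Squarefree (∏ j, (e j : ℚ[X])) := by
      refine Finset.squarefree_prod_of_pairwise_isCoprime ?_ fun j _ => (he j).1.squarefree
      intro j _ j' _ hjj
      have h3 : ¬ (e j : ℚ[X]) ∣ (e j' : ℚ[X]) := by
        intro h4
        have h5 := (he j).1.associated_of_dvd (he j').1 h4
        have h6 := eq_of_monic_of_associated (he j).2.1 (he j').2.1 h5
        exact hjj (e.injective (Subtype.ext h6))
      exact ((he j).1.coprime_iff_not_dvd.2 h3).isRelPrime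
    have h3 : IsUnit (C (((N : ℚ) ^ 2) ^ P.card)) := by
      rw [isUnit_C, isUnit_iff_ne_zero]
      positivity
    exact h2.squarefree_of_dvd (h3.mul_left_dvd.2 dvd_rfl)
  · have h1 := (he j).1.natDegree_pos
    have h2 : (C N * Q j).natDegree = (e j : ℚ[X]).natDegree := by
      rw [← natDegree_map_eq_of_injective hinjZ, hg j, natDegree_C_mul (by positivity)]
    show 0 < (C N * Q j).natDegree
    rw [h2]
    exact h1
  · have h2 : (((C N * Q j).leadingCoeff : ℤ) : ℚ) = (N : ℚ) ^ 2 := by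
      have h3 := leadingCoeff_map_of_injective hinjZ (p := C N * Q j)
      rw [hg j, leadingCoeff_mul, leadingCoeff_C, (he j).2.1.leadingCoeff, mul_one] at h3
      exact h3.symm
    show 0 < (C N * Q j).leadingCoeff
    have h3 : (0 : ℚ) < (((C N * Q j).leadingCoeff : ℤ) : ℚ) := by rw [h2]; positivity
    exact_mod_cast h3
  · set S : Finset (Fin P.card) := Finset.univ.filter fun j => (e j : ℚ[X]) ∣ f i with hS
    refine ⟨((N : ℚ) ^ 2) ^ S.card / (f i).leadingCoeff, div_pos (by positivity) (hlc i), ?_⟩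
    have h1 : ∏ j ∈ S, ((C N * Q j).map (Int.castRingHom ℚ) : ℚ[X]) = C (((N : ℚ) ^ 2) ^ S.card) * ∏ j ∈ S, (e j : ℚ[X]) := by
      rw [Finset.prod_congr rfl fun j _ => hg j, Finset.prod_mul_distrib, Finset.prod_const, ← C_pow]
    rw [h1]
    have h2 : ∏ j ∈ S, (e j : ℚ[X]) = (normalizedFactors (f i)).prod := by
      have h3 : (normalizedFactors (f i)).Nodup := (squarefree_iff_nodup_normalizedFactors (hf0 i)).1 (hsq i)
      have h4 : S.image (fun j => (e j : ℚ[X])) = (normalizedFactors (f i)).toFinset := by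
        ext π
        rw [Multiset.mem_toFinset, Polynomial.mem_normalizedFactors_iff (hf0 i), Finset.mem_image]
        constructor
        · rintro ⟨j, hj, rfl⟩
          exact ⟨(he j).1, (he j).2.1, (Finset.mem_filter.1 hj).2⟩
        · rintro ⟨a, b, c⟩
          have h5 : π ∈ P := (hPm π).2 ⟨a, b, c.trans (Finset.dvd_prod_of_mem f (Finset.mem_univ i))⟩
          refine ⟨e.symm ⟨π, h5⟩, Finset.mem_filter.2 ⟨Finset.mem_univ _, ?_⟩, ?_⟩
          · rw [Equiv.apply_symm_apply]
            exact c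
          · rw [Equiv.apply_symm_apply]
      rw [← Finset.prod_image (f := fun π : ℚ[X] => π) (g := fun j => (e j : ℚ[X])) fun j _ j' _ h => e.injective (Subtype.ext h), h4,
        Finset.prod_multiset_count, Finset.prod_congr rfl]
      intro π hπ
      rw [Multiset.count_eq_one_of_mem h3 (Multiset.mem_toFinset.1 hπ), pow_one]
    rw [h2]
    have h6 := leadingCoeff_mul_prod_normalizedFactors (f i)
    calc C (((N : ℚ) ^ 2) ^ S.card / (f i).leadingCoeff) * f i
        = C (((N : ℚ) ^ 2) ^ S.card / (f i).leadingCoeff) * (C (f i).leadingCoeff * (normalizedFactors (f i)).prod) := by rw [h6]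
      _ = _ := by rw [← mul_assoc, ← C_mul, div_mul_cancel₀ _ (hlc i).ne']

end Pool.Agent.P8H40.SE
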