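import Pool.Agent.P8H40.SE.Stm
import Pool.Agent.W253.LF.Ost

/-!
# Linear independence of inequivalent hyperexponential elements
-/

set_option autoImplicit false

open Polynomial

namespace Pool.Agent.P8H40.SE

section
variable {K E : Type} [Field K] [Field E] [Algebra K E]

theorem D_aeval (D : Derivation K E E) {τ : E} (h : D τ = 1) (P : K[X]) : D (aeval τ P) = aeval τ (derivative P) := by
  induction P using Polynomial.induction_on' with
  | add p q hp hq => rw [map_add, map_add, hp, hq, derivative_add, map_add]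
  | monomial n a =>
    rw [aeval_monomial, derivative_monomial, aeval_monomial, Derivation.leibniz, Derivation.map_algebraMap,
      Derivation.leibniz_pow, h]
    simp
    ring

/-- `τ` is transcendental -/
theorem tr [CharZero K] (D : Derivation K E E) {τ : E} (h : D τ = 1) : ∀ P : K[X], aeval τ P = 0 → P = 0 := by
  intro P
  induction hn : P.natDegree using Nat.strong_induction_on generalizing P with
  | _ n ih =>
    intro hP
    by_cases h0 : P.natDegree = 0
    · rw [Polynomial.eq_C_of_natDegree_eq_zero h0, aeval_C] at hP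
      rw [Polynomial.eq_C_of_natDegree_eq_zero h0]
      have := (algebraMap K E).injective (hP.trans (map_zero _).symm)
      rw [this, C_0]
    · exfalso
      have h1 : aeval τ (derivative P) = 0 := by rw [← D_aeval D h, hP, map_zero]
      have h2 : (derivative P).natDegree < n := by
        rw [← hn]
        exact natDegree_derivative_lt h0
      have h3 := ih _ h2 _ rfl h1
      exact h0 (derivative_eq_zero.1 h3)

/-- the field `K(τ)` -/
def k0 (D : Derivation K E E) (τ : E) [CharZero K] (h : D τ = 1) : IntermediateField K E where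
  carrier := {x | ∃ P Q : K[X], Q ≠ 0 ∧ aeval τ Q * x = aeval τ P}
  mul_mem' := by
    rintro x y ⟨P, Q, hQ, hx⟩ ⟨P', Q', hQ', hy⟩
    refine ⟨P * P', Q * Q', mul_ne_zero hQ hQ', ?_⟩
    simp only [map_mul]
    rw [← hx, ← hy]
    ring
  add_mem' := by
    rintro x y ⟨P, Q, hQ, hx⟩ ⟨P', Q', hQ', hy⟩
    refine ⟨P * Q' + P' * Q, Q * Q', mul_ne_zero hQ hQ', ?_⟩
    simp only [map_mul, map_add]
    rw [← hx, ← hy]
    ring
  algebraMap_mem' := by
    intro c
    exact ⟨C c, 1, one_ne_zero, by simp⟩
  inv_mem' := by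
    rintro x ⟨P, Q, hQ, hx⟩
    by_cases hx0 : x = 0
    · exact ⟨0, 1, one_ne_zero, by simp [hx0]⟩
    · refine ⟨Q, P, ?_, ?_⟩
      · rintro rfl
        rw [map_zero] at hx
        rcases mul_eq_zero.1 hx with h1 | h1
        · exact hQ (tr D h Q h1)
        · exact hx0 h1
      · rw [← hx, mul_assoc, mul_inv_cancel₀ hx0, mul_one]

variable [CharZero K] {D : Derivation K E E} {τ : E} {h : D τ = 1}

theorem mem_k0 {x : E} : x ∈ k0 D τ h ↔ ∃ P Q : K[X], Q ≠ 0 ∧ aeval τ Q * x = aeval τ P := Iff.rfl

theorem poly_mem (P : K[X]) : aeval τ P ∈ k0 D τ h := ⟨P, 1, one_ne_zero, by simp⟩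

theorem D_mem {x : E} (hx : x ∈ k0 D τ h) : D x ∈ k0 D τ h := by
  obtain ⟨P, Q, hQ, hx⟩ := hx
  refine ⟨derivative P * Q - derivative Q * P, Q * Q, mul_ne_zero hQ hQ, ?_⟩
  have h1 := congrArg D hx
  rw [Derivation.leibniz, D_aeval D h, D_aeval D h, smul_eq_mul, smul_eq_mul] at h1
  simp only [map_mul, map_sub]
  rw [← hx, ← h1]
  ring

/-- the log derivative is rational -/
def Hx (D : Derivation K E E) (τ : E) (h : D τ = 1) (x : E) : Prop := x ≠ 0 ∧ D x / x ∈ k0 D τ h ∧ ∃ n : ℕ, 0 < n ∧ x ^ n ∈ k0 D τ h

/-- **Linear independence of inequivalent hyperexponential elements.** -/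
theorem lin (hconst : ∀ x : E, D x = 0 → ∃ c : K, algebraMap K E c = x) {ι : Type} (z : ι → E) (hz0 : ∀ i, z i ≠ 0)
    (hz : ∀ i, D (z i) / z i ∈ k0 D τ h) (hne : ∀ i j, i ≠ j → z i / z j ∉ k0 D τ h) : LinearIndependent (k0 D τ h) z := by
  classical
  rw [linearIndependent_iff']
  intro s
  induction s using Finset.strongInduction with
  | _ s ih =>
    intro g hg
    by_contra hcon
    push Not at hcon
    obtain ⟨i0, hi0, hg0⟩ := hcon
    -- normalisation
    set b : ι → k0 D τ h := fun i => g i / g i0 with hb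
    have hb0 : b i0 = 1 := div_self hg0
    have hrel : ∑ i ∈ s, (b i : E) * z i = 0 := by
      have h1 : ∑ i ∈ s, (b i : E) * z i = ((g i0 : E))⁻¹ * ∑ i ∈ s, g i • z i := by
        rw [Finset.mul_sum]
        refine Finset.sum_congr rfl fun i _ => ?_
        rw [hb]
        show ((g i / g i0 : k0 D τ h) : E) * z i = (g i0 : E)⁻¹ * ((g i : E) * z i)
        rw [IntermediateField.coe_div]
        ring
      rw [h1, hg, mul_zero]
    have hD := congrArg D hrel
    rw [map_sum, map_zero] at hD
    -- the difference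
    obtain ⟨lam, hlz⟩ : ∃ lam : ι → k0 D τ h, ∀ i, D (z i) = (lam i : E) * z i :=
      ⟨fun i => ⟨D (z i) / z i, hz i⟩, fun i => by
        show D (z i) = D (z i) / z i * z i
        rw [div_mul_cancel₀ _ (hz0 i)]⟩
    set e : ι → k0 D τ h := fun i => ⟨D (b i), D_mem (b i).2⟩ + b i * (lam i - lam i0) with he
    have hrel2 : ∑ i ∈ s.erase i0, e i • z i = 0 := by
      have h1 : ∑ i ∈ s, (e i : E) * z i = 0 := by
        have h2 : ∀ i ∈ s, (e i : E) * z i = D ((b i : E) * z i) - (lam i0 : E) * ((b i : E) * z i) := by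
          intro i _
          rw [Derivation.leibniz, hlz i, smul_eq_mul, smul_eq_mul, he]
          push_cast
          ring
        rw [Finset.sum_congr rfl h2, Finset.sum_sub_distrib, hD, ← Finset.mul_sum, hrel, mul_zero, sub_zero]
      have h3 : (e i0 : E) * z i0 = 0 := by
        rw [he]
        simp only [hb0, sub_self, mul_zero, add_zero]
        rw [OneMemClass.coe_one, Derivation.map_one_eq_zero, zero_mul]
      rw [← Finset.add_sum_erase s _ hi0, h3, zero_add] at h1
      exact h1
    have he0 := ih _ (Finset.erase_ssubset hi0) e hrel2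
    have hbz : ∀ i ∈ s.erase i0, b i = 0 := by
      intro i hi
      have h1 := he0 i hi
      have h2 : D ((b i : E) * z i / z i0) = 0 := by
        rw [div_eq_mul_inv, Derivation.leibniz, Derivation.leibniz, Derivation.leibniz_inv, hlz i, hlz i0]
        simp only [smul_eq_mul]
        have h3 := congrArg (Subtype.val) h1
        rw [he] at h3
        simp only [IntermediateField.coe_add, IntermediateField.coe_mul, AddSubgroupClass.coe_sub, IntermediateField.coe_zero] at h3
        have h4 := hz0 i0
        field_simp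
        linear_combination (z i) * h3
      obtain ⟨c, hc⟩ := hconst _ h2
      by_contra hbi
      have hbi' : (b i : E) ≠ 0 := fun h3 => hbi (Subtype.ext h3)
      refine hne i i0 (Finset.ne_of_mem_erase hi) ?_
      have h3 : z i / z i0 = algebraMap K E c * (b i : E)⁻¹ := by
        rw [hc]
        field_simp
      rw [h3]
      exact mul_mem (IntermediateField.algebraMap_mem _ c) (inv_mem (b i).2)
    have h5 : z i0 = 0 := by
      rw [← Finset.add_sum_erase s _ hi0, hb0, Finset.sum_eq_zero fun i hi => by rw [hbz i hi]; simp, add_zero] at hrel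
      simpa using hrel
    exact hz0 i0 h5

end

end Pool.Agent.P8H40.SE
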