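import Mathlib

/-!
# The differential equation of `∏ g_i ^ a_i`: polynomials
-/

set_option autoImplicit false

open Polynomial

namespace Pool.Agent.P8H40.SE

variable {K : Type} [Field K]

/-- homogeneous equations with a non-integral local exponent have no rational solutions -/
theorem hom_zero [CharZero K] {F Λ B Q π : K[X]} (hF : Squarefree F) (hπ : Irreducible π) (hπF : π ∣ F) {a : ℚ} (ha : ∀ n : ℤ, a ≠ n)
    (hΛ : π ∣ Λ - C (a : K) * derivative F) (hQ : Q ≠ 0)
    (h : F * (derivative B * Q - B * derivative Q) = Λ * B * Q) : B = 0 := by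
  by_contra hB
  have hp : Prime π := hπ.prime
  obtain ⟨B1, hB1, hB1'⟩ := (FiniteMultiplicity.of_prime_left hp hB).exists_eq_pow_mul_and_not_dvd
  obtain ⟨Q1, hQ1, hQ1'⟩ := (FiniteMultiplicity.of_prime_left hp hQ).exists_eq_pow_mul_and_not_dvd
  set u := multiplicity π B
  set v := multiplicity π Q
  obtain ⟨F1, hF1⟩ := hπF
  have hF1' : ¬ π ∣ F1 := by
    rintro ⟨F2, hF2⟩
    have := hF π ⟨F2, by rw [hF1, hF2]; ring⟩
    exact hπ.not_isUnit this
  have hdπ : ¬ π ∣ derivative π := by
    intro h1
    have h0 : derivative π ≠ 0 := fun h2 => by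
      have h3 := derivative_eq_zero.1 h2
      exact (hπ.natDegree_pos).ne' h3
    have h2 := natDegree_le_of_dvd h1 h0
    have h3 := natDegree_derivative_lt (p := π) hπ.natDegree_pos.ne'
    omega
  have hpow : ∀ n : ℕ, π * derivative (π ^ n) = π ^ n * (C (n : K) * derivative π) := by
    intro n
    rw [derivative_pow]
    rcases n with _ | n
    · simp
    · rw [Nat.add_sub_cancel, pow_succ]
      ring
  have e1 : π * derivative B = π ^ u * (C (u : K) * derivative π * B1 + π * derivative B1) := by
    conv_lhs => rw [hB1]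
    rw [derivative_mul]
    linear_combination B1 * hpow u
  have e2 : π * derivative Q = π ^ v * (C (v : K) * derivative π * Q1 + π * derivative Q1) := by
    conv_lhs => rw [hQ1]
    rw [derivative_mul]
    linear_combination Q1 * hpow v
  have e3 : derivative F = derivative π * F1 + π * derivative F1 := by rw [hF1, derivative_mul]
  have e4 : π ^ (u + v) * (F1 * ((C (u : K) - C (v : K)) * derivative π * B1 * Q1 + π * (derivative B1 * Q1 - B1 * derivative Q1))) =
      π ^ (u + v) * (Λ * B1 * Q1) := by
    have h1 : F * (derivative B * Q - B * derivative Q) = F1 * ((π * derivative B) * Q - B * (π * derivative Q)) := by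
      rw [hF1]; ring
    rw [h1, e1, e2] at h
    conv_lhs at h => rw [hQ1, hB1]
    conv_rhs at h => rw [hQ1, hB1]
    rw [pow_add]
    linear_combination h
  have e5 := mul_left_cancel₀ (pow_ne_zero _ hp.ne_zero) e4
  obtain ⟨R, hR⟩ := hΛ
  have e6 : π ∣ C ((u : K) - v - a) * (derivative π * (F1 * (B1 * Q1))) := by
    refine ⟨R * B1 * Q1 + C (a : K) * derivative F1 * B1 * Q1 - F1 * (derivative B1 * Q1 - B1 * derivative Q1), ?_⟩
    have h2 : Λ = π * R + C (a : K) * (derivative π * F1 + π * derivative F1) := by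
      rw [← e3, ← hR]; ring
    rw [h2] at e5
    rw [C_sub, C_sub]
    linear_combination e5
  have hne : ((u : K) - v - a) ≠ 0 := by
    intro h1
    apply ha ((u : ℤ) - v)
    have h2 : ((a : ℚ) : K) = (((u : ℤ) - v : ℤ) : ℚ) := by
      push_cast
      linear_combination -h1
    exact_mod_cast h2
  rcases hp.dvd_or_dvd e6 with h1 | h1
  · have h2 : IsUnit (C ((u : K) - v - a)) := isUnit_C.2 (isUnit_iff_ne_zero.2 hne)
    exact hπ.not_isUnit (isUnit_of_dvd_unit h1 h2)
  · rcases hp.dvd_or_dvd h1 with h1 | h1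
    · exact hdπ h1
    · rcases hp.dvd_or_dvd h1 with h1 | h1
      · exact hF1' h1
      · rcases hp.dvd_or_dvd h1 with h1 | h1
        · exact hB1' h1
        · exact hQ1' h1

section
variable {p : ℕ} (g : Fin p → K[X]) (α : Fin p → ℚ)

/-- the factor, if its exponent is not zero -/
noncomputable def fac (i : Fin p) : K[X] := if α i = 0 then 1 else g i

/-- the product of the factors with exponent not zero -/
noncomputable def Fp : K[X] := ∏ i, fac g α i

/-- the numerator of `∑ α_i g_i' / g_i` -/
noncomputable def Lp : K[X] := ∑ i, C (α i : K) * derivative (g i) * ∏ k ∈ Finset.univ.erase i, fac g α k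

variable {g α}

theorem Fp_dvd : Fp g α ∣ ∏ i, g i := by
  unfold Fp
  refine Finset.prod_dvd_prod_of_dvd _ _ fun i _ => ?_
  unfold fac
  split_ifs
  · exact one_dvd _
  · exact dvd_rfl

theorem Fp_sqf (hg : Squarefree (∏ i, g i)) : Squarefree (Fp g α) := hg.squarefree_of_dvd Fp_dvd

theorem fac_ne (hg : ∀ i, g i ≠ 0) (i : Fin p) : fac g α i ≠ 0 := by
  unfold fac
  split_ifs
  · exact one_ne_zero
  · exact hg i

theorem Fp_natDegree (hg : ∀ i, g i ≠ 0) : (Fp g α).natDegree = ∑ i, if α i = 0 then 0 else (g i).natDegree := by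
  unfold Fp
  rw [natDegree_prod _ _ fun i _ => fac_ne hg i]
  refine Finset.sum_congr rfl fun i _ => ?_
  unfold fac
  split_ifs <;> simp

theorem dvd_Lp {i : Fin p} (hi : α i ≠ 0) {π : K[X]} (hπ : π ∣ g i) :
    π ∣ Lp g α - C (α i : K) * derivative (Fp g α) := by
  classical
  unfold Lp Fp
  rw [derivative_prod_finset, Finset.mul_sum, ← Finset.sum_sub_distrib]
  refine Finset.dvd_sum fun k _ => ?_
  by_cases hk : k = i
  · subst hk
    have h1 : derivative (fac g α k) = derivative (g k) := by
      unfold fac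
      rw [if_neg hi]
    rw [h1]
    have : C (α k : K) * derivative (g k) * ∏ k_1 ∈ Finset.univ.erase k, fac g α k_1 -
        C (α k : K) * ((∏ b ∈ Finset.univ.erase k, fac g α b) * derivative (g k)) = 0 := by ring
    rw [this]
    exact dvd_zero _
  · have h1 : π ∣ ∏ b ∈ Finset.univ.erase k, fac g α b := by
      refine dvd_trans hπ ?_
      have h2 : g i = fac g α i := by
        unfold fac
        rw [if_neg hi]
      rw [h2]
      exact Finset.dvd_prod_of_mem _ (Finset.mem_erase.2 ⟨Ne.symm hk, Finset.mem_univ _⟩)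
    refine dvd_sub (Dvd.dvd.mul_left h1 _) (Dvd.dvd.mul_left (Dvd.dvd.mul_right h1 _) _)

theorem exists_of_dvd {π : K[X]} (hπ : Irreducible π) (h : π ∣ Fp g α) : ∃ i, α i ≠ 0 ∧ π ∣ g i := by
  unfold Fp at h
  obtain ⟨i, -, hi⟩ := (hπ.prime.dvd_finsetProd_iff _).1 h
  unfold fac at hi
  split_ifs at hi with h0
  · exact absurd (isUnit_of_dvd_one hi) hπ.not_isUnit
  · exact ⟨i, h0, hi⟩

theorem Lp_natDegree [CharZero K] (hg : ∀ i, 0 < (g i).natDegree) {i₀ : Fin p} (h0 : α i₀ ≠ 0) : (Lp g α).natDegree < (Fp g α).natDegree ∧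
    (Lp g α).coeff ((Fp g α).natDegree - 1) = ((∑ i, α i * ((g i).natDegree : ℚ) : ℚ) : K) * (Fp g α).leadingCoeff := by
  classical
  have hg0 : ∀ i, g i ≠ 0 := fun i hi => by
    have := hg i
    rw [hi, natDegree_zero] at this
    exact lt_irrefl _ this
  have hfac := fac_ne (α := α) hg0
  have hsplit : ∀ i, (Fp g α) = fac g α i * ∏ k ∈ Finset.univ.erase i, fac g α k := fun i =>
    (Finset.mul_prod_erase _ _ (Finset.mem_univ i)).symm
  have hPne : ∀ i, ∏ k ∈ Finset.univ.erase i, fac g α k ≠ 0 := fun i => Finset.prod_ne_zero_iff.2 fun k _ => hfac k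
  have hdeg : ∀ i, (Fp g α).natDegree = (fac g α i).natDegree + (∏ k ∈ Finset.univ.erase i, fac g α k).natDegree := fun i => by
    conv_lhs => rw [hsplit i]
    exact natDegree_mul (hfac i) (hPne i)
  have hpos : 0 < (Fp g α).natDegree := by
    rw [hdeg i₀]
    have : fac g α i₀ = g i₀ := by unfold fac; rw [if_neg h0]
    rw [this]
    have := hg i₀
    omega
  have hterm : ∀ i, (C (α i : K) * derivative (g i) * ∏ k ∈ Finset.univ.erase i, fac g α k).natDegree ≤ (Fp g α).natDegree - 1 ∧
      (C (α i : K) * derivative (g i) * ∏ k ∈ Finset.univ.erase i, fac g α k).coeff ((Fp g α).natDegree - 1) =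
        ((α i * ((g i).natDegree : ℚ) : ℚ) : K) * (Fp g α).leadingCoeff := by
    intro i
    by_cases hi : α i = 0
    · rw [hi]
      simp
    · have hfi : fac g α i = g i := by unfold fac; rw [if_neg hi]
      have h1 := hdeg i
      rw [hfi] at h1
      have hgi := hg i
      have h2 : (C (α i : K) * derivative (g i)).natDegree ≤ (g i).natDegree - 1 :=
        (natDegree_C_mul_le _ _).trans (natDegree_derivative_le _)
      have h3 : (Fp g α).natDegree - 1 = ((g i).natDegree - 1) + (∏ k ∈ Finset.univ.erase i, fac g α k).natDegree := by omega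
      refine ⟨?_, ?_⟩
      · rw [h3]
        exact natDegree_mul_le.trans (Nat.add_le_add_right h2 _)
      · rw [h3, coeff_mul_add_eq_of_natDegree_le h2 le_rfl, coeff_C_mul, coeff_derivative, coeff_natDegree, hsplit i,
          leadingCoeff_mul, hfi, Nat.sub_add_cancel hgi, coeff_natDegree]
        have h4 : (((g i).natDegree - 1 : ℕ) : K) + 1 = ((g i).natDegree : K) := by
          have : (((g i).natDegree - 1 + 1 : ℕ) : K) = ((g i).natDegree : K) := by rw [Nat.sub_add_cancel hgi]
          push_cast at this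
          exact this
        rw [h4]
        push_cast
        ring
  constructor
  · refine lt_of_le_of_lt (natDegree_sum_le_of_forall_le (n := (Fp g α).natDegree - 1) _ _ fun i _ => (hterm i).1) (by omega)
  · unfold Lp
    rw [finsetSum_coeff, Finset.sum_congr rfl fun i _ => (hterm i).2, ← Finset.sum_mul]
    push_cast
    rfl

end

end Pool.Agent.P8H40.SE
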