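import Pool.Agent.P8H40.SE.Ind
import Pool.Agent.P8H40.SE.Pol

/-!
# Algebraic independence of primitives of `τ^j ∏ g_i^(-a_i)` and of logarithms
-/

set_option autoImplicit false

open Polynomial

namespace Pool.Agent.P8H40.SE

section
variable {K E : Type} [Field K] [CharZero K] [Field E] [Algebra K E] {D : Derivation K E E} {τ : E} {h : D τ = 1}

/-- the algebraic hyperexponential elements -/
def HS (D : Derivation K E E) (τ : E) (h : D τ = 1) : Set E := {x | Hx D τ h x}

theorem Hx.one : Hx D τ h 1 := ⟨one_ne_zero, by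
  rw [Derivation.map_one_eq_zero, zero_div]
  exact zero_mem _, 1, one_pos, by
  rw [one_pow]
  exact one_mem _⟩

theorem Hx.mul {x y : E} (hx : Hx D τ h x) (hy : Hx D τ h y) : Hx D τ h (x * y) := by
  obtain ⟨hx0, hx1, n, hn, hxn⟩ := hx
  obtain ⟨hy0, hy1, m, hm, hym⟩ := hy
  refine ⟨mul_ne_zero hx0 hy0, ?_, n * m, Nat.mul_pos hn hm, ?_⟩
  · have : D (x * y) / (x * y) = D x / x + D y / y := by
      rw [Derivation.leibniz, smul_eq_mul, smul_eq_mul]
      field_simp
      ring
    rw [this]
    exact add_mem hx1 hy1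
  · rw [mul_pow, pow_mul, mul_comm n m, pow_mul y]
    exact mul_mem (pow_mem hxn _) (pow_mem hym _)

theorem Hx.algebraic {x : E} (hx : Hx D τ h x) : IsAlgebraic (k0 D τ h) x := by
  obtain ⟨-, -, n, hn, hxn⟩ := hx
  have h1 : IsAlgebraic (k0 D τ h) (x ^ n) := isAlgebraic_algebraMap (⟨x ^ n, hxn⟩ : k0 D τ h)
  exact h1.of_pow hn

/-- the field -/
noncomputable def FF (D : Derivation K E E) (τ : E) (h : D τ = 1) : IntermediateField (k0 D τ h) E :=
  IntermediateField.adjoin (k0 D τ h) (HS D τ h)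

theorem mem_FF {x : E} : x ∈ FF D τ h ↔ x ∈ Submodule.span (k0 D τ h) (HS D τ h) := by
  let M : Submonoid E := { carrier := HS D τ h, mul_mem' := fun hx hy => Hx.mul hx hy, one_mem' := Hx.one }
  have h1 : (FF D τ h).toSubalgebra = Algebra.adjoin (k0 D τ h) (HS D τ h) :=
    IntermediateField.adjoin_toSubalgebra_of_isAlgebraic fun x hx => Hx.algebraic hx
  have h2 : Submonoid.closure (HS D τ h) = M := Submonoid.closure_eq M
  have h3 := Algebra.adjoin_eq_span (k0 D τ h) (HS D τ h)
  rw [h2] at h3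
  rw [← IntermediateField.mem_toSubalgebra, h1, ← Subalgebra.mem_toSubmodule, h3]
  rfl

theorem D_FF {x : E} (hx : x ∈ FF D τ h) : D x ∈ FF D τ h := by
  rw [mem_FF] at hx ⊢
  induction hx using Submodule.span_induction with
  | mem z hz =>
    have h1 : D z = (⟨D z / z, hz.2.1⟩ : k0 D τ h) • z := by
      show D z = D z / z * z
      rw [div_mul_cancel₀ _ hz.1]
    rw [h1]
    exact Submodule.smul_mem _ _ (Submodule.subset_span hz)
  | zero => rw [map_zero]; exact zero_mem _
  | add x y _ _ hx hy => rw [map_add]; exact add_mem hx hy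
  | smul c x hx' hx =>
    have h1 : D (c • x) = (⟨D c, D_mem c.2⟩ : k0 D τ h) • x + c • D x := by
      show D ((c : E) * x) = D c * x + c * D x
      rw [Derivation.leibniz, smul_eq_mul, smul_eq_mul]
      ring
    rw [h1]
    exact add_mem (Submodule.smul_mem _ _ hx') (Submodule.smul_mem _ _ hx)

/-- **The components of an element of the field.** -/
theorem comp (hconst : ∀ x : E, D x = 0 → ∃ c : K, algebraMap K E c = x) {ι : Type} [Fintype ι] (t : ι → E)
    (ht : ∀ i, Hx D τ h (t i)) (hne : ∀ i j, i ≠ j → t i / t j ∉ k0 D τ h) {f : E} (hf : f ∈ FF D τ h)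
    (w : ι → k0 D τ h) (hD : D f = ∑ i, (w i : E) * t i) (i : ι) : ∃ a ∈ k0 D τ h, D (a * t i) = (w i : E) * t i := by
  classical
  have htinj : Function.Injective t := by
    intro i j hij
    by_contra hne'
    apply hne i j hne'
    rw [hij, div_self (ht j).1]
    exact one_mem _
  rw [mem_FF] at hf
  obtain ⟨Z, hZ, hfZ⟩ := Submodule.mem_span_finite_of_mem_span hf
  let P : Finset E → Prop := fun Y => Finset.univ.image t ⊆ Y ∧ ∀ y ∈ Y, ∀ y' ∈ Y, y ≠ y' → y / y' ∉ k0 D τ h
  let M := Z ∪ Finset.univ.image t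
  have hMH : ∀ z ∈ M, Hx D τ h z := by
    intro z hz
    rcases Finset.mem_union.1 hz with h1 | h1
    · exact hZ h1
    · obtain ⟨i, -, rfl⟩ := Finset.mem_image.1 h1
      exact ht i
  obtain ⟨Y, hY, hmax⟩ := Finset.exists_max_image (M.powerset.filter P) Finset.card ⟨Finset.univ.image t, by
    rw [Finset.mem_filter, Finset.mem_powerset]
    refine ⟨Finset.subset_union_right, subset_rfl, fun y hy y' hy' hyy => ?_⟩
    obtain ⟨i, -, rfl⟩ := Finset.mem_image.1 hy
    obtain ⟨j, -, rfl⟩ := Finset.mem_image.1 hy'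
    exact hne i j fun h1 => hyy (by rw [h1])⟩
  rw [Finset.mem_filter, Finset.mem_powerset] at hY
  obtain ⟨hYM, hYt, hYne⟩ := hY
  have hspan : ∀ z ∈ Z, z ∈ Submodule.span (k0 D τ h) (Y : Set E) := by
    intro z hz
    by_contra hcon
    have hzM : z ∈ M := Finset.mem_union_left _ hz
    have hz0 := (hMH z hzM).1
    have hno : ∀ y ∈ Y, z / y ∉ k0 D τ h := by
      intro y hy h1
      apply hcon
      have h2 : z = (⟨z / y, h1⟩ : k0 D τ h) • y := by
        show z = z / y * y
        rw [div_mul_cancel₀ _ (hMH y (hYM hy)).1]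
      rw [h2]
      exact Submodule.smul_mem _ _ (Submodule.subset_span hy)
    have hzY : z ∉ Y := fun h1 => hcon (Submodule.subset_span h1)
    have h1 := hmax (insert z Y) (by
      rw [Finset.mem_filter, Finset.mem_powerset]
      refine ⟨Finset.insert_subset hzM hYM, hYt.trans (Finset.subset_insert _ _), fun y hy y' hy' hyy => ?_⟩
      rcases Finset.mem_insert.1 hy with rfl | hy1
      · rcases Finset.mem_insert.1 hy' with rfl | hy2
        · exact absurd rfl hyy
        · exact hno y' hy2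
      · rcases Finset.mem_insert.1 hy' with rfl | hy2
        · intro h1
          apply hno y hy1
          rw [← inv_div]
          exact inv_mem h1
        · exact hYne y hy1 y' hy2 hyy)
    rw [Finset.card_insert_of_notMem hzY] at h1
    omega
  have hfY : f ∈ Submodule.span (k0 D τ h) (Y : Set E) := Submodule.span_le.2 hspan hfZ
  obtain ⟨a, -, ha⟩ := Submodule.mem_span_finset.1 hfY
  have hlin := lin (h := h) hconst (fun y : Y => (y : E)) (fun y => (hMH y (hYM y.2)).1) (fun y => (hMH y (hYM y.2)).2.1)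
    (fun y y' hyy => hYne y y.2 y' y'.2 fun h1 => hyy (Subtype.ext h1))
  -- the derivative
  have hDf : D f = ∑ y ∈ Y, (D (a y) + a y * (D y / y)) * y := by
    rw [← ha, map_sum]
    refine Finset.sum_congr rfl fun y hy => ?_
    show D ((a y : E) * y) = _
    have hy0 := (hMH y (hYM hy)).1
    rw [Derivation.leibniz, smul_eq_mul, smul_eq_mul]
    field_simp
    ring
  have hDf2 : D f = ∑ y ∈ Y, (if hy : ∃ i, t i = y then (w hy.choose : E) else 0) * y := by
    have h1 : ∑ y ∈ Y, (if hy : ∃ i, t i = y then (w hy.choose : E) else 0) * y =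
        ∑ y ∈ Finset.univ.image t, (if hy : ∃ i, t i = y then (w hy.choose : E) else 0) * y := by
      symm
      refine Finset.sum_subset hYt fun y _ hy => ?_
      rw [dif_neg, zero_mul]
      rintro ⟨i, hi⟩
      exact hy (Finset.mem_image.2 ⟨i, Finset.mem_univ _, hi⟩)
    rw [h1, Finset.sum_image fun i _ j _ hij => htinj hij, hD]
    refine Finset.sum_congr rfl fun i _ => ?_
    have h2 : ∃ j, t j = t i := ⟨i, rfl⟩
    rw [dif_pos h2, htinj h2.choose_spec]
  have hzero : ∑ y : Y, ((⟨D (a y) + a y * (D y / y) - (if hy : ∃ i, t i = y then (w hy.choose : E) else 0),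
      sub_mem (add_mem (D_mem (a y).2) (mul_mem (a y).2 (hMH y (hYM y.2)).2.1)) (by
        split_ifs
        · exact SetLike.coe_mem _
        · exact zero_mem _)⟩ : k0 D τ h) • (y : E)) = 0 := by
    have h1 : ∑ y ∈ Y, (D (a y) + a y * (D y / y) - (if hy : ∃ i, t i = y then (w hy.choose : E) else 0)) * y = 0 := by
      have h2 : ∀ y ∈ Y, (D (a y) + a y * (D y / y) - (if hy : ∃ i, t i = y then (w hy.choose : E) else 0)) * y =
          (D (a y) + a y * (D y / y)) * y - (if hy : ∃ i, t i = y then (w hy.choose : E) else 0) * y := fun y _ => sub_mul _ _ _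
      rw [Finset.sum_congr rfl h2, Finset.sum_sub_distrib, ← hDf, ← hDf2, sub_self]
    rw [← Finset.sum_coe_sort Y fun y => (D (a y) + a y * (D y / y) -
      (if hy : ∃ i, t i = y then (w hy.choose : E) else 0)) * y] at h1
    exact h1
  have h3 := Fintype.linearIndependent_iff.1 hlin _ hzero ⟨t i, hYt (Finset.mem_image_of_mem _ (Finset.mem_univ i))⟩
  have h4 := congrArg Subtype.val h3
  have h5 : ∃ j, t j = t i := ⟨i, rfl⟩
  simp only [dif_pos h5, IntermediateField.coe_zero] at h4
  rw [htinj h5.choose_spec] at h4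
  refine ⟨a (t i), (a (t i)).2, ?_⟩
  have hti := (ht i).1
  rw [Derivation.leibniz, smul_eq_mul, smul_eq_mul]
  field_simp at h4
  linear_combination h4

/-- the field over the constants -/
def FK (D : Derivation K E E) (τ : E) (h : D τ = 1) : IntermediateField K E where
  carrier := {x | x ∈ FF D τ h}
  mul_mem' := fun hx hy => (FF D τ h).mul_mem hx hy
  add_mem' := fun hx hy => (FF D τ h).add_mem hx hy
  algebraMap_mem' := fun c =>
    (FF D τ h).algebraMap_mem (⟨algebraMap K E c, (k0 D τ h).algebraMap_mem c⟩ : k0 D τ h)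
  inv_mem' := fun _ hx => (FF D τ h).inv_mem hx

theorem mem_FK {x : E} : x ∈ FK D τ h ↔ x ∈ FF D τ h := Iff.rfl

theorem D_FK {x : E} (hx : x ∈ FK D τ h) : D x ∈ FK D τ h := mem_FK.2 (D_FF (mem_FK.1 hx))

/-- the restriction of the derivation -/
noncomputable def DFl (D : Derivation K E E) (τ : E) (h : D τ = 1) : FK D τ h →ₗ[K] FK D τ h where
  toFun := fun x => ⟨D x, D_FK x.2⟩
  map_add' := fun x y => Subtype.ext (D.map_add x y)
  map_smul' := fun c x => Subtype.ext (D.map_smul c (x : E))

theorem DFl_leibniz (D : Derivation K E E) (τ : E) (h : D τ = 1) (a b : FK D τ h) :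
    DFl D τ h (a * b) = a • DFl D τ h b + b • DFl D τ h a := by
  apply Subtype.ext
  rw [smul_eq_mul, smul_eq_mul, IntermediateField.coe_add, IntermediateField.coe_mul, IntermediateField.coe_mul]
  have h1 := D.leibniz (a : E) (b : E)
  rw [smul_eq_mul, smul_eq_mul] at h1
  exact h1

/-- the derivation of the field -/
noncomputable def DF (D : Derivation K E E) (τ : E) (h : D τ = 1) : Derivation K (FK D τ h) (FK D τ h) :=
  Derivation.mk' (DFl D τ h) (DFl_leibniz D τ h)

theorem k0_FK {x : E} (hx : x ∈ k0 D τ h) : x ∈ FK D τ h := by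
  rw [mem_FK, mem_FF]
  have h1 : x = (⟨x, hx⟩ : k0 D τ h) • (1 : E) := (mul_one x).symm
  rw [h1]
  exact Submodule.smul_mem _ _ (Submodule.subset_span Hx.one)

theorem Hx_FK {x : E} (hx : Hx D τ h x) : x ∈ FK D τ h := by
  rw [mem_FK, mem_FF]
  exact Submodule.subset_span hx

/-- `∑ α_i g_i' / g_i` -/
theorem log_der (D : Derivation K E E) {τ : E} (h : D τ = 1) {p : ℕ} (g : Fin p → K[X]) (hg : ∀ i, g i ≠ 0) (α : Fin p → ℚ) [CharZero E] :
    (∑ i, (α i : E) * (aeval τ (derivative (g i)) / aeval τ (g i))) * aeval τ (Fp g α) = aeval τ (Lp g α) := by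
  classical
  unfold Lp
  rw [map_sum, Finset.sum_mul]
  refine Finset.sum_congr rfl fun i _ => ?_
  by_cases hi : α i = 0
  · simp [hi]
  · have hg' : aeval τ (g i) ≠ 0 := fun h1 => hg i (tr D h _ h1)
    have h1 : Fp g α = g i * ∏ k ∈ Finset.univ.erase i, fac g α k := by
      unfold Fp
      rw [← Finset.mul_prod_erase _ _ (Finset.mem_univ i)]
      unfold fac
      rw [if_neg hi]
    rw [h1, map_mul, map_mul, map_mul, aeval_C]
    have h2 : algebraMap K E (α i : K) = (α i : E) := map_ratCast _ _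
    rw [h2]
    field_simp

/-- inequivalence -/
theorem ineq {p : ℕ} {g : Fin p → K[X]} (hg : Squarefree (∏ i, g i)) (hg1 : ∀ i, 0 < (g i).natDegree) [CharZero E] {α : Fin p → ℚ}
    (hα : ∀ i, |α i| < 1) {r : E} (hr : r ∈ k0 D τ h) (hr0 : r ≠ 0)
    (hD : D r = (∑ i, (α i : E) * (aeval τ (derivative (g i)) / aeval τ (g i))) * r) : α = 0 := by
  by_contra hne
  obtain ⟨i, hi⟩ : ∃ i, α i ≠ 0 := by
    by_contra hcon
    push Not at hcon
    exact hne (funext hcon)
  have hg0 : ∀ i, g i ≠ 0 := fun i hi => by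
    have := hg1 i
    rw [hi, natDegree_zero] at this
    exact lt_irrefl _ this
  obtain ⟨B, Q, hQ, hBQ⟩ := hr
  obtain ⟨π, hπ, hπg⟩ := Polynomial.exists_irreducible_of_natDegree_pos (hg1 i)
  have hFg : g i ∣ Fp g α := by
    unfold Fp
    have : g i = fac g α i := by unfold fac; rw [if_neg hi]
    conv_lhs => rw [this]
    exact Finset.dvd_prod_of_mem _ (Finset.mem_univ i)
  have h1 : Fp g α * (derivative B * Q - B * derivative Q) = Lp g α * B * Q := by
    rw [← sub_eq_zero]
    apply tr D h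
    have h2 := congrArg D hBQ
    rw [Derivation.leibniz, D_aeval D h, D_aeval D h, smul_eq_mul, smul_eq_mul, hD] at h2
    have h3 := log_der D h g hg0 α
    simp only [map_mul, map_sub]
    rw [← h3, ← h2, ← hBQ]
    ring
  have hB := hom_zero (Fp_sqf hg) hπ (hπg.trans hFg) (a := α i) (fun n hn => by
    have h4 := hα i
    rw [hn] at h4
    have h5 : |n| < 1 := by exact_mod_cast h4
    have h6 : n = 0 := Int.abs_lt_one_iff.1 h5
    rw [h6] at hn
    exact hi (by simpa using hn)) (dvd_Lp hi hπg) hQ h1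
  rw [hB, map_zero] at hBQ
  rcases mul_eq_zero.1 hBQ with h2 | h2
  · exact hQ (tr D h _ h2)
  · exact hr0 h2

end

end Pool.Agent.P8H40.SE
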