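import Pool.Agent.P8H40.SE.Ind2

/-!
# Algebraic independence of primitives of `τ^j ∏ g_i^(-a_i)` and of logarithms: the theorem
-/

set_option autoImplicit false

open Polynomial

namespace Pool.Agent.P8H40.SE

/-- the degree of the product of the factors with exponent not zero -/
def Nn {R : Type} [Semiring R] {p : ℕ} (g : Fin p → R[X]) (α : Fin p → ℚ) : ℕ := ∑ i, if α i = 0 then 0 else (g i).natDegree

/-- **The theorem.** -/
theorem ind (hKEY : S_KEY) (hSIM : S_SIM) {K E : Type} [Field K] [CharZero K] [Field E] [Algebra K E] [CharZero E]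
    (D : Derivation K E E) (hconst : ∀ x : E, D x = 0 → ∃ c : K, algebraMap K E c = x) {τ : E} (h : D τ = 1) {p q s : ℕ}
    (g : Fin p → K[X]) (hg : Squarefree (∏ i, g i)) (hg1 : ∀ i, 0 < (g i).natDegree) (a : Fin q → Fin p → ℚ)
    (ha : ∀ κ i, 0 ≤ a κ i ∧ a κ i < 1) (hinj : Function.Injective a)
    (hA : ∀ κ, ∀ z : ℤ, ∑ i, a κ i * ((g i).natDegree : ℚ) ≠ z) (S : Fin q → E) (hS0 : ∀ κ, S κ ≠ 0)
    (hDS : ∀ κ, D (S κ) = -(∑ i, (a κ i : E) * (aeval τ (derivative (g i)) / aeval τ (g i))) * S κ)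
    (hSalg : ∀ κ, ∃ n, 0 < n ∧ S κ ^ n ∈ k0 D τ h) (b : Fin s → K) (hb : Function.Injective b) (hb0 : ∀ i, b i ≠ 0)
    (y : (Σ κ : Fin q, Fin (Nn g (a κ) - 1)) → E) (hy : ∀ x, D (y x) = τ ^ (x.2 : ℕ) * S x.1)
    (l : Fin s → E) (hl : ∀ i, D (l i) = (τ + algebraMap K E (b i))⁻¹ - τ⁻¹) :
    AlgebraicIndependent (FK D τ h) (Sum.elim y l) := by
  classical
  have hg0 : ∀ i, g i ≠ 0 := fun i hi => by
    have := hg1 i
    rw [hi, natDegree_zero] at this
    exact lt_irrefl _ this
  have hge : ∀ P : K[X], P ≠ 0 → aeval τ P ≠ 0 := fun P hP h1 => hP (tr D h P h1)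
  have hτk : τ ∈ k0 D τ h := by
    have := poly_mem (D := D) (τ := τ) (h := h) (X : K[X])
    rwa [aeval_X] at this
  have hlogk : ∀ α : Fin p → ℚ, (∑ i, (α i : E) * (aeval τ (derivative (g i)) / aeval τ (g i))) ∈ k0 D τ h := fun α =>
    sum_mem fun i _ => mul_mem (by
      have : (α i : E) = algebraMap K E (α i : K) := (map_ratCast (algebraMap K E) _).symm
      rw [this]
      exact (k0 D τ h).algebraMap_mem _) (div_mem (poly_mem _) (poly_mem _))
  have hSH : ∀ κ, Hx D τ h (S κ) := fun κ => ⟨hS0 κ, by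
    rw [hDS κ, mul_div_assoc, div_self (hS0 κ), mul_one]
    exact neg_mem (hlogk _), hSalg κ⟩
  have hlk : ∀ i, D (l i) ∈ k0 D τ h := fun i => by
    rw [hl i]
    exact sub_mem (inv_mem (add_mem hτk ((k0 D τ h).algebraMap_mem _))) (inv_mem hτk)
  have hyF : ∀ x, D (y x) ∈ FK D τ h := fun x => by
    rw [hy x]
    exact mul_mem (pow_mem (k0_FK hτk) _) (Hx_FK (hSH _))
  have hw : ∀ i, D (Sum.elim y l i) ∈ FK D τ h := by
    rintro (x | i)
    · exact hyF x
    · exact k0_FK (hlk i)
  refine Pool.Agent.W253.LF.t_OST K (FK D τ h) E (DF D τ h) D (fun f => rfl) hconst _ (Sum.elim y l)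
    (fun i => ⟨D (Sum.elim y l i), hw i⟩) (fun i => rfl) ?_
  intro c f hf
  let t : Option (Fin q) → E := fun o => o.elim 1 S
  have ht : ∀ o, Hx D τ h (t o) := by
    rintro (_ | κ)
    · exact Hx.one
    · exact hSH κ
  -- inequivalence
  have key : ∀ (α : Fin p → ℚ), (∀ i, |α i| < 1) → α ≠ 0 → ∀ r : E, r ≠ 0 →
      D r = (∑ i, (α i : E) * (aeval τ (derivative (g i)) / aeval τ (g i))) * r → r ∉ k0 D τ h := fun α h1 h2 r h3 h4 h5 =>
    h2 (ineq hg hg1 h1 h5 h3 h4)
  have haabs : ∀ κ i, |a κ i| < 1 := fun κ i => by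
    rw [abs_lt]
    constructor <;> linarith [(ha κ i).1, (ha κ i).2]
  have ha0 : ∀ κ, a κ ≠ 0 := fun κ h0 => by
    apply hA κ 0
    rw [h0]
    simp
  have hDr : ∀ x x' : E, x ≠ 0 → x' ≠ 0 → D (x / x') = (D x / x - D x' / x') * (x / x') := by
    intro x x' hx hx'
    rw [div_eq_mul_inv x x', Derivation.leibniz, Derivation.leibniz_inv]
    simp only [smul_eq_mul]
    field_simp
    ring
  have hDSS : ∀ κ, D (S κ) / S κ = -(∑ i, (a κ i : E) * (aeval τ (derivative (g i)) / aeval τ (g i))) := fun κ => by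
    rw [hDS κ, mul_div_assoc, div_self (hS0 κ), mul_one]
  have hne : ∀ o o', o ≠ o' → t o / t o' ∉ k0 D τ h := by
    rintro (_ | κ) (_ | κ') hoo
    · exact absurd rfl hoo
    · refine key (a κ') (haabs κ') (ha0 κ') _ (div_ne_zero (ht _).1 (ht _).1) ?_
      rw [hDr _ _ (ht none).1 (ht (some κ')).1]
      show (D 1 / 1 - D (S κ') / S κ') * _ = _
      rw [hDSS κ', Derivation.map_one_eq_zero, zero_div, zero_sub, neg_neg]
    · refine key (-(a κ)) (fun i => by rw [Pi.neg_apply, abs_neg]; exact haabs κ i) (neg_ne_zero.2 (ha0 κ)) _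
        (div_ne_zero (ht _).1 (ht _).1) ?_
      rw [hDr _ _ (ht (some κ)).1 (ht none).1]
      show (D (S κ) / S κ - D 1 / 1) * _ = _
      rw [hDSS κ, Derivation.map_one_eq_zero, zero_div, sub_zero]
      congr 1
      rw [← Finset.sum_neg_distrib]
      refine Finset.sum_congr rfl fun i _ => ?_
      rw [Pi.neg_apply]
      push_cast
      ring
    · have hκ : κ ≠ κ' := fun h1 => hoo (by rw [h1])
      refine key (a κ' - a κ) (fun i => by
        rw [Pi.sub_apply, abs_lt]
        constructor <;> linarith [(ha κ i).1, (ha κ i).2, (ha κ' i).1, (ha κ' i).2]) (fun h1 => hκ (hinj (sub_eq_zero.1 h1).symm)) _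
        (div_ne_zero (ht _).1 (ht _).1) ?_
      rw [hDr _ _ (ht (some κ)).1 (ht (some κ')).1]
      show (D (S κ) / S κ - D (S κ') / S κ') * _ = _
      rw [hDSS κ, hDSS κ']
      congr 1
      rw [sub_neg_eq_add, neg_add_eq_sub, ← Finset.sum_sub_distrib]
      refine Finset.sum_congr rfl fun i _ => ?_
      rw [Pi.sub_apply]
      push_cast
      ring
  -- the coefficients
  let W : Fin q → K[X] := fun κ => ∑ j : Fin (Nn g (a κ) - 1), C (c (Sum.inl ⟨κ, j⟩)) * X ^ (j : ℕ)
  let w : Option (Fin q) → k0 D τ h := fun o => o.elim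
    ⟨∑ i, algebraMap K E (c (Sum.inr i)) * D (l i), sum_mem fun i _ => mul_mem ((k0 D τ h).algebraMap_mem _) (hlk i)⟩
    fun κ => ⟨aeval τ (W κ), poly_mem _⟩
  have hD : D (f : E) = ∑ o, (w o : E) * t o := by
    have h1 : (f : E) = ∑ i, algebraMap K E (c i) * Sum.elim y l i := hf.symm
    rw [h1, map_sum, Fintype.sum_sum_type, Fintype.sum_option, add_comm]
    congr 1
    · show _ = (∑ i, algebraMap K E (c (Sum.inr i)) * D (l i)) * 1
      rw [mul_one]
      refine Finset.sum_congr rfl fun i _ => ?_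
      rw [Derivation.leibniz, Derivation.map_algebraMap, smul_zero, add_zero, smul_eq_mul]
      rfl
    · rw [Fintype.sum_sigma]
      refine Finset.sum_congr rfl fun κ _ => ?_
      show _ = aeval τ (W κ) * S κ
      rw [map_sum, Finset.sum_mul]
      refine Finset.sum_congr rfl fun j _ => ?_
      rw [Derivation.leibniz, Derivation.map_algebraMap, smul_zero, add_zero, smul_eq_mul, map_mul, aeval_C, map_pow, aeval_X]
      show _ * D (y ⟨κ, j⟩) = _
      rw [hy ⟨κ, j⟩]
      ring
  have hcomp := fun o => comp hconst t ht hne (mem_FK.1 f.2) w hD o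
  have hinl : ∀ κ, W κ = 0 := by
    intro κ
    rcases Nat.lt_or_ge (Nn g (a κ)) 2 with hN | hN
    · have : IsEmpty (Fin (Nn g (a κ) - 1)) := by
        have h0 : Nn g (a κ) - 1 = 0 := by omega
        rw [h0]
        infer_instance
      exact Finset.sum_of_isEmpty _
    obtain ⟨x, ⟨B, Q, hQ, hBQ⟩, hx⟩ := hcomp (some κ)
    have hx' : D (x * S κ) = aeval τ (W κ) * S κ := hx
    have h1 : D x - (∑ i, (a κ i : E) * (aeval τ (derivative (g i)) / aeval τ (g i))) * x = aeval τ (W κ) := by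
      apply mul_right_cancel₀ (hS0 κ)
      rw [← hx', Derivation.leibniz, hDS κ, smul_eq_mul, smul_eq_mul]
      ring
    have h2 := congrArg D hBQ
    rw [Derivation.leibniz, D_aeval D h, D_aeval D h, smul_eq_mul, smul_eq_mul] at h2
    have h3 := log_der D h g hg0 (a κ)
    have hi0 : ∃ i, a κ i ≠ 0 := by
      by_contra hcon
      push Not at hcon
      exact ha0 κ (funext hcon)
    obtain ⟨i0, hi0⟩ := hi0
    have hL := Lp_natDegree (α := a κ) hg1 hi0
    refine hKEY K (Fp g (a κ)) (Lp g (a κ)) B Q (W κ) (∑ i, a κ i * ((g i).natDegree : ℚ)) (Fp_sqf hg) (fun π hπ hπF => ?_)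
      hL.1 hL.2 (hA κ) hQ ?_ ?_
    · obtain ⟨i, hi, hπi⟩ := exists_of_dvd hπ hπF
      refine ⟨a κ i, fun n hn => ?_, dvd_Lp hi hπi⟩
      have h4 := haabs κ i
      rw [hn] at h4
      have h5 : |n| < 1 := by exact_mod_cast h4
      have h6 : n = 0 := Int.abs_lt_one_iff.1 h5
      rw [h6] at hn
      exact hi (by simpa using hn)
    · rw [Fp_natDegree hg0]
      have hdeg : (W κ).natDegree ≤ Nn g (a κ) - 2 := by
        refine natDegree_sum_le_of_forall_le _ _ fun j _ => ?_
        refine (natDegree_C_mul_X_pow_le _ _).trans ?_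
        have := j.2
        omega
      have : Nn g (a κ) = ∑ i, if a κ i = 0 then 0 else (g i).natDegree := rfl
      omega
    · rw [← sub_eq_zero]
      apply tr D h
      simp only [map_mul, map_sub]
      rw [← h1, ← h3, ← h2, ← hBQ]
      ring
  have hinr : (fun i => c (Sum.inr i)) = 0 := by
    obtain ⟨x, ⟨B, Q, hQ, hBQ⟩, hx⟩ := hcomp none
    have hx' : D x = ∑ i, algebraMap K E (c (Sum.inr i)) * D (l i) := by
      have h1 : D (x * 1) = (∑ i, algebraMap K E (c (Sum.inr i)) * D (l i)) * 1 := hx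
      rwa [mul_one, mul_one] at h1
    have h2 := congrArg D hBQ
    rw [Derivation.leibniz, D_aeval D h, D_aeval D h, smul_eq_mul, smul_eq_mul] at h2
    let b' : Fin (s + 1) → K := Fin.cons 0 b
    let c' : Fin (s + 1) → K := Fin.cons (-∑ i, c (Sum.inr i)) fun i => c (Sum.inr i)
    have hb' : Function.Injective b' := by
      rw [Fin.cons_injective_iff]
      refine ⟨?_, hb⟩
      rintro ⟨i, hi⟩
      exact hb0 i hi
    have hτb : ∀ i, τ + algebraMap K E (b' i) ≠ 0 := by
      intro i h1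
      have h2 : aeval τ (X + C (b' i) : K[X]) = 0 := by rw [map_add, aeval_X, aeval_C, h1]
      exact (monic_X_add_C (b' i)).ne_zero (tr D h _ h2)
    have hsum : D x = ∑ i, algebraMap K E (c' i) * (τ + algebraMap K E (b' i))⁻¹ := by
      rw [Fin.sum_univ_succ, hx']
      simp only [b', c', Fin.cons_zero, Fin.cons_succ, map_zero, add_zero, map_neg, map_sum]
      rw [← Finset.sum_congr rfl fun i _ => by rw [hl i]]
      simp only [mul_sub, Finset.sum_sub_distrib, ← Finset.sum_mul]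
      ring
    have h4 := hSIM K (s + 1) b' c' hb' B Q hQ (by
      rw [← sub_eq_zero]
      apply tr D h
      have h5 : aeval τ (∑ i, C (c' i) * ∏ j ∈ Finset.univ.erase i, (X + C (b' j)) : K[X]) =
          D x * aeval τ (∏ i, (X + C (b' i)) : K[X]) := by
        rw [hsum, map_sum, Finset.sum_mul]
        refine Finset.sum_congr rfl fun i _ => ?_
        rw [← Finset.mul_prod_erase _ _ (Finset.mem_univ i), map_mul, map_mul, aeval_C, map_add, aeval_X, aeval_C]
        have := hτb i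
        field_simp
      rw [map_sub, map_mul, map_mul, h5, map_sub, map_mul, map_mul, map_mul, ← h2, ← hBQ]
      ring)
    funext i
    have h6 := congrFun h4 i.succ
    simpa [c'] using h6
  funext o
  rcases o with ⟨κ, j⟩ | i
  · have h1 : (W κ).coeff (j : ℕ) = c (Sum.inl ⟨κ, j⟩) := by
      show (∑ j : Fin (Nn g (a κ) - 1), C (c (Sum.inl ⟨κ, j⟩)) * X ^ (j : ℕ) : K[X]).coeff _ = _
      rw [finsetSum_coeff, Finset.sum_eq_single j]
      · simp
      · intro j' _ hj
        rw [coeff_C_mul, coeff_X_pow, if_neg, mul_zero]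
        intro h6
        exact hj (Fin.ext h6.symm)
      · simp
    rw [← h1, hinl κ, coeff_zero]
    rfl
  · exact congrFun hinr i

end Pool.Agent.P8H40.SE
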