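import Pool.Agent.P8H40.SE.Ind3

/-!
# The field of Laurent series in `z`, `x = z^n = 1/τ`
-/

set_option autoImplicit false

open PowerSeries

namespace Pool.Agent.P8H40.SE

/-- the Euler operator -/
noncomputable def E0 (a : LaurentSeries ℚ) : LaurentSeries ℚ :=
  ⟨fun m => (m : ℚ) * a.coeff m, a.isPWO_support.mono (by
    intro m hm
    simp only [Function.mem_support, ne_eq] at hm
    simp only [HahnSeries.mem_support, ne_eq]
    intro h
    exact hm (by rw [h, mul_zero]))⟩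

lemma E0_coeff (a : LaurentSeries ℚ) (m : ℤ) : (E0 a).coeff m = (m : ℚ) * a.coeff m := rfl

lemma E0_supp (a : LaurentSeries ℚ) : (E0 a).support ⊆ a.support := by
  intro m hm
  simp only [HahnSeries.mem_support, ne_eq, E0_coeff] at hm ⊢
  intro h
  exact hm (by rw [h, mul_zero])

lemma E0_mul (a b : LaurentSeries ℚ) : E0 (a * b) = a * E0 b + b * E0 a := by
  ext m
  rw [E0_coeff, HahnSeries.coeff_add, mul_comm b (E0 a), HahnSeries.coeff_mul_right' b.isPWO_support (E0_supp b),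
    HahnSeries.coeff_mul_left' a.isPWO_support (E0_supp a), HahnSeries.coeff_mul, ← Finset.sum_add_distrib, Finset.mul_sum]
  refine Finset.sum_congr rfl fun ij hij => ?_
  have h : ij.1 + ij.2 = m := (Finset.mem_antidiagonal.1 hij).2.2
  rw [E0_coeff, E0_coeff, ← h]
  push_cast
  ring

lemma E0_C (c : ℚ) (a : LaurentSeries ℚ) : E0 (HahnSeries.C c * a) = HahnSeries.C c * E0 a := by
  ext m
  rw [E0_coeff, HahnSeries.C_mul_eq_smul, HahnSeries.C_mul_eq_smul, HahnSeries.coeff_smul, HahnSeries.coeff_smul, E0_coeff,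
    smul_eq_mul, smul_eq_mul]
  ring

/-- Laurent series in `z`, as a field -/
def LL : Type := LaurentSeries ℚ

noncomputable instance : Field LL := inferInstanceAs (Field (LaurentSeries ℚ))

instance : CharZero LL :=
  charZero_of_injective_ringHom (f := (show ℚ →+* LL from HahnSeries.C (Γ := ℤ) (R := ℚ))) (RingHom.injective _)

/-- the coefficients -/
def cf (a : LL) (m : ℤ) : ℚ := HahnSeries.coeff (Γ := ℤ) (R := ℚ) a m

lemma cf_ext {a b : LL} (h : ∀ m, cf a m = cf b m) : a = b := HahnSeries.ext (funext h)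

lemma algC (c : ℚ) : algebraMap ℚ LL c = (HahnSeries.C (Γ := ℤ) (R := ℚ) c : LaurentSeries ℚ) := by
  have h1 : algebraMap ℚ LL c = (c : LL) := eq_ratCast (algebraMap ℚ LL) c
  have h2 : (HahnSeries.C (Γ := ℤ) (R := ℚ) c : LaurentSeries ℚ) = (c : LaurentSeries ℚ) :=
    eq_ratCast (HahnSeries.C (Γ := ℤ) (R := ℚ)) c
  rw [h1, h2]
  rfl

lemma cf_alg_mul (c : ℚ) (a : LL) (m : ℤ) : cf (algebraMap ℚ LL c * a) m = c * cf a m := by
  rw [algC]
  let a' : LaurentSeries ℚ := a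
  have h : ((HahnSeries.C (Γ := ℤ) (R := ℚ) c) * a').coeff m = c * a'.coeff m := by
    rw [HahnSeries.C_mul_eq_smul, HahnSeries.coeff_smul, smul_eq_mul]
  exact h

/-- the Euler operator -/
noncomputable def E1 (a : LL) : LL := E0 a

lemma E1_alg (c : ℚ) (a : LL) : E1 (algebraMap ℚ LL c * a) = algebraMap ℚ LL c * E1 a := by
  rw [algC]
  exact E0_C c a

/-- the Euler operator, linear -/
noncomputable def EDl : LL →ₗ[ℚ] LL where
  toFun := E1
  map_add' := fun a b => by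
    apply cf_ext
    intro m
    show (m : ℚ) * (cf (a + b) m) = (m : ℚ) * cf a m + m * cf b m
    rw [← mul_add]
    rfl
  map_smul' := fun c a => by
    rw [RingHom.id_apply, Algebra.smul_def, Algebra.smul_def, E1_alg]

/-- the Euler derivation -/
noncomputable def ED : Derivation ℚ LL LL :=
  Derivation.mk' EDl (fun a b => by
    rw [smul_eq_mul, smul_eq_mul]
    exact E0_mul a b)

lemma cf_ED (a : LL) (m : ℤ) : cf (ED a) m = (m : ℚ) * cf a m := rfl

/-- `z ^ m` -/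
noncomputable def zp (m : ℤ) : LL := (HahnSeries.single m (1 : ℚ) : LaurentSeries ℚ)

lemma cf_zp (m k : ℤ) : cf (zp m) k = if k = m then 1 else 0 := by
  unfold cf zp
  rw [HahnSeries.coeff_single]
  congr

lemma zp_zero : zp 0 = 1 := rfl

lemma zp_mul (m m' : ℤ) : zp m * zp m' = zp (m + m') := by
  have h := HahnSeries.single_mul_single (Γ := ℤ) (R := ℚ) (a := m) (b := m') (r := 1) (s := 1)
  rw [mul_one] at h
  exact h

lemma zp_ne (m : ℤ) : zp m ≠ 0 := by
  intro h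
  have h1 := cf_zp m m
  rw [h, if_pos rfl] at h1
  exact zero_ne_one h1

lemma zp_inv (m : ℤ) : (zp m)⁻¹ = zp (-m) :=
  (eq_inv_of_mul_eq_one_left (by rw [zp_mul, neg_add_cancel, zp_zero])).symm

lemma zp_pow (m : ℤ) (k : ℕ) : zp m ^ k = zp (k * m) := by
  induction k with
  | zero => simp [zp_zero]
  | succ k ih =>
    rw [pow_succ, ih, zp_mul]
    congr 1
    push_cast
    ring

lemma ED_zp (m : ℤ) : ED (zp m) = algebraMap ℚ LL m * zp m := by
  apply cf_ext
  intro k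
  rw [cf_ED, cf_alg_mul, cf_zp]
  split_ifs with h
  · rw [h]
  · simp

/-- the derivation `d/dτ`, `τ = z^(-n)` -/
noncomputable def DD (n : ℕ) : Derivation ℚ LL LL := (-(algebraMap ℚ LL (1 / (n : ℚ)) * zp n)) • ED

lemma DD_apply (n : ℕ) (a : LL) : DD n a = -(algebraMap ℚ LL (1 / (n : ℚ)) * zp n) * ED a := rfl

lemma DD_zp {n : ℕ} (m : ℤ) : DD n (zp m) = -(algebraMap ℚ LL ((m : ℚ) / n)) * (zp n * zp m) := by
  rw [DD_apply, ED_zp]
  have : algebraMap ℚ LL ((m : ℚ) / n) = algebraMap ℚ LL (1 / (n : ℚ)) * algebraMap ℚ LL m := by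
    rw [← map_mul]
    congr 1
    ring
  rw [this]
  ring

lemma DD_tau {n : ℕ} (hn : n ≠ 0) : DD n (zp (-n)) = 1 := by
  rw [DD_zp, zp_mul, add_neg_cancel, zp_zero, mul_one, ← map_neg]
  have : -(((-(n : ℤ) : ℤ) : ℚ) / n) = 1 := by
    have : (n : ℚ) ≠ 0 := by exact_mod_cast hn
    push_cast
    field_simp
  rw [this, map_one]

lemma DD_const {n : ℕ} (hn : n ≠ 0) (a : LL) (h : DD n a = 0) : ∃ c : ℚ, algebraMap ℚ LL c = a := by
  rw [DD_apply] at h
  have h1 : ED a = 0 := by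
    rcases mul_eq_zero.1 h with h2 | h2
    · exfalso
      rcases mul_eq_zero.1 (neg_eq_zero.1 h2) with h3 | h3
      · have : (1 / (n : ℚ)) ≠ 0 := one_div_ne_zero (by exact_mod_cast hn)
        exact this ((_root_.map_eq_zero _).1 h3)
      · exact zp_ne _ h3
    · exact h2
  refine ⟨cf a 0, ?_⟩
  apply cf_ext
  intro m
  have h2 : cf (algebraMap ℚ LL (cf a 0)) m = if m = 0 then cf a 0 else 0 := by
    have := cf_alg_mul (cf a 0) 1 m
    rw [mul_one, ← zp_zero, cf_zp] at this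
    rw [this]
    split_ifs <;> simp
  rw [h2]
  split_ifs with hm
  · rw [hm]
  · have h3 : cf (ED a) m = 0 := by rw [h1]; rfl
    rw [cf_ED] at h3
    rcases mul_eq_zero.1 h3 with h4 | h4
    · exact absurd (by exact_mod_cast h4) hm
    · exact h4.symm

/-- `f ↦ f(z^n)` -/
noncomputable def Ps (n : ℕ) (hn : n ≠ 0) : ℚ⟦X⟧ →+* LL :=
  (show ℚ⟦X⟧ →+* LL from HahnSeries.ofPowerSeries ℤ ℚ).comp (expand n hn).toRingHom

lemma Ps_apply {n : ℕ} (hn : n ≠ 0) (f : ℚ⟦X⟧) : Ps n hn f = (HahnSeries.ofPowerSeries ℤ ℚ (expand n hn f) : LaurentSeries ℚ) := rfl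

lemma cf_Ps {n : ℕ} (hn : n ≠ 0) (g : ℚ⟦X⟧) (m : ℤ) : cf (Ps n hn g) m = if m < 0 then 0 else coeff m.natAbs (expand n hn g) := by
  rw [Ps_apply]
  exact PowerSeries.coeff_coe _ m

lemma Ps_inj {n : ℕ} (hn : n ≠ 0) : Function.Injective (Ps n hn) := by
  intro f g hfg
  ext m
  have h1 : ∀ f : ℚ⟦X⟧, coeff m f = cf (Ps n hn f) (n * m : ℕ) := by
    intro f
    rw [cf_Ps, if_neg (by omega), Int.natAbs_natCast, coeff_expand_mul]
  rw [h1, h1, hfg]

lemma Ps_C {n : ℕ} (hn : n ≠ 0) (c : ℚ) : Ps n hn (C c) = algebraMap ℚ LL c := by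
  rw [Ps_apply, expand_C, HahnSeries.ofPowerSeries_C, algC]

lemma Ps_X {n : ℕ} (hn : n ≠ 0) : Ps n hn X = zp n := by
  rw [Ps_apply, expand_X, HahnSeries.ofPowerSeries_X_pow]
  rfl

lemma coeff_X_d (k : ℕ) (f : ℚ⟦X⟧) : coeff k (X * d⁄dX ℚ f) = (k : ℚ) * coeff k f := by
  rcases k with _ | k
  · rw [coeff_zero_X_mul]
    simp
  · rw [coeff_succ_X_mul, PowerSeries.coeff_derivative]
    push_cast
    ring

lemma ED_Ps {n : ℕ} (hn : n ≠ 0) (f : ℚ⟦X⟧) : ED (Ps n hn f) = algebraMap ℚ LL n * Ps n hn (X * d⁄dX ℚ f) := by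
  apply cf_ext
  intro m
  rw [cf_ED, cf_alg_mul, cf_Ps, cf_Ps]
  split_ifs with hm
  · simp
  · push Not at hm
    rw [coeff_expand, coeff_expand]
    split_ifs with hd
    · rw [coeff_X_d]
      obtain ⟨k, hk⟩ := hd
      have h2 : (m : ℚ) = (n : ℚ) * k := by
        have h3 : m = n * k := by
          rw [← Int.natAbs_of_nonneg hm, hk]
          push_cast
          ring
        rw [h3]
        push_cast
        ring
      rw [hk, Nat.mul_div_cancel_left k (Nat.pos_of_ne_zero hn), h2]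
      ring
    · simp

lemma DD_Ps {n : ℕ} (hn : n ≠ 0) (f : ℚ⟦X⟧) : DD n (Ps n hn f) = -(zp n * Ps n hn (X * d⁄dX ℚ f)) := by
  rw [DD_apply, ED_Ps hn]
  have h1 : algebraMap ℚ LL (1 / (n : ℚ)) * algebraMap ℚ LL n = 1 := by
    rw [← map_mul, one_div, inv_mul_cancel₀ (by exact_mod_cast hn), map_one]
  linear_combination (-(zp n * Ps n hn (X * d⁄dX ℚ f))) * h1

end Pool.Agent.P8H40.SE
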