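import Pool.Agent.P8H40.SE.Stm

/-!
# Families of G-functions with a parent function
-/

set_option autoImplicit false

open PowerSeries

namespace Pool.Agent.P8H40.SE

open Pool.Agent.Y113

/-- a common denominator of finitely many polynomials -/
theorem common_den {σ : Type} [Fintype σ] (P : σ → Polynomial ℚ) : ∃ N : ℤ, N ≠ 0 ∧
    ∀ i, ∃ Q : Polynomial ℤ, Q.map (Int.castRingHom ℚ) = Polynomial.C (N : ℚ) * P i := by
  classical
  have h1 : ∀ i, ∃ N : ℤ, N ≠ 0 ∧ ∃ Q : Polynomial ℤ, Q.map (Int.castRingHom ℚ) = Polynomial.C (N : ℚ) * P i := by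
    intro i
    obtain ⟨b, hb0, hb⟩ := IsLocalization.integerNormalization_spec (nonZeroDivisors ℤ) (P i)
    refine ⟨b, nonZeroDivisors.ne_zero hb0, IsLocalization.integerNormalization (nonZeroDivisors ℤ) (P i), ?_⟩
    have h2 : Polynomial.map (Int.castRingHom ℚ) (IsLocalization.integerNormalization (nonZeroDivisors ℤ) (P i)) =
      (b : ℤ) • P i := hb
    rw [h2, zsmul_eq_mul]
    simp
  choose N hN Q hQ using h1
  refine ⟨∏ i, N i, Finset.prod_ne_zero_iff.2 fun i _ => hN i, fun i => ⟨Polynomial.C (∏ j ∈ Finset.univ.erase i, N j) * Q i, ?_⟩⟩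
  rw [Polynomial.map_mul, hQ, Polynomial.map_C, ← Finset.mul_prod_erase _ _ (Finset.mem_univ i)]
  push_cast
  rw [Polynomial.C_mul]
  simp
  ring

lemma ps_int (P : Polynomial ℤ) {Q : Polynomial ℚ} (h : P.map (Int.castRingHom ℚ) = Q) : ps P = (Q : ℚ⟦X⟧) := by
  unfold ps
  rw [h]

/-- **The family of a parent function.** -/
theorem par_gf (hGFD : S_GFD) {ι : Type} [Fintype ι] (par : ι → ι) (hpar : ∀ a, par (par a) = par a)
    (y yi : ι → ℚ⟦X⟧) (hyi : ∀ a, par a = a → y a * yi a = 1) (hS : ∀ a, SDc (y a)) (hSi : ∀ a, SDc (yi a)) (ν : ι → ℚ)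
    (hν : ∀ a, par a = a → ν a = 0) (t α β : ι → Polynomial ℚ) (ht : ∀ a, t a ≠ 0)
    (hr : ∀ a, par a = a → (t a : ℚ⟦X⟧) * (X * d⁄dX ℚ (y a)) = (α a : ℚ⟦X⟧) * y a)
    (hn1 : ∀ a, par a ≠ a → α a = t a * Polynomial.C (ν a))
    (hn2 : ∀ a, par a ≠ a → (t a : ℚ⟦X⟧) * (X * d⁄dX ℚ (y a)) = (α a : ℚ⟦X⟧) * y a + (β a : ℚ⟦X⟧) * y (par a)) :
    ∃ (r : ℕ) (e : ι ≃ Fin r) (T : Polynomial ℤ) (A : Fin r → Fin r → Polynomial ℤ),
      Pool.Agent.Y124.TL.GF T A (fun i => y (e.symm i)) := by
  classical
  -- clearing of denominators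
  set P : Polynomial ℚ := ∏ a, t a with hP
  set cc : ι → Polynomial ℚ := fun a => ∏ b ∈ Finset.univ.erase a, t b with hcc
  have hPc : ∀ a, P = cc a * t a := fun a => by
    rw [hP, hcc, mul_comm]
    exact (Finset.mul_prod_erase _ _ (Finset.mem_univ a)).symm
  have hP0 : P ≠ 0 := Finset.prod_ne_zero_iff.2 fun a _ => ht a
  obtain ⟨N, hN0, hN⟩ := common_den (fun o : Option (ι ⊕ ι) => o.elim P (Sum.elim (fun a => cc a * α a) fun a => cc a * β a))
  obtain ⟨T₁, hT₁⟩ := hN none
  choose α₁ hα₁ using fun a => hN (some (Sum.inl a))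
  choose β₁ hβ₁ using fun a => hN (some (Sum.inr a))
  have hT₁' : T₁.map (Int.castRingHom ℚ) = Polynomial.C (N : ℚ) * P := hT₁
  have hα₁' : ∀ a, (α₁ a).map (Int.castRingHom ℚ) = Polynomial.C (N : ℚ) * (cc a * α a) := hα₁
  have hβ₁' : ∀ a, (β₁ a).map (Int.castRingHom ℚ) = Polynomial.C (N : ℚ) * (cc a * β a) := hβ₁
  have hNq : (N : ℚ) ≠ 0 := by exact_mod_cast hN0
  have hT0 : T₁ ≠ 0 := by
    intro h0
    rw [h0, Polynomial.map_zero] at hT₁'
    exact mul_ne_zero (Polynomial.C_ne_zero.2 hNq) hP0 hT₁'.symm
  have psT : ∀ a, ps T₁ = (Polynomial.C (N : ℚ) * cc a : Polynomial ℚ) * (t a : ℚ⟦X⟧) := fun a => by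
    rw [ps_int T₁ hT₁', hPc a, ← mul_assoc, Polynomial.coe_mul]
  have psα : ∀ a, ps (α₁ a) = (Polynomial.C (N : ℚ) * cc a : Polynomial ℚ) * (α a : ℚ⟦X⟧) := fun a => by
    rw [ps_int _ (hα₁' a), ← mul_assoc, Polynomial.coe_mul]
  have psβ : ∀ a, ps (β₁ a) = (Polynomial.C (N : ℚ) * cc a : Polynomial ℚ) * (β a : ℚ⟦X⟧) := fun a => by
    rw [ps_int _ (hβ₁' a), ← mul_assoc, Polynomial.coe_mul]
  -- the matrices
  let dd : ι → ℚ⟦X⟧ := fun a => if par a = a then y a else 1
  let oo : ι → ℚ⟦X⟧ := fun a => if par a = a then 0 else y a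
  let di : ι → ℚ⟦X⟧ := fun a => if par a = a then yi a else 1
  let oi : ι → ℚ⟦X⟧ := fun a => if par a = a then 0 else -(y a * yi (par a))
  let H : ι → ι → ℚ⟦X⟧ := fun a b => (if b = a then dd a else 0) + (if b = par a then oo a else 0)
  let W : ι → ι → ℚ⟦X⟧ := fun a b => (if b = a then di a else 0) + (if b = par a then oi a else 0)
  let AA : ι → ι → Polynomial ℤ := fun a c => (if c = a then α₁ a else 0) + (if c = par a then (if par a = a then 0 else β₁ a) else 0)
  have hsumH : ∀ (a : ι) (f : ι → ℚ⟦X⟧), ∑ c, H a c * f c = dd a * f a + oo a * f (par a) := by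
    intro a f
    simp only [H, add_mul, ite_mul, zero_mul, Finset.sum_add_distrib, Finset.sum_ite_eq', Finset.mem_univ, if_true]
  have hHW : ∀ a b, ∑ c, H a c * W c b = if b = a then 1 else 0 := by
    intro a b
    rw [hsumH a fun c => W c b]
    by_cases ha : par a = a
    · have h1 : dd a = y a := if_pos ha
      have h2 : oo a = 0 := if_pos ha
      have h3 : di a = yi a := if_pos ha
      have h4 : oi a = 0 := if_pos ha
      rw [h1, h2, zero_mul, add_zero]
      show y a * ((if b = a then di a else 0) + (if b = par a then oi a else 0)) = _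
      rw [h3, h4]
      by_cases hb : b = a
      · rw [if_pos hb, if_pos hb, ite_self, add_zero, hyi a ha]
      · rw [if_neg hb, if_neg hb, ite_self, add_zero, mul_zero]
    · have h1 : dd a = 1 := if_neg ha
      have h2 : oo a = y a := if_neg ha
      have h3 : di a = 1 := if_neg ha
      have h4 : oi a = -(y a * yi (par a)) := if_neg ha
      have h5 : di (par a) = yi (par a) := if_pos (hpar a)
      have h6 : oi (par a) = 0 := if_pos (hpar a)
      rw [h1, h2]
      show 1 * ((if b = a then di a else 0) + (if b = par a then oi a else 0)) +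
        y a * ((if b = par a then di (par a) else 0) + (if b = par (par a) then oi (par a) else 0)) = _
      rw [h3, h4, h5, h6, ite_self, add_zero]
      by_cases hb : b = a
      · have hb' : b ≠ par a := fun h7 => ha (h7.symm.trans hb)
        simp only [if_pos hb, if_neg hb']
        ring
      · by_cases hb' : b = par a
        · simp only [if_neg hb, if_pos hb']
          ring
        · simp only [if_neg hb, if_neg hb']
          ring
  have hode : ∀ a b, ps T₁ * (X * d⁄dX ℚ (H a b) + C (ν b) * H a b) = ∑ c, ps (AA a c) * H c b := by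
    intro a b
    have hR : ∑ c, ps (AA a c) * H c b = ps (α₁ a) * H a b + (if par a = a then 0 else ps (β₁ a)) * H (par a) b := by
      have h1 : ∀ c, ps (AA a c) = (if c = a then ps (α₁ a) else 0) + (if c = par a then (if par a = a then 0 else ps (β₁ a)) else 0) := by
        intro c
        have h2 : ∀ P Q : Polynomial ℤ, ps (P + Q) = ps P + ps Q := fun P Q => by
          unfold ps
          rw [Polynomial.map_add, Polynomial.coe_add]
        have h3 : ps (0 : Polynomial ℤ) = 0 := by
          unfold ps
          rw [Polynomial.map_zero, Polynomial.coe_zero]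
        show ps ((if c = a then α₁ a else 0) + (if c = par a then (if par a = a then 0 else β₁ a) else 0)) = _
        rw [h2]
        congr 1
        · split_ifs
          · rfl
          · exact h3
        · split_ifs
          · exact h3
          · rfl
          · exact h3
      simp only [h1, add_mul, ite_mul, zero_mul, Finset.sum_add_distrib, Finset.sum_ite_eq', Finset.mem_univ, if_true]
    rw [hR]
    by_cases ha : par a = a
    · have h1 : H a b = if b = a then y a else 0 := by
        show (if b = a then dd a else 0) + (if b = par a then oo a else 0) = _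
        have h1 : dd a = y a := if_pos ha
        have h2 : oo a = 0 := if_pos ha
        rw [h1, h2, ite_self, add_zero]
      rw [h1, if_pos ha, zero_mul, add_zero]
      by_cases hb : b = a
      · rw [if_pos hb, hb, hν a ha, map_zero, zero_mul, add_zero, psT a, psα a, mul_assoc, hr a ha, mul_assoc]
      · rw [if_neg hb, map_zero]
        simp
    · have h1 : H a b = (if b = a then 1 else 0) + (if b = par a then y a else 0) := by
        show (if b = a then dd a else 0) + (if b = par a then oo a else 0) = _
        have h1 : dd a = 1 := if_neg ha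
        have h2 : oo a = y a := if_neg ha
        rw [h1, h2]
      have h2 : H (par a) b = if b = par a then y (par a) else 0 := by
        show (if b = par a then dd (par a) else 0) + (if b = par (par a) then oo (par a) else 0) = _
        have h1 : dd (par a) = y (par a) := if_pos (hpar a)
        have h2 : oo (par a) = 0 := if_pos (hpar a)
        rw [h1, h2, ite_self, add_zero]
      rw [h1, h2, if_neg ha]
      by_cases hb : b = a
      · have hb' : b ≠ par a := fun h7 => ha (h7.symm.trans hb)
        rw [if_pos hb, if_neg hb', if_neg hb', hb, add_zero, Derivation.map_one_eq_zero, mul_zero, zero_add, mul_one, mul_one,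
          mul_zero, add_zero, psT a, psα a, hn1 a ha]
        simp only [Polynomial.coe_mul, Polynomial.coe_C]
        ring
      · by_cases hb' : b = par a
        · have h8 : ν b = 0 := by rw [hb']; exact hν _ (hpar a)
          rw [if_neg hb, if_pos hb', if_pos hb', zero_add, h8, map_zero, zero_mul, add_zero, psT a, psα a, psβ a, mul_assoc,
            hn2 a ha]
          ring
        · rw [if_neg hb, if_neg hb', if_neg hb', add_zero, map_zero]
          simp
  have hz : SDc (0 : ℚ⟦X⟧) := by simpa using SDc.int 0
  have hneg : ∀ f : ℚ⟦X⟧, SDc f → SDc (-f) := fun f hf => by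
    have := (SDc.int (-1)).mul hf
    simpa using this
  have hSH : ∀ a b, SDc (H a b) := by
    intro a b
    refine SDc.add ?_ ?_
    · split_ifs
      · show SDc (if par a = a then y a else 1)
        split_ifs
        · exact hS a
        · exact SDc.one
      · exact hz
    · split_ifs
      · show SDc (if par a = a then 0 else y a)
        split_ifs
        · exact hz
        · exact hS a
      · exact hz
  have hSW : ∀ a b, SDc (W a b) := by
    intro a b
    refine SDc.add ?_ ?_
    · split_ifs
      · show SDc (if par a = a then yi a else 1)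
        split_ifs
        · exact hSi a
        · exact SDc.one
      · exact hz
    · split_ifs
      · show SDc (if par a = a then 0 else -(y a * yi (par a)))
        split_ifs
        · exact hz
        · exact hneg _ ((hS a).mul (hSi _))
      · exact hz
  -- the vector
  let v : ι → ℚ := fun a => if par a = a then 1 else 0
  have hv : ∀ a, ∑ c, H a c * C (v c) = y a := by
    intro a
    rw [hsumH a fun c => C (v c)]
    by_cases ha : par a = a
    · have h1 : dd a = y a := if_pos ha
      have h2 : oo a = 0 := if_pos ha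
      have h3 : v a = 1 := if_pos ha
      rw [h1, h2, h3, map_one, mul_one, zero_mul, add_zero]
    · have h1 : oo a = y a := if_neg ha
      have h2 : v a = 0 := if_neg ha
      have h3 : v (par a) = 1 := if_pos (hpar a)
      rw [h1, h2, h3, map_zero, mul_zero, zero_add, map_one, mul_one]
  let e := Fintype.equivFin ι
  refine ⟨Fintype.card ι, e, Polynomial.X * T₁, fun i j => AA (e.symm i) (e.symm j), ?_⟩
  have hmain := hGFD (Fintype.card ι) T₁ (fun i j => AA (e.symm i) (e.symm j)) (fun i => ν (e.symm i)) (fun i => v (e.symm i))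
    (Matrix.of fun i j => H (e.symm i) (e.symm j)) (Matrix.of fun i j => W (e.symm i) (e.symm j)) hT0 (by
      ext1 i j
      rw [Matrix.mul_apply, Matrix.one_apply]
      have h1 := Equiv.sum_comp e.symm fun c => H (e.symm i) c * W c (e.symm j)
      refine h1.trans ?_
      rw [hHW]
      by_cases hij : i = j
      · rw [if_pos hij, if_pos (by rw [hij])]
      · rw [if_neg hij, if_neg fun h2 => hij (e.symm.injective h2).symm]) (by
      intro i j
      rw [Matrix.of_apply, hode]
      exact (Equiv.sum_comp e.symm fun c => ps (AA (e.symm i) c) * H c (e.symm j)).symm)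
    (fun i j => hSH _ _) (fun i j => hSW _ _) (fun i => by
      by_cases ha : par (e.symm i) = e.symm i
      · rw [hν _ ha, zero_mul]
      · have : v (e.symm i) = 0 := if_neg ha
        rw [this, mul_zero])
  convert hmain using 1
  funext i
  rw [← hv (e.symm i)]
  exact (Equiv.sum_comp e.symm fun c => H (e.symm i) c * C (v c)).symm

end Pool.Agent.P8H40.SE
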