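import Pool.Agent.P8H40.SE.Def

/-!
# Project SE (helper40): statements of the packages
-/

set_option autoImplicit false

namespace Pool.Agent.P8H40.SE

open Pool.Agent.Y113

section
open Polynomial

/-- package KEY: rational solutions of `ρ' - (Λ/F) ρ = W`, `ρ = B/Q` (all local exponents of the homogeneous equation
are non-integral) -/
def S_KEY : Prop := ∀ (K : Type) [Field K] [CharZero K] (F Λ B Q W : K[X]) (A : ℚ), Squarefree F →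
  (∀ π : K[X], Irreducible π → π ∣ F → ∃ a : ℚ, (∀ n : ℤ, a ≠ n) ∧ π ∣ Λ - C (a : K) * derivative F) →
  Λ.natDegree < F.natDegree → Λ.coeff (F.natDegree - 1) = (A : K) * F.leadingCoeff → (∀ n : ℤ, A ≠ n) → Q ≠ 0 →
  W.natDegree + 2 ≤ F.natDegree →
  F * (derivative B * Q - B * derivative Q) - Λ * B * Q = W * Q * Q * F → W = 0

/-- package SIM: a rational function with derivative `∑ c_i / (X + x_i)` -/
def S_SIM : Prop := ∀ (K : Type) [Field K] [CharZero K] (r : ℕ) (x c : Fin r → K), Function.Injective x →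
  ∀ B Q : K[X], Q ≠ 0 → (derivative B * Q - B * derivative Q) * ∏ i, (X + C (x i)) =
    Q * Q * ∑ i, C (c i) * ∏ j ∈ Finset.univ.erase i, (X + C (x j)) → c = 0

end

open PowerSeries

/-- package PW: the power series `u ^ β` is a G-function -/
def S_PW : Prop := ∀ (u : Polynomial ℚ) (β : ℚ), u.coeff 0 = 1 → ∃ h : ℚ⟦X⟧, coeff 0 h = 1 ∧
  (u : ℚ⟦X⟧) * d⁄dX ℚ h = C β * ((Polynomial.derivative u : Polynomial ℚ) : ℚ⟦X⟧) * h ∧ SDc h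

/-- package PRI: primitives of G-functions, with a rational exponent -/
def S_PRI : Prop := ∀ (h : ℚ⟦X⟧) (e : ℚ), (∀ n : ℤ, e ≠ n) → SDc h → SDc (PowerSeries.mk fun m => coeff m h / ((m : ℚ) + e))

/-- package GFD: systems with diagonal rational exponents at the origin, `Y = H x^ν`, give families of G-functions -/
def S_GFD : Prop := ∀ (n : ℕ) (T₁ : Polynomial ℤ) (A : Fin n → Fin n → Polynomial ℤ) (ν v : Fin n → ℚ)
  (H W : Matrix (Fin n) (Fin n) ℚ⟦X⟧), T₁ ≠ 0 → H * W = 1 →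
  (∀ i j, ps T₁ * (X * d⁄dX ℚ (H i j) + C (ν j) * H i j) = ∑ k, ps (A i k) * H k j) →
  (∀ i j, SDc (H i j)) → (∀ i j, SDc (W i j)) → (∀ i, ν i * v i = 0) →
  Pool.Agent.Y124.TL.GF (Polynomial.X * T₁) A (fun i => ∑ j, H i j * C (v j))

/-- package VAL: the values of the primitives -/
def S_VAL : Prop := ∀ (p : ℕ) (g : Fin p → Polynomial ℤ) (a : Fin p → ℚ) (j : ℕ) (h : ℚ⟦X⟧),
  (∀ i, 0 < (g i).leadingCoeff) → coeff 0 h = 1 → SDc h →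
  (∏ i, (revq (g i) : ℚ⟦X⟧)) * d⁄dX ℚ h = -(∑ i, C (a i) * ((Polynomial.derivative (revq (g i)) : Polynomial ℚ) : ℚ⟦X⟧) *
    ∏ k ∈ Finset.univ.erase i, (revq (g k) : ℚ⟦X⟧)) * h →
  (∀ z : ℤ, ex g a j ≠ z) → ∀ F : ℝ → ℂ, IsPrim g a j F →
  ∀ᶠ t : ℝ in Filter.atTop, F t = -(((∏ i, ((g i).leadingCoeff : ℝ) ^ (-(a i : ℝ))) * t ^ (-(ex g a j : ℝ)) *
    ev t (PowerSeries.mk fun m => coeff m h / ((m : ℚ) + ex g a j)) : ℝ) : ℂ)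

end Pool.Agent.P8H40.SE

namespace Pool.Agent.P8H40.SE

open Filter
open scoped PeriodPair

/-- the Weierstrass zeta function (the summand of `l = 0` is `1/z`) -/
noncomputable def zeta (Λ : PeriodPair) (z : ℂ) : ℂ := ∑' l : Λ.lattice, (1 / (z - l) + 1 / l + z / l ^ 2)

/-- package ELL: elliptic logarithms of the points with large real abscissa `t` and the values of `ζ` there -/
def S_ELL : Prop := ∀ (Λ : PeriodPair) (g2 g3 : ℝ), Λ.g₂ = (g2 : ℂ) → Λ.g₃ = (g3 : ℂ) →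
  ∃ (F₀ F₁ : ℝ → ℂ) (G₀ G₁ : ℂ → ℂ), AnalyticAt ℂ G₀ 0 ∧ AnalyticAt ℂ G₁ 0 ∧
    (∀ᶠ t : ℝ in atTop,
      HasDerivAt F₀ (((4 * t ^ 3 - g2 * t - g3) ^ (-(1 / 2) : ℝ) : ℝ) : ℂ) t ∧
      F₀ t = ((t ^ (-(1 / 2) : ℝ) : ℝ) : ℂ) * G₀ (1 / (t : ℂ)) ∧
      HasDerivAt F₁ ((t * (4 * t ^ 3 - g2 * t - g3) ^ (-(1 / 2) : ℝ) : ℝ) : ℂ) t ∧
      F₁ t = ((t ^ ((1 / 2) : ℝ) : ℝ) : ℂ) * G₁ (1 / (t : ℂ)) ∧
      ∀ z : ℂ, z ∉ Λ.lattice → ℘[Λ] z = (t : ℂ) → ∃ ε n₁ n₂ : ℤ, (ε = 1 ∨ ε = -1) ∧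
        z = -ε * F₀ t + n₁ * Λ.ω₁ + n₂ * Λ.ω₂ ∧
        zeta Λ z = ε * F₁ t + n₁ * (2 * zeta Λ (Λ.ω₁ / 2)) + n₂ * (2 * zeta Λ (Λ.ω₂ / 2)))

end Pool.Agent.P8H40.SE
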