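import Pool.Agent.P8H40.SE.CovG
import Pool.Agent.P8H40.SE.Fac

/-!
# Hyperelliptic integrals of several curves of odd degree at all tuples of nearby integers
-/

set_option autoImplicit false

open Polynomial Filter Module

namespace Pool.Agent.P8H40.SE

/-- the primitive at infinity of `t^j dt / √f(t)` -/
def IsPrimQ (f : ℚ[X]) (j : ℕ) (F : ℝ → ℂ) : Prop :=
  ∃ G : ℂ → ℂ, AnalyticAt ℂ G 0 ∧ ∀ᶠ t : ℝ in atTop,
    HasDerivAt F ((t ^ j * (f.map (algebraMap ℚ ℝ)).eval t ^ (-(1 / 2) : ℝ) : ℝ) : ℂ) t ∧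
    F t = ((t ^ (-((f.natDegree : ℝ) / 2 - ((j : ℝ) + 1))) : ℝ) : ℂ) * G (1 / (t : ℂ))

/-- the places -/
abbrev Idq {n : ℕ} (f : Fin n → ℚ[X]) (s k : ℕ) : Type :=
  (Fin (k + 1) × ((Σ i : Fin n, Fin ((f i).natDegree - 1)) ⊕ Fin s)) ⊕ Fin k

/-- the numbers -/
noncomputable def numq {n s k : ℕ} (f : Fin n → ℚ[X]) (b : Fin s → ℤ) (J : Fin n → ℕ → ℝ → ℂ) (m : Fin (k + 1) → ℕ) :
    Idq f s k → ℂ :=
  Sum.elim (fun x => Sum.elim (fun y => J y.1 y.2 (m x.1)) (fun i => ((Real.log (1 + b i / m x.1) : ℝ) : ℂ)) x.2)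
    (fun l => ((Real.log (m l.succ / m 0) : ℝ) : ℂ))

theorem twist_main (hKEY : S_KEY) (hSIM : S_SIM) (hPW : S_PW) (hPRI : S_PRI) (hGFD : S_GFD) (hVAL : S_VAL) {n s : ℕ}
    (f : Fin n → ℚ[X]) (hodd : ∀ i, Odd (f i).natDegree) (hsq : ∀ i, Squarefree (f i)) (hlc : ∀ i, 0 < (f i).leadingCoeff)
    (hne : ∀ i i', i ≠ i' → ∀ c : ℚ, f i ≠ C c * f i') (b : Fin s → ℤ) (hb : Function.Injective b) (hb0 : ∀ i, b i ≠ 0)
    (J : Fin n → ℕ → ℝ → ℂ) (hJ : ∀ i j, j + 2 ≤ (f i).natDegree → IsPrimQ (f i) j (J i j)) :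
    ∃ G : ℕ, ∀ k r δ D C e : ℕ, ∃ (c : ℝ) (M₀ : ℕ), 0 < c ∧ ∀ M : ℕ, M₀ ≤ M → ∀ m : Fin (k + 1) → ℕ,
      (∀ l, M ≤ m l ∧ (m l : ℝ) ≤ M + (M : ℝ) ^ c) → (∀ l l', l ≠ l' → (G : ℤ) ≤ |(m l : ℤ) - m l'|) →
      ∀ (K : IntermediateField ℚ ℂ) [FiniteDimensional ℚ K], finrank ℚ K ≤ D →
        ∀ (ι : Type) [Fintype ι], Fintype.card ι = C → ∀ (T : Type) [Fintype T], Fintype.card T = e →
        ∀ φ : T → Idq f s k, Function.Injective φ → ∀ (θ : Fin r → ℂ) (w : ι → ℂ),
          (∀ x, numq f b J m (φ x) ∈ Submodule.span K (insert 1 (Set.range w ∪ Set.range θ))) →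
          ∃ σ : Fin (e - r) → ι, Function.Injective σ ∧
            Pool.Agent.Y124.TD.LIb K δ (fun i => w (σ i)) := by
  classical
  obtain ⟨p, g, S, hgsq, hgdeg, hglc, hS⟩ := factor_family f hsq hlc
  choose c hc hcf using hS
  have hf0 : ∀ i, f i ≠ 0 := fun i h => by
    have := hlc i
    rw [h, leadingCoeff_zero] at this
    exact lt_irrefl _ this
  have hinjZ : Function.Injective (Int.castRingHom ℚ) := RingHom.injective_int _
  have hg0 : ∀ j, (g j).map (Int.castRingHom ℚ) ≠ 0 := fun j h => by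
    have h1 := (Polynomial.map_eq_zero_iff hinjZ).1 h
    have := hglc j
    rw [h1, leadingCoeff_zero] at this
    exact lt_irrefl _ this
  -- the degrees
  have hdeg : ∀ i, ∑ j ∈ S i, (g j).natDegree = (f i).natDegree := by
    intro i
    have h1 := congrArg natDegree (hcf i)
    rw [natDegree_C_mul (hc i).ne', natDegree_prod _ _ fun j _ => hg0 j] at h1
    rw [h1]
    exact Finset.sum_congr rfl fun j _ => (natDegree_map_eq_of_injective hinjZ _).symm
  let a : Fin n → Fin p → ℚ := fun i j => if j ∈ S i then 1 / 2 else 0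
  have haS : ∀ i j, a i j = if j ∈ S i then 1 / 2 else 0 := fun i j => rfl
  have ha : ∀ i j, 0 ≤ a i j ∧ a i j < 1 := by
    intro i j
    rw [haS]
    split_ifs <;> norm_num
  have hinj : Function.Injective a := by
    intro i i' h
    by_contra hii
    have hSS : S i = S i' := by
      ext j
      have h1 := congrFun h j
      rw [haS, haS] at h1
      by_cases h2 : j ∈ S i <;> by_cases h3 : j ∈ S i' <;> simp [h2, h3] at h1 ⊢
    have h1 : C (c i) * f i = C (c i') * f i' := by rw [hcf, hcf, hSS]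
    apply hne i i' hii (c i' / c i)
    have h2 : C (c i) ≠ 0 := C_ne_zero.2 (hc i).ne'
    apply mul_left_cancel₀ h2
    rw [h1, ← mul_assoc, ← C_mul, mul_div_cancel₀ _ (hc i).ne']
  have hsum : ∀ i, ∑ j, a i j * ((g j).natDegree : ℚ) = (f i).natDegree / 2 := by
    intro i
    have h1 : ∑ j, a i j * ((g j).natDegree : ℚ) = ∑ j ∈ S i, 1 / 2 * ((g j).natDegree : ℚ) := by
      rw [← Finset.sum_subset (Finset.subset_univ (S i))]
      · exact Finset.sum_congr rfl fun j hj => by rw [haS, if_pos hj]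
      · intro j _ hj
        rw [haS, if_neg hj, zero_mul]
    rw [h1, ← Finset.mul_sum, ← hdeg i]
    push_cast
    ring
  have hA : ∀ i, ∀ z : ℤ, ∑ j, a i j * ((g j).natDegree : ℚ) ≠ z := by
    intro i z hz
    rw [hsum i] at hz
    obtain ⟨u, hu⟩ := hodd i
    have h1 : ((f i).natDegree : ℚ) = 2 * z := by linarith
    have h2 : (((f i).natDegree : ℤ)) = 2 * z := by exact_mod_cast h1
    omega
  have hNn : ∀ i, Nn g (a i) = (f i).natDegree := by
    intro i
    unfold Nn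
    rw [← hdeg i, ← Finset.sum_subset (Finset.subset_univ (S i))]
    · refine Finset.sum_congr rfl fun j hj => ?_
      rw [haS, if_pos hj, if_neg (by norm_num)]
    · intro j _ hj
      rw [haS, if_neg hj, if_pos rfl]
  -- the primitives
  let ρ : Fin n → ℝ := fun i => ((c i : ℝ)) ^ (-(1 / 2) : ℝ)
  have hcR : ∀ i, (0 : ℝ) < c i := fun i => by exact_mod_cast hc i
  have hρ0 : ∀ i, 0 < ρ i := fun i => Real.rpow_pos_of_pos (hcR i) _
  have hρ2 : ∀ i, ρ i ^ 2 = ((1 / c i : ℚ) : ℝ) := by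
    intro i
    show (((c i : ℝ)) ^ (-(1 / 2) : ℝ)) ^ 2 = _
    rw [← Real.rpow_natCast, ← Real.rpow_mul (hcR i).le]
    norm_num
    exact Real.rpow_neg_one _
  let I : Fin n → ℕ → ℝ → ℂ := fun i j t => (ρ i : ℂ) * J i j t
  have hgpos : ∀ᶠ t : ℝ in atTop, ∀ j, 0 < ((g j).map (Int.castRingHom ℝ)).eval t := by
    rw [eventually_all]
    intro j
    have hl : (0 : ℝ) < ((g j).map (Int.castRingHom ℝ)).leadingCoeff := by
      rw [Polynomial.leadingCoeff_map_of_injective (RingHom.injective_int _)]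
      have := hglc j
      simpa using this
    refine (Polynomial.tendsto_atTop_of_leadingCoeff_nonneg _ (Polynomial.natDegree_pos_iff_degree_pos.1 ?_) hl.le).eventually_gt_atTop 0
    rw [Polynomial.natDegree_map_eq_of_injective (RingHom.injective_int _)]
    exact hgdeg j
  have hI : ∀ i j, j + 2 ≤ Nn g (a i) → IsPrim g (a i) j (I i j) := by
    intro i j hj
    rw [hNn i] at hj
    obtain ⟨H, hH, hev⟩ := hJ i j hj
    refine ⟨fun u => (ρ i : ℂ) * H u, analyticAt_const.mul hH, ?_⟩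
    filter_upwards [hev, hgpos] with t ht htg
    have hprod : ∏ j ∈ S i, ((g j).map (Int.castRingHom ℝ)).eval t = (c i : ℝ) * ((f i).map (algebraMap ℚ ℝ)).eval t := by
      have h1 := congrArg (fun P : ℚ[X] => (P.map (algebraMap ℚ ℝ)).eval t) (hcf i)
      simp only [Polynomial.map_mul, Polynomial.map_prod, Polynomial.map_C, Polynomial.map_map, eval_mul, eval_C, eval_prod] at h1
      have h2 : (algebraMap ℚ ℝ).comp (Int.castRingHom ℚ) = Int.castRingHom ℝ := Subsingleton.elim _ _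
      rw [h2] at h1
      rw [← h1]
      rfl
    have hfpos : 0 < ((f i).map (algebraMap ℚ ℝ)).eval t := by
      have h1 : 0 < ∏ j ∈ S i, ((g j).map (Int.castRingHom ℝ)).eval t := Finset.prod_pos fun j _ => htg j
      rw [hprod] at h1
      exact (pos_iff_pos_of_mul_pos h1).1 (hcR i)
    have hform : integrand g (a i) j t = ρ i * (t ^ j * ((f i).map (algebraMap ℚ ℝ)).eval t ^ (-(1 / 2) : ℝ)) := by
      unfold integrand
      have h1 : ∏ j, ((g j).map (Int.castRingHom ℝ)).eval t ^ (-(a i j : ℝ)) =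
          ∏ j ∈ S i, ((g j).map (Int.castRingHom ℝ)).eval t ^ (-(1 / 2) : ℝ) := by
        rw [← Finset.prod_subset (Finset.subset_univ (S i))]
        · refine Finset.prod_congr rfl fun j hj => ?_
          rw [haS, if_pos hj]
          norm_num
        · intro j _ hj
          rw [haS, if_neg hj]
          norm_num
      rw [h1, Real.finsetProd_rpow _ _ fun j _ => (htg j).le, hprod, Real.mul_rpow (hcR i).le hfpos.le]
      ring
    constructor
    · have h1 := ht.1.const_mul (ρ i : ℂ)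
      refine h1.congr_deriv ?_
      rw [hform]
      push_cast
      ring
    · show (ρ i : ℂ) * J i j t = _
      rw [ht.2]
      have h1 : (-(ex g (a i) j : ℝ)) = -(((f i).natDegree : ℝ) / 2 - ((j : ℝ) + 1)) := by
        unfold ex
        rw [hsum i]
        push_cast
        ring
      rw [h1]
      ring
  obtain ⟨G, hG⟩ := cover_gen hKEY hSIM hPW hPRI hGFD hVAL g hgsq hgdeg hglc a ha hinj hA b hb hb0 I hI
  refine ⟨G, fun k r δ D C' e => ?_⟩
  obtain ⟨cc, M₀, hcc, hmain⟩ := hG k r δ (D * 2 ^ n) C' e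
  refine ⟨cc, M₀, hcc, fun M hM m hm hsep K _ hK ι _ hι T _ hT φ hφ θ w hw => ?_⟩
  obtain ⟨K', hKK', hfin, hrk, hfK⟩ := ext_field (n := 2) (by norm_num) K (Finset.univ.image fun i => (ρ i : ℂ)) (by
    intro x hx
    obtain ⟨i, -, rfl⟩ := Finset.mem_image.1 hx
    refine ⟨1 / c i, ?_⟩
    rw [← Complex.ofReal_pow, hρ2 i]
    push_cast
    rfl)
  have hcard : (Finset.univ.image fun i => (ρ i : ℂ)).card ≤ n := by
    refine Finset.card_image_le.trans ?_
    rw [Finset.card_univ, Fintype.card_fin]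
  have hrk' : finrank ℚ K' ≤ D * 2 ^ n :=
    hrk.trans (Nat.mul_le_mul hK (Nat.pow_le_pow_right (by norm_num) hcard))
  let cst : Idq f s k → Idx g a s k := fun x => match x with
    | Sum.inl (l, Sum.inl y) => Sum.inl (l, Sum.inl ⟨y.1, ⟨(y.2 : ℕ), by rw [hNn]; exact y.2.2⟩⟩)
    | Sum.inl (l, Sum.inr i) => Sum.inl (l, Sum.inr i)
    | Sum.inr l => Sum.inr l
  have hcst : Function.Injective cst := by
    rintro (⟨l, ⟨i, j⟩ | i⟩ | l) (⟨l', ⟨i', j'⟩ | i'⟩ | l') h
    · simp only [cst, Sum.inl.injEq, Prod.mk.injEq, Sigma.mk.injEq] at h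
      obtain ⟨rfl, rfl, h3⟩ := h
      have h4 := eq_of_heq h3
      have h5 : j = j' := Fin.ext (by simpa using h4)
      rw [h5]
    · simp [cst] at h
    · simp [cst] at h
    · simp [cst] at h
    · simp only [cst, Sum.inl.injEq, Prod.mk.injEq, Sum.inr.injEq] at h
      rw [h.1, h.2]
    · simp [cst] at h
    · simp [cst] at h
    · simp [cst] at h
    · simp only [cst, Sum.inr.injEq] at h
      rw [h]
  obtain ⟨σ, hσ, hLI⟩ := hmain M hM m hm hsep K' hrk' ι hι T hT (fun x => cst (φ x)) (hcst.comp hφ) θ w (by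
    intro x
    have hx : numq f b J m (φ x) ∈ Submodule.span K' (insert 1 (Set.range w ∪ Set.range θ)) :=
      mem_of_le_span hKK' (fun y hy => Submodule.subset_span hy) (hw x)
    have key : ∀ z : Idq f s k, numq f b J m z ∈ Submodule.span K' (insert 1 (Set.range w ∪ Set.range θ)) →
        num g a b I m (cst z) ∈ Submodule.span K' (insert 1 (Set.range w ∪ Set.range θ)) := by
      rintro (⟨l, y | i⟩ | l) hz
      · have h1 : num g a b I m (cst (Sum.inl (l, Sum.inl y))) =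
            ((⟨(ρ y.1 : ℂ), hfK _ (Finset.mem_image_of_mem _ (Finset.mem_univ _))⟩ : K') : K') • numq f b J m (Sum.inl (l, Sum.inl y)) := by
          rw [Algebra.smul_def]
          rfl
        rw [h1]
        exact Submodule.smul_mem _ _ hz
      · exact hz
      · exact hz
    exact key _ hx)
  exact ⟨σ, hσ, lib_restrict hKK' hLI⟩

end Pool.Agent.P8H40.SE
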